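import Mathlib

/-! Definitions used in the statement: box complex, mod 2 connectivity, coindex. -/

namespace Pool.Agent.Work.MP_653b6e_gt

open CategoryTheory Limits AlgebraicTopology

/-- The simplices `A ⊎ B` of the box complex `B₀(G)` on the vertex set `V ⊕ V`: `A` and `B` are
disjoint (either may be empty) and every vertex of `A` is adjacent to every vertex of `B`. -/
def boxFaces {V : Type} (G : SimpleGraph V) : Set (Finset (V ⊕ V)) :=
  {σ | ∃ A B : Finset V, Disjoint A B ∧ (∀ a ∈ A, ∀ b ∈ B, G.Adj a b) ∧ σ = A.disjSum B}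

/-- The geometric realisation of a simplicial complex on a finite vertex set `W`: the points of the
standard simplex in `ℝ^W` whose barycentric coordinates vanish outside some simplex. -/
def realization {W : Type} [Fintype W] (K : Set (Finset W)) : Set (W → ℝ) :=
  {x | x ∈ stdSimplex ℝ W ∧ ∃ σ ∈ K, ∀ w, w ∉ σ → x w = 0}

/-- The geometric realisation of `B₀(G)` as a topological space. -/
def boxSpace {V : Type} [Fintype V] (G : SimpleGraph V) : TopCat.{0} :=
  TopCat.of (realization (boxFaces G))

/-- The involution of the realisation of `B₀(G)` induced by `A ⊎ B ↦ B ⊎ A`. -/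
def boxSwap {V : Type} [Fintype V] (G : SimpleGraph V) (x : boxSpace G) : boxSpace G :=
  ⟨fun s => x.1 s.swap, by
    obtain ⟨⟨h0, h1⟩, σ, ⟨A, B, hAB, hadj, rfl⟩, hσ⟩ := x.2
    refine ⟨⟨fun s => h0 _, ?_⟩, B.disjSum A,
      ⟨B, A, hAB.symm, fun b hb a ha => (hadj a ha b hb).symm, rfl⟩, ?_⟩
    · rw [← h1]
      exact Equiv.sum_comp (Equiv.sumComm V V) x.1
    · rintro (s | s) hs <;> exact hσ _ (by simpa using hs)⟩

/-- The coefficient module `ℤ/2`. -/
abbrev coeffZ2 : ModuleCat.{0} (ZMod 2) := ModuleCat.of (ZMod 2) (ZMod 2)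

/-- Vanishing of the reduced singular homology group of `X` in degree `i` with `ℤ/2` coefficients.
In degree `0` it is the kernel of the augmentation, in degree `-1` it vanishes exactly when `X`
is nonempty, and below degree `-1` it is zero. -/
def ReducedHomologyVanishes (X : TopCat.{0}) : ℤ → Prop
  | Int.ofNat 0 => IsZero (kernel (X.singularHomology₀ε coeffZ2))
  | Int.ofNat (n + 1) =>
      IsZero (((singularHomologyFunctor (ModuleCat.{0} (ZMod 2)) (n + 1)).obj coeffZ2).obj X)
  | Int.negSucc 0 => Nonempty X
  | Int.negSucc (_ + 1) => True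

/-- The mod 2 homological connectivity: the supremum of the integers `k` such that the reduced
mod 2 homology vanishes in all degrees `i ≤ k`. -/
noncomputable def connZ2 (X : TopCat.{0}) : EReal :=
  sSup {r | ∃ k : ℤ, r = ((k : ℝ) : EReal) ∧ ∀ i ≤ k, ReducedHomologyVanishes X i}

/-- The coindex of a space with an involution `τ`: the supremum of the `n = m - 1` such that there
is a continuous equivariant map from the unit sphere `S^n` of `ℝ^m` with the antipodal action. -/
noncomputable def coind (X : TopCat.{0}) (τ : X → X) : EReal :=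
  sSup {r | ∃ m : ℕ, r = (((m : ℝ) - 1 : ℝ) : EReal) ∧
    ∃ f : C(Metric.sphere (0 : EuclideanSpace ℝ (Fin m)) 1, X), ∀ x, f (-x) = τ (f x)}

end Pool.Agent.Work.MP_653b6e_gt
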