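import Mathlib
import Pool.Agent.Work.MP_653b6e_gt.Defs

-- merged part: Pool.Agent.Work.MP_653b6e_gt.Sphere
section
-- merged part: Pool.Agent.Work.MP_653b6e_gt.Moore
section
/-! Moore paths: a strictly associative model of paths. -/

namespace Pool.Agent.Work.MP_653b6e_gt

open Set Topology

variable {X : Type*} [TopologicalSpace X]

/-- Moore paths from `p` to `q`. -/
@[ext] structure MP (p q : X) where
  len : ℝ
  fn : C(ℝ, X)
  len_nonneg : 0 ≤ len
  src : ∀ t, t ≤ 0 → fn t = p
  tgt : ∀ t, len ≤ t → fn t = q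

namespace MP

variable {p q r s : X}

instance : TopologicalSpace (MP p q) :=
  TopologicalSpace.induced (fun γ : MP p q => (γ.len, γ.fn)) inferInstance

lemma isInducing : IsInducing (fun γ : MP p q => (γ.len, γ.fn)) := ⟨rfl⟩

lemma continuous_len : Continuous (fun γ : MP p q => γ.len) :=
  continuous_fst.comp isInducing.continuous

lemma continuous_fn : Continuous (fun γ : MP p q => γ.fn) :=
  continuous_snd.comp isInducing.continuous

lemma continuous_ev : Continuous (fun x : MP p q × ℝ => x.1.fn x.2) :=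
  (continuous_fn.comp continuous_fst).eval continuous_snd

lemma continuous_of {P : Type*} [TopologicalSpace P] {f : P → MP p q}
    (h1 : Continuous fun a => (f a).len) (h2 : Continuous fun x : P × ℝ => (f x.1).fn x.2) :
    Continuous f := by
  rw [isInducing.continuous_iff]
  exact h1.prodMk (ContinuousMap.continuous_of_continuous_uncurry _ h2)

/-- The constant path. -/
def refl (p : X) : MP p p where
  len := 0
  fn := ContinuousMap.const _ p
  len_nonneg := le_rfl
  src _ _ := rfl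
  tgt _ _ := rfl

/-- Concatenation. -/
noncomputable def trans (a : MP p q) (b : MP q r) : MP p r where
  len := a.len + b.len
  fn := ⟨fun t => if t ≤ a.len then a.fn t else b.fn (t - a.len), by
    refine Continuous.if_le a.fn.continuous (b.fn.continuous.comp (by fun_prop))
      continuous_id continuous_const ?_
    rintro t rfl
    rw [a.tgt _ le_rfl, b.src _ (by simp)]⟩
  len_nonneg := add_nonneg a.len_nonneg b.len_nonneg
  src t ht := by
    have := a.len_nonneg
    simp only [ContinuousMap.coe_mk]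
    rw [if_pos (by linarith), a.src t ht]
  tgt t ht := by
    have := b.len_nonneg
    simp only [ContinuousMap.coe_mk]
    split_ifs with h
    · rw [a.tgt t (by linarith), ← b.src 0 le_rfl, b.tgt 0 (by linarith)]
    · exact b.tgt _ (by linarith)

@[simp] lemma trans_len (a : MP p q) (b : MP q r) : (a.trans b).len = a.len + b.len := rfl

lemma trans_fn (a : MP p q) (b : MP q r) (t : ℝ) :
    (a.trans b).fn t = if t ≤ a.len then a.fn t else b.fn (t - a.len) := rfl

lemma trans_fn_of_le (a : MP p q) (b : MP q r) {t : ℝ} (h : t ≤ a.len) :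
    (a.trans b).fn t = a.fn t := by rw [trans_fn, if_pos h]

lemma trans_fn_of_ge (a : MP p q) (b : MP q r) {t : ℝ} (h : a.len ≤ t) :
    (a.trans b).fn t = b.fn (t - a.len) := by
  rw [trans_fn]
  split_ifs with h'
  · rw [a.tgt t h, b.src _ (by linarith)]
  · rfl

lemma refl_trans (a : MP p q) : (refl p).trans a = a := by
  ext t
  · simp [refl]
  · rcases le_total t 0 with h | h
    · rw [trans_fn_of_le _ _ h, a.src t h]; rfl
    · rw [trans_fn_of_ge _ _ h]; simp [refl]

lemma trans_refl (a : MP p q) : a.trans (refl q) = a := by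
  ext t
  · simp [refl]
  · rcases le_total t a.len with h | h
    · rw [trans_fn_of_le _ _ h]
    · rw [trans_fn_of_ge _ _ h, a.tgt t h]; rfl

lemma trans_assoc (a : MP p q) (b : MP q r) (c : MP r s) :
    (a.trans b).trans c = a.trans (b.trans c) := by
  have ha := a.len_nonneg
  have hb := b.len_nonneg
  ext t
  · simp [add_assoc]
  · rcases le_total t a.len with h | h
    · rw [trans_fn_of_le _ _ (by simp; linarith), trans_fn_of_le _ _ h, trans_fn_of_le _ _ h]
    · rw [trans_fn_of_ge a _ h]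
      rcases le_total t (a.len + b.len) with h' | h'
      · rw [trans_fn_of_le _ _ (by simpa using h'), trans_fn_of_ge _ _ h,
          trans_fn_of_le _ _ (by linarith)]
      · rw [trans_fn_of_ge _ _ (by simpa using h'), trans_fn_of_ge _ _ (by linarith)]
        simp [sub_sub]

lemma continuous_trans : Continuous (fun x : MP p q × MP q r => x.1.trans x.2) := by
  refine continuous_of ((continuous_len.comp continuous_fst).add
    (continuous_len.comp continuous_snd)) ?_
  simp only [trans_fn]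
  refine Continuous.if_le
    (continuous_ev.comp ((continuous_fst.comp continuous_fst).prodMk continuous_snd))
    (continuous_ev.comp ((continuous_snd.comp continuous_fst).prodMk
      (continuous_snd.sub (continuous_len.comp (continuous_fst.comp continuous_fst)))))
    continuous_snd (continuous_len.comp (continuous_fst.comp continuous_fst)) ?_
  rintro ⟨⟨a, b⟩, t⟩ h
  simp only at h ⊢
  rw [a.tgt _ h.ge, b.src _ (by linarith)]

/-- Reversal. -/
def symm (a : MP p q) : MP q p where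
  len := a.len
  fn := ⟨fun t => a.fn (a.len - t), a.fn.continuous.comp (by fun_prop)⟩
  len_nonneg := a.len_nonneg
  src t ht := a.tgt _ (by linarith)
  tgt t ht := a.src _ (by linarith)

@[simp] lemma symm_len (a : MP p q) : a.symm.len = a.len := rfl
lemma symm_fn (a : MP p q) (t : ℝ) : a.symm.fn t = a.fn (a.len - t) := rfl

lemma symm_symm (a : MP p q) : a.symm.symm = a := by
  ext t
  · rfl
  · simp [symm_fn]

lemma symm_refl (p : X) : (refl p).symm = refl p := rfl

lemma continuous_symm : Continuous (fun a : MP p q => a.symm) := by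
  refine continuous_of continuous_len ?_
  simp only [symm_fn]
  exact continuous_ev.comp (continuous_fst.prodMk
    ((continuous_len.comp continuous_fst).sub continuous_snd))

/-- The contraction of `a.trans a.symm`. -/
noncomputable def contr (a : MP p q) (s : ℝ) : MP p p where
  len := 2 * max (1 - s) 0 * a.len
  fn := ⟨fun t => a.fn (min t (2 * max (1 - s) 0 * a.len - t)),
    a.fn.continuous.comp (by fun_prop)⟩
  len_nonneg := mul_nonneg (mul_nonneg (by norm_num) (le_max_right _ _)) a.len_nonneg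
  src t ht := a.src _ ((min_le_left _ _).trans ht)
  tgt t ht := a.src _ ((min_le_right _ _).trans (by linarith))

lemma contr_fn (a : MP p q) (s t : ℝ) :
    (a.contr s).fn t = a.fn (min t (2 * max (1 - s) 0 * a.len - t)) := rfl

lemma contr_zero (a : MP p q) : a.contr 0 = a.trans a.symm := by
  ext t
  · simp [contr]; ring
  · rw [contr_fn]
    rcases le_total t a.len with h | h
    · rw [trans_fn_of_le _ _ h, min_eq_left (by simp; linarith)]
    · rw [trans_fn_of_ge _ _ h, min_eq_right (by simp; linarith), symm_fn]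
      congr 1; simp; ring

lemma contr_one (a : MP p q) : a.contr 1 = refl p := by
  ext t
  · simp [contr, refl]
  · rw [contr_fn]
    refine a.src _ ?_
    simp only [sub_self, max_self, mul_zero, zero_mul, zero_sub, min_le_iff, Left.neg_nonpos_iff]
    exact le_total t 0

lemma contr_refl (p : X) (s : ℝ) : (refl p).contr s = refl p := by
  ext t
  · simp [contr, refl]
  · rfl

lemma continuous_contr : Continuous (fun x : MP p q × ℝ => x.1.contr x.2) := by
  have h1 : Continuous fun x : MP p q × ℝ => 2 * max (1 - x.2) 0 * x.1.len :=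
    (by fun_prop : Continuous fun x : MP p q × ℝ => 2 * max (1 - x.2) 0).mul
      (continuous_len.comp continuous_fst)
  refine continuous_of h1 ?_
  simp only [contr_fn]
  exact continuous_ev.comp ((continuous_fst.comp continuous_fst).prodMk
    (continuous_snd.min ((h1.comp continuous_fst).sub continuous_snd)))

noncomputable instance : Monoid (MP p p) where
  mul := trans
  one := refl p
  mul_assoc := trans_assoc
  one_mul := refl_trans
  mul_one := trans_refl

lemma mul_def (a b : MP p p) : a * b = a.trans b := rfl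
lemma one_def : (1 : MP p p) = refl p := rfl

instance : ContinuousMul (MP p p) := ⟨continuous_trans⟩

end MP

/-- A topological monoid with a homotopy inverse. -/
class HInv (Γ : Type*) [Monoid Γ] [TopologicalSpace Γ] where
  inv : Γ → Γ
  continuous_inv : Continuous inv
  inv_one : inv 1 = 1
  contr : Γ × ℝ → Γ
  continuous_contr : Continuous contr
  contr_zero : ∀ a, contr (a, 0) = a * inv a
  contr_one : ∀ a, contr (a, 1) = 1
  contr_unit : ∀ s, contr (1, s) = 1

noncomputable instance {p : X} : HInv (MP p p) where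
  inv := MP.symm
  continuous_inv := MP.continuous_symm
  inv_one := rfl
  contr x := x.1.contr x.2
  continuous_contr := MP.continuous_contr
  contr_zero := MP.contr_zero
  contr_one := MP.contr_one
  contr_unit := MP.contr_refl p

end Pool.Agent.Work.MP_653b6e_gt
end

-- merged part: Pool.Agent.Work.MP_653b6e_gt.Htpy
section
/-! Homotopies of functions on subsets, and groups of homotopy classes. -/

namespace Pool.Agent.Work.MP_653b6e_gt

open Set Topology

section glue

variable {α β : Type*} [TopologicalSpace α] [TopologicalSpace β]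

lemma contOn_ite_le {s : Set α} {φ ψ : α → ℝ} {f g : α → β} (hφ : ContinuousOn φ s)
    (hψ : ContinuousOn ψ s) (hf : ContinuousOn f (s ∩ {x | φ x ≤ ψ x}))
    (hg : ContinuousOn g (s ∩ {x | ψ x ≤ φ x})) (h : ∀ x ∈ s, φ x = ψ x → f x = g x) :
    ContinuousOn (fun x => if φ x ≤ ψ x then f x else g x) s := by
  rw [continuousOn_iff_continuous_domRestrict]
  have h1 := continuousOn_iff_continuous_domRestrict.1 hφ
  have h2 := continuousOn_iff_continuous_domRestrict.1 hψ
  refine continuous_if_le (f' := fun x : s => f x) (g' := fun x : s => g x) h1 h2 ?_ ?_ ?_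
  · exact hf.comp continuous_subtype_val.continuousOn (fun x hx => ⟨x.2, hx⟩)
  · exact hg.comp continuous_subtype_val.continuousOn (fun x hx => ⟨x.2, hx⟩)
  · exact fun x hx => h x x.2 hx

open Classical in
/-- Lift a function to a subtype, with a junk value outside. -/
noncomputable def liftTo {Y : Set β} (y0 : Y) (f : α → β) : α → Y :=
  fun x => if h : f x ∈ Y then ⟨f x, h⟩ else y0

omit [TopologicalSpace α] [TopologicalSpace β] in
lemma liftTo_val {Y : Set β} (y0 : Y) {f : α → β} {x : α} (h : f x ∈ Y) :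
    (liftTo y0 f x : β) = f x := by
  simp [liftTo, h]

lemma contOn_liftTo {Y : Set β} (y0 : Y) {f : α → β} {s : Set α} (hc : ContinuousOn f s)
    (hm : MapsTo f s Y) : ContinuousOn (liftTo y0 f) s := by
  rw [IsInducing.subtypeVal.continuousOn_iff]
  exact hc.congr (fun x hx => liftTo_val y0 (hm hx))

end glue

variable {E E' Γ Γ' : Type*} [TopologicalSpace E] [TopologicalSpace E'] [TopologicalSpace Γ]
  [TopologicalSpace Γ']

/-- `f` and `g` are homotopic on `X`, relative to `X'`. -/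
def Htpy (X X' : Set E) (f g : E → Γ) : Prop :=
  ∃ H : E × ℝ → Γ, ContinuousOn H (X ×ˢ Icc 0 1) ∧ (∀ x ∈ X, H (x, 0) = f x) ∧
    (∀ x ∈ X, H (x, 1) = g x) ∧ ∀ x ∈ X, x ∈ X' → ∀ t ∈ Icc (0 : ℝ) 1, H (x, t) = f x

namespace Htpy

variable {X X' : Set E} {f g h : E → Γ}

lemma contOn_left (H : Htpy X X' f g) : ContinuousOn f X := by
  obtain ⟨H, hc, h0, -, -⟩ := H
  have : ContinuousOn (fun x => H (x, 0)) X :=
    hc.comp (by fun_prop) (fun x hx => ⟨hx, by simp⟩)
  exact this.congr (fun x hx => (h0 x hx).symm)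

lemma contOn_right (H : Htpy X X' f g) : ContinuousOn g X := by
  obtain ⟨H, hc, -, h1, -⟩ := H
  have : ContinuousOn (fun x => H (x, 1)) X :=
    hc.comp (by fun_prop) (fun x hx => ⟨hx, by simp⟩)
  exact this.congr (fun x hx => (h1 x hx).symm)

lemma eq_of_mem (H : Htpy X X' f g) {x : E} (hx : x ∈ X) (hx' : x ∈ X') : f x = g x := by
  obtain ⟨H, -, -, h1, h2⟩ := H
  rw [← h1 x hx, h2 x hx hx' 1 (by simp)]

lemma of_eqOn (hf : ContinuousOn f X) (h : EqOn f g X) : Htpy X X' f g :=
  ⟨fun p => f p.1, hf.comp continuousOn_fst (fun _ hp => hp.1), fun _ _ => rfl,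
    fun _ hx => h hx, fun _ _ _ _ _ => rfl⟩

lemma refl (hf : ContinuousOn f X) : Htpy X X' f f := of_eqOn hf (fun _ _ => rfl)

lemma symm (H : Htpy X X' f g) : Htpy X X' g f := by
  have hfg := fun x hx hx' => H.eq_of_mem (x := x) hx hx'
  obtain ⟨H, hc, h0, h1, h2⟩ := H
  refine ⟨fun p => H (p.1, 1 - p.2), hc.comp (by fun_prop) ?_, ?_, ?_, ?_⟩
  · rintro ⟨x, t⟩ ⟨hx, ht0, ht1⟩
    exact ⟨hx, by simp at ht0 ht1 ⊢; constructor <;> linarith⟩
  · intro x hx; simpa using h1 x hx
  · intro x hx; simpa using h0 x hx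
  · rintro x hx hx' t ⟨ht0, ht1⟩
    rw [← hfg x hx hx']
    exact h2 x hx hx' _ ⟨by linarith, by linarith⟩

lemma trans (H1 : Htpy X X' f g) (H2 : Htpy X X' g h) : Htpy X X' f h := by
  have hfg := fun x hx hx' => H1.eq_of_mem (x := x) hx hx'
  obtain ⟨H, hc, h0, h1, h2⟩ := H1
  obtain ⟨K, kc, k0, k1, k2⟩ := H2
  refine ⟨fun p => if 2 * p.2 ≤ 1 then H (p.1, 2 * p.2) else K (p.1, 2 * p.2 - 1), ?_, ?_, ?_, ?_⟩
  · refine contOn_ite_le (φ := fun p : E × ℝ => 2 * p.2) (ψ := fun _ => 1) (by fun_prop)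
      (by fun_prop) (hc.comp (by fun_prop) ?_) (kc.comp (by fun_prop) ?_) ?_
    · rintro ⟨x, t⟩ ⟨⟨hx, ht0, ht1⟩, ht⟩
      exact ⟨hx, by simp at ht0 ht1 ht ⊢; constructor <;> linarith⟩
    · rintro ⟨x, t⟩ ⟨⟨hx, ht0, ht1⟩, ht⟩
      exact ⟨hx, by simp at ht0 ht1 ht ⊢; constructor <;> linarith⟩
    · rintro ⟨x, t⟩ ⟨hx, -⟩ ht
      simp only at ht ⊢
      rw [ht, sub_self, h1 x hx, k0 x hx]
  · intro x hx; simpa using h0 x hx
  · intro x hx
    have : ¬ (2 * (1 : ℝ) ≤ 1) := by norm_num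
    simp only [this, if_false]
    rw [show (2 * 1 - 1 : ℝ) = 1 by norm_num, k1 x hx]
  · rintro x hx hx' t ⟨ht0, ht1⟩
    simp only
    split_ifs with ht
    · exact h2 x hx hx' _ ⟨by linarith, ht⟩
    · rw [hfg x hx hx']
      exact k2 x hx hx' _ ⟨by linarith, by linarith⟩

lemma mono {Y Y' : Set E} (H : Htpy X X' f g) (h : Y ⊆ X) (h' : Y ∩ Y' ⊆ X') :
    Htpy Y Y' f g := by
  obtain ⟨H, hc, h0, h1, h2⟩ := H
  exact ⟨H, hc.mono (prod_mono h le_rfl), fun x hx => h0 x (h hx), fun x hx => h1 x (h hx),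
    fun x hx hx' => h2 x (h hx) (h' ⟨hx, hx'⟩)⟩

lemma free (H : Htpy X X' f g) : Htpy X ∅ f g := H.mono le_rfl (by simp)

lemma congr {f' g' : E → Γ} (H : Htpy X X' f g) (hf : EqOn f f' X) (hg : EqOn g g' X) :
    Htpy X X' f' g' := by
  obtain ⟨H, hc, h0, h1, h2⟩ := H
  exact ⟨H, hc, fun x hx => (h0 x hx).trans (hf hx), fun x hx => (h1 x hx).trans (hg hx),
    fun x hx hx' t ht => (h2 x hx hx' t ht).trans (hf hx)⟩

lemma pull {Y Y' : Set E'} {φ : E' → E} (H : Htpy X X' f g) (hφ : ContinuousOn φ Y)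
    (hm : MapsTo φ Y X) (hm' : ∀ y ∈ Y, y ∈ Y' → φ y ∈ X') :
    Htpy Y Y' (fun y => f (φ y)) (fun y => g (φ y)) := by
  obtain ⟨H, hc, h0, h1, h2⟩ := H
  refine ⟨fun p => H (φ p.1, p.2), hc.comp ?_ ?_, fun y hy => h0 _ (hm hy),
    fun y hy => h1 _ (hm hy), fun y hy hy' t ht => h2 _ (hm hy) (hm' y hy hy') t ht⟩
  · exact (hφ.comp continuousOn_fst (fun _ hp => hp.1)).prodMk continuousOn_snd
  · rintro ⟨y, t⟩ ⟨hy, ht⟩
    exact ⟨hm hy, ht⟩

lemma push {F : Γ → Γ'} (H : Htpy X X' f g) (hF : Continuous F) :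
    Htpy X X' (fun x => F (f x)) (fun x => F (g x)) := by
  obtain ⟨H, hc, h0, h1, h2⟩ := H
  exact ⟨fun p => F (H p), hF.comp_continuousOn hc, fun x hx => by simp [h0 x hx],
    fun x hx => by simp [h1 x hx], fun x hx hx' t ht => by simp [h2 x hx hx' t ht]⟩

lemma prodMk {f' g' : E → Γ'} (H : Htpy X X' f g) (K : Htpy X X' f' g') :
    Htpy X X' (fun x => (f x, f' x)) (fun x => (g x, g' x)) := by
  obtain ⟨H, hc, h0, h1, h2⟩ := H
  obtain ⟨K, kc, k0, k1, k2⟩ := K
  exact ⟨fun p => (H p, K p), hc.prodMk kc, fun x hx => by simp [h0 x hx, k0 x hx],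
    fun x hx => by simp [h1 x hx, k1 x hx],
    fun x hx hx' t ht => by simp [h2 x hx hx' t ht, k2 x hx hx' t ht]⟩

/-- Straight-line homotopy composed with a function. -/
lemma line {F : Type*} [AddCommGroup F] [Module ℝ F] [TopologicalSpace F]
    [IsTopologicalAddGroup F] [ContinuousSMul ℝ F] {T : Set F} {G : F → Γ} (hG : ContinuousOn G T)
    {a b : E → F} (ha : ContinuousOn a X) (hb : ContinuousOn b X)
    (hT : ∀ x ∈ X, ∀ t ∈ Icc (0 : ℝ) 1, (1 - t) • a x + t • b x ∈ T)
    (h' : ∀ x ∈ X, x ∈ X' → ∀ t ∈ Icc (0 : ℝ) 1, G ((1 - t) • a x + t • b x) = G (a x)) :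
    Htpy X X' (fun x => G (a x)) (fun x => G (b x)) := by
  refine ⟨fun p => G ((1 - p.2) • a p.1 + p.2 • b p.1), hG.comp ?_ ?_, ?_, ?_, h'⟩
  · have h1 : ContinuousOn (fun p : E × ℝ => a p.1) (X ×ˢ Icc 0 1) :=
      ha.comp continuousOn_fst (fun _ hp => hp.1)
    have h2 : ContinuousOn (fun p : E × ℝ => b p.1) (X ×ˢ Icc 0 1) :=
      hb.comp continuousOn_fst (fun _ hp => hp.1)
    exact ((continuousOn_const.sub continuousOn_snd).smul h1).add (continuousOn_snd.smul h2)
  · rintro ⟨x, t⟩ ⟨hx, ht⟩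
    exact hT x hx t ht
  · intro x _; simp
  · intro x _; simp

section monoid

variable [Monoid Γ] [ContinuousMul Γ]

lemma mul {f' g' : E → Γ} (H : Htpy X X' f g) (K : Htpy X X' f' g') :
    Htpy X X' (f * f') (g * g') :=
  (H.prodMk K).push (F := fun p : Γ × Γ => p.1 * p.2) continuous_mul

lemma pow (H : Htpy X X' f g) (n : ℕ) : Htpy X X' (f ^ n) (g ^ n) :=
  H.push (F := fun a : Γ => a ^ n) (continuous_pow n)

end monoid

end Htpy

section groups

variable [Monoid Γ] [ContinuousMul Γ]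

/-- Functions continuous on `X` and trivial on `X ∩ X'`. -/
def Maps (Γ : Type*) [TopologicalSpace Γ] [Monoid Γ] [ContinuousMul Γ] (X X' : Set E) :
    Submonoid (E → Γ) where
  carrier := {f | ContinuousOn f X ∧ ∀ x ∈ X, x ∈ X' → f x = 1}
  mul_mem' := fun {f g} hf hg => ⟨hf.1.mul hg.1, fun x hx hx' => by
    simp [hf.2 x hx hx', hg.2 x hx hx']⟩
  one_mem' := ⟨continuousOn_const, fun _ _ _ => rfl⟩

lemma mem_Maps {X X' : Set E} {f : E → Γ} :
    f ∈ Maps Γ X X' ↔ ContinuousOn f X ∧ ∀ x ∈ X, x ∈ X' → f x = 1 := Iff.rfl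

lemma Maps.pull {X X' : Set E} {Y Y' : Set E'} {f : E → Γ} (hf : f ∈ Maps Γ X X') {φ : E' → E}
    (hφ : ContinuousOn φ Y) (hm : MapsTo φ Y X) (hm' : ∀ y ∈ Y, y ∈ Y' → φ y ∈ X') :
    (fun y => f (φ y)) ∈ Maps Γ Y Y' :=
  ⟨hf.1.comp hφ hm, fun y hy hy' => hf.2 _ (hm hy) (hm' y hy hy')⟩

/-- Relative homotopy as a congruence. -/
def hcon (Γ : Type*) [TopologicalSpace Γ] [Monoid Γ] [ContinuousMul Γ] (X X' : Set E) :
    Con (Maps Γ X X') where
  r f g := Htpy X X' f.1 g.1
  iseqv := ⟨fun f => Htpy.refl f.2.1, Htpy.symm, Htpy.trans⟩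
  mul' := Htpy.mul

/-- Relative homotopy classes. -/
def HG (Γ : Type*) [TopologicalSpace Γ] [Monoid Γ] [ContinuousMul Γ] (X X' : Set E) : Type _ :=
  (hcon Γ X X').Quotient

instance (X X' : Set E) : Monoid (HG Γ X X') :=
  inferInstanceAs (Monoid (hcon Γ X X').Quotient)

open Classical in
/-- The class of a function. -/
noncomputable def cls (X X' : Set E) (f : E → Γ) : HG Γ X X' :=
  if h : f ∈ Maps Γ X X' then (hcon Γ X X').mk' ⟨f, h⟩ else 1

variable {X X' : Set E} {f g : E → Γ}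

lemma cls_of_mem (h : f ∈ Maps Γ X X') : cls X X' f = (hcon Γ X X').mk' ⟨f, h⟩ := dif_pos h

lemma cls_mul (hf : f ∈ Maps Γ X X') (hg : g ∈ Maps Γ X X') :
    cls X X' (f * g) = cls X X' f * cls X X' g := by
  rw [cls_of_mem hf, cls_of_mem hg, cls_of_mem (mul_mem hf hg)]
  exact map_mul (hcon Γ X X').mk' ⟨f, hf⟩ ⟨g, hg⟩

lemma cls_one : cls X X' (1 : E → Γ) = 1 := by
  rw [cls_of_mem (one_mem _)]
  exact map_one (hcon Γ X X').mk'

lemma cls_pow (hf : f ∈ Maps Γ X X') (n : ℕ) : cls X X' (f ^ n) = cls X X' f ^ n := by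
  induction n with
  | zero => simp [cls_one]
  | succ n ih => rw [pow_succ, pow_succ, cls_mul (pow_mem hf n) hf, ih]

lemma cls_eq_iff (hf : f ∈ Maps Γ X X') (hg : g ∈ Maps Γ X X') :
    cls X X' f = cls X X' g ↔ Htpy X X' f g := by
  rw [cls_of_mem hf, cls_of_mem hg]
  exact Con.eq (hcon Γ X X')

lemma cls_eq_one_iff (hf : f ∈ Maps Γ X X') : cls X X' f = 1 ↔ Htpy X X' f 1 := by
  rw [← cls_one, cls_eq_iff hf (one_mem _)]

lemma cls_congr (hf : f ∈ Maps Γ X X') (h : EqOn f g X) : cls X X' f = cls X X' g := by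
  have hg : g ∈ Maps Γ X X' := ⟨hf.1.congr h.symm, fun x hx hx' => (h hx).symm.trans (hf.2 x hx hx')⟩
  exact (cls_eq_iff hf hg).2 (Htpy.of_eqOn hf.1 h)

lemma cls_eq_one_of_eqOn (h : EqOn f 1 X) : cls X X' f = 1 := by
  rw [← cls_one]
  exact (cls_congr (one_mem _) h.symm).symm

lemma exists_cls (α : HG Γ X X') : ∃ f ∈ Maps Γ X X', cls X X' f = α := by
  obtain ⟨⟨f, hf⟩, rfl⟩ := (hcon Γ X X').mk'_surjective α
  exact ⟨f, hf, cls_of_mem hf⟩

variable [HInv Γ]

lemma Maps.inv_mem (hf : f ∈ Maps Γ X X') : (fun x => HInv.inv (f x)) ∈ Maps Γ X X' :=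
  ⟨HInv.continuous_inv.comp_continuousOn hf.1, fun x hx hx' => by
    simp only [hf.2 x hx hx', HInv.inv_one]⟩

lemma htpy_mul_inv (hf : f ∈ Maps Γ X X') : Htpy X X' (f * fun x => HInv.inv (f x)) 1 := by
  refine ⟨fun p => HInv.contr (f p.1, p.2), HInv.continuous_contr.comp_continuousOn
    ((hf.1.comp continuousOn_fst (fun _ hp => hp.1)).prodMk continuousOn_snd), ?_, ?_, ?_⟩
  · intro x _; simp [HInv.contr_zero]
  · intro x _; simp [HInv.contr_one]
  · intro x hx hx' t _
    simp [hf.2 x hx hx', HInv.contr_unit, HInv.inv_one]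

lemma cls_mul_inv (hf : f ∈ Maps Γ X X') :
    cls X X' f * cls X X' (fun x => HInv.inv (f x)) = 1 := by
  rw [← cls_mul hf (Maps.inv_mem hf), cls_eq_one_iff (mul_mem hf (Maps.inv_mem hf))]
  exact htpy_mul_inv hf

lemma HG.exists_right_inv (α : HG Γ X X') : ∃ β, α * β = 1 := by
  obtain ⟨f, hf, rfl⟩ := exists_cls α
  exact ⟨_, cls_mul_inv hf⟩

lemma HG.isUnit (α : HG Γ X X') : IsUnit α := by
  obtain ⟨β, hβ⟩ := HG.exists_right_inv α
  obtain ⟨γ, hγ⟩ := HG.exists_right_inv β
  have : γ = α := by rw [← one_mul γ, ← hβ, mul_assoc, hγ, mul_one]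
  rw [this] at hγ
  exact ⟨⟨α, β, hβ, hγ⟩, rfl⟩

noncomputable instance (X X' : Set E) : Group (HG Γ X X') := groupOfIsUnit HG.isUnit

lemma cls_inv (hf : f ∈ Maps Γ X X') :
    cls X X' (fun x => HInv.inv (f x)) = (cls X X' f)⁻¹ :=
  eq_inv_of_mul_eq_one_right (cls_mul_inv hf)

end groups

end Pool.Agent.Work.MP_653b6e_gt
end

-- merged part: Pool.Agent.Work.MP_653b6e_gt.Complex
section
/-! Realisations of finite complexes, gluing, homotopy extension, horn lemma. -/

namespace Pool.Agent.Work.MP_653b6e_gt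

open Set Topology

variable {W W' W'' : Type*} [Fintype W] [Fintype W'] [Fintype W'']

/-- Support of a vector. -/
noncomputable def supp (x : W → ℝ) : Finset W := Finset.univ.filter (fun w => x w ≠ 0)

lemma mem_supp {x : W → ℝ} {w : W} : w ∈ supp x ↔ x w ≠ 0 := by simp [supp]

/-- Points of the standard simplex whose support lies in `L`. -/
def Rz (L : Set (Finset W)) : Set (W → ℝ) := {x | x ∈ stdSimplex ℝ W ∧ supp x ∈ L}

/-- Faces with at most `n` vertices. -/
def Sk (L : Set (Finset W)) (n : ℕ) : Set (Finset W) := {A | A ∈ L ∧ A.card ≤ n}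

omit [Fintype W] in
lemma Sk.lower {L : Set (Finset W)} (hL : IsLowerSet L) (n : ℕ) : IsLowerSet (Sk L n) :=
  fun _ _ hBA hA => ⟨hL hBA hA.1, (Finset.card_le_card hBA).trans hA.2⟩

lemma Rz_mono {L L' : Set (Finset W)} (h : L ⊆ L') : Rz L ⊆ Rz L' :=
  fun _ hx => ⟨hx.1, h hx.2⟩

lemma Rz_subset_std {L : Set (Finset W)} : Rz L ⊆ stdSimplex ℝ W := fun _ hx => hx.1

lemma Rz_Iic_subset {L : Set (Finset W)} (hL : IsLowerSet L) {A : Finset W} (hA : A ∈ L) :
    Rz (Iic A) ⊆ Rz L := Rz_mono (fun _ hB => hL hB hA)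

lemma supp_nonempty {x : W → ℝ} (hx : x ∈ stdSimplex ℝ W) : (supp x).Nonempty := by
  by_contra h
  rw [Finset.not_nonempty_iff_eq_empty] at h
  have : ∀ w, x w = 0 := fun w => by
    by_contra hw
    have := mem_supp.2 hw
    simp [h] at this
  have h1 := hx.2
  simp [this] at h1

lemma supp_single [DecidableEq W] (w : W) : supp (Pi.single w (1 : ℝ) : W → ℝ) = {w} := by
  ext v
  rw [mem_supp]
  by_cases h : v = w
  · subst h; simp
  · simp [h]

lemma single_mem_Rz [DecidableEq W] {L : Set (Finset W)} {w : W} (h : {w} ∈ L) :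
    (Pi.single w (1 : ℝ) : W → ℝ) ∈ Rz L :=
  ⟨single_mem_stdSimplex ℝ w, by rwa [supp_single]⟩

lemma line_mem_Rz {L : Set (Finset W)} (hL : IsLowerSet L) {A : Finset W} (hA : A ∈ L)
    {x y : W → ℝ} (hx : x ∈ stdSimplex ℝ W) (hy : y ∈ stdSimplex ℝ W) (hxA : supp x ⊆ A)
    (hyA : supp y ⊆ A) {t : ℝ} (ht : t ∈ Icc (0 : ℝ) 1) : (1 - t) • x + t • y ∈ Rz L := by
  refine ⟨convex_stdSimplex ℝ W hx hy (by linarith [ht.2]) ht.1 (by ring), hL ?_ hA⟩
  intro w hw
  rw [mem_supp] at hw
  by_contra hwA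
  have h1 : x w = 0 := by
    by_contra h; exact hwA (hxA (mem_supp.2 h))
  have h2 : y w = 0 := by
    by_contra h; exact hwA (hyA (mem_supp.2 h))
  simp [h1, h2] at hw

/-- Push-forward along a map of vertices. -/
noncomputable def pm (φ : W → W') : (W → ℝ) →ₗ[ℝ] (W' → ℝ) := FunOnFinite.linearMap ℝ ℝ φ

lemma pm_apply [DecidableEq W'] (φ : W → W') (x : W → ℝ) (w : W') :
    pm φ x w = ∑ v with φ v = w, x v := FunOnFinite.linearMap_apply_apply ℝ ℝ φ x w

lemma continuous_pm (φ : W → W') : Continuous (pm φ) := FunOnFinite.continuous_linearMap ℝ ℝ φ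

lemma pm_mem_std (φ : W → W') {x : W → ℝ} (hx : x ∈ stdSimplex ℝ W) :
    pm φ x ∈ stdSimplex ℝ W' := stdSimplex.image_linearMap φ ⟨x, hx, rfl⟩

lemma pm_pm (φ : W → W') (ψ : W' → W'') (x : W → ℝ) : pm ψ (pm φ x) = pm (ψ ∘ φ) x := by
  simp [pm, FunOnFinite.linearMap_comp]

lemma pm_id (x : W → ℝ) : pm id x = x := by simp [pm]

lemma pm_single [DecidableEq W] [DecidableEq W'] (φ : W → W') (w : W) :
    pm φ (Pi.single w 1) = Pi.single (φ w) 1 := FunOnFinite.linearMap_piSingle ℝ ℝ φ w 1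

lemma pm_congr {φ φ' : W → W'} {x : W → ℝ} (h : ∀ w ∈ supp x, φ w = φ' w) :
    pm φ x = pm φ' x := by
  classical
  ext w
  simp only [pm_apply, Finset.sum_filter]
  refine Finset.sum_congr rfl (fun v _ => ?_)
  by_cases hv : x v = 0
  · simp [hv]
  · rw [h v (mem_supp.2 hv)]

lemma supp_pm [DecidableEq W'] (φ : W → W') {x : W → ℝ} (hx : ∀ w, 0 ≤ x w) :
    supp (pm φ x) = (supp x).image φ := by
  ext w
  rw [mem_supp, pm_apply, Ne, Finset.sum_eq_zero_iff_of_nonneg (fun v _ => hx v)]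
  simp only [Finset.mem_filter, Finset.mem_univ, true_and, not_forall, Finset.mem_image, mem_supp]
  constructor
  · rintro ⟨v, h1, h2⟩; exact ⟨v, h2, h1⟩
  · rintro ⟨v, h1, h2⟩; exact ⟨v, h2, h1⟩

lemma mapsTo_pm [DecidableEq W'] {φ : W → W'} {L : Set (Finset W)} {L' : Set (Finset W')}
    (h : ∀ A ∈ L, A.image φ ∈ L') : MapsTo (pm φ) (Rz L) (Rz L') :=
  fun _ hx => ⟨pm_mem_std φ hx.1, by rw [supp_pm φ hx.1.1]; exact h _ hx.2⟩

lemma mem_Rz_Iic {A : Finset W} {x : W → ℝ} :
    x ∈ Rz (Iic A) ↔ x ∈ stdSimplex ℝ W ∧ ∀ w, w ∉ A → x w = 0 := by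
  refine and_congr_right (fun _ => ?_)
  constructor
  · intro h w hw
    by_contra h'
    exact hw (h (mem_supp.2 h'))
  · intro h w hw
    by_contra h'
    exact mem_supp.1 hw (h w h')

lemma isClosed_Rz_Iic (A : Finset W) : IsClosed (Rz (Iic A)) := by
  have : Rz (Iic A) = stdSimplex ℝ W ∩ ⋂ w ∈ {w | w ∉ A}, {x : W → ℝ | x w = 0} := by
    ext x; rw [mem_Rz_Iic]; simp
  rw [this]
  exact (isClosed_stdSimplex ℝ W).inter
    (isClosed_biInter (fun w _ => isClosed_eq (continuous_apply w) continuous_const))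

variable {Γ : Type*} [TopologicalSpace Γ]

lemma contOn_glue {P : Type*} [TopologicalSpace P] {L : Set (Finset W)} {T : Set P}
    (hT : IsClosed T) {f : (W → ℝ) × P → Γ}
    (h : ∀ A ∈ L, ContinuousOn f (Rz (Iic A) ×ˢ T)) : ContinuousOn f (Rz L ×ˢ T) := by
  have := (locallyFinite_of_finite (fun A : L => Rz (Iic A.1) ×ˢ T)).continuousOn_iUnion
    (fun A => (isClosed_Rz_Iic A.1).prod hT) (fun A => h A.1 A.2)
  refine this.mono ?_
  rintro ⟨x, t⟩ ⟨hx, ht⟩
  exact mem_iUnion.2 ⟨⟨supp x, hx.2⟩, ⟨hx.1, le_refl (supp x)⟩, ht⟩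

/-- Null-homotopies on top faces glue. -/
lemma glue_null {L : Set (Finset W)} (hL : IsLowerSet L) {n : ℕ} (hn : ∀ A ∈ L, A.card ≤ n + 1)
    {g : (W → ℝ) → Γ} {c : Γ} (hg : ∀ x ∈ Rz (Sk L n), g x = c)
    (h : ∀ σ ∈ L, σ.card = n + 1 → Htpy (Rz (Iic σ)) (Rz (Iio σ)) g (fun _ => c)) :
    Htpy (Rz L) (Rz (Sk L n)) g (fun _ => c) := by
  classical
  have : Inhabited Γ := ⟨c⟩
  choose! H hc h0 h1 h2 using h
  have hsmall : ∀ σ ∈ L, σ.card = n + 1 → ∀ x ∈ Rz (Iic σ), (supp x).card ≠ n + 1 →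
      x ∈ Rz (Iio σ) ∧ x ∈ Rz (Sk L n) := by
    intro σ hσ hcard x hx hne
    have h3 : (supp x).card ≤ n + 1 := hcard ▸ Finset.card_le_card hx.2
    refine ⟨⟨hx.1, mem_Iio.2 (lt_of_le_of_ne hx.2 ?_)⟩, hx.1, hL hx.2 hσ, by omega⟩
    intro h4
    exact hne (h4 ▸ hcard)
  have hbig : ∀ σ : Finset W, σ.card = n + 1 → ∀ x ∈ Rz (Iic σ), (supp x).card = n + 1 →
      supp x = σ := fun σ hcard x hx he =>
    Finset.eq_of_subset_of_card_le hx.2 (by omega)
  refine ⟨fun p => if (supp p.1).card = n + 1 then H (supp p.1) p else c, ?_, ?_, ?_, ?_⟩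
  · refine contOn_glue isClosed_Icc (fun A hA => ?_)
    by_cases hcard : A.card = n + 1
    · refine (hc A hA hcard).congr ?_
      rintro ⟨x, t⟩ ⟨hx, ht⟩
      simp only at hx ht ⊢
      split_ifs with h3
      · rw [hbig A hcard x hx h3]
      · obtain ⟨h4, h5⟩ := hsmall A hA hcard x hx h3
        rw [h2 A hA hcard x hx h4 t ht, hg x h5]
    · refine (continuousOn_const (c := c)).congr ?_
      rintro ⟨x, t⟩ ⟨hx, -⟩
      have h3 : (supp x).card ≤ A.card := Finset.card_le_card hx.2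
      have h4 := hn A hA
      simp only
      rw [if_neg (by omega)]
  · intro x hx
    simp only
    split_ifs with h3
    · exact h0 _ hx.2 h3 x ⟨hx.1, le_refl (supp x)⟩
    · have := hn _ hx.2
      exact (hg x ⟨hx.1, hx.2, by omega⟩).symm
  · intro x hx
    simp only
    split_ifs with h3
    · exact h1 _ hx.2 h3 x ⟨hx.1, le_refl (supp x)⟩
    · rfl
  · intro x _ hx' t _
    have := hx'.2.2
    simp only
    rw [if_neg (by omega), hg x hx']

section shrink

/-- The threshold used for shrinking. -/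
noncomputable def eps (W : Type*) [Fintype W] : ℝ := 1 / (Fintype.card W + 1)

lemma eps_pos : 0 < eps W := by unfold eps; positivity

lemma eps_le_one : eps W ≤ 1 := by
  unfold eps
  rw [div_le_one (by positivity)]
  have : (0 : ℝ) ≤ Fintype.card W := by positivity
  linarith

lemma exists_gt_eps {x : W → ℝ} (hx : x ∈ stdSimplex ℝ W) : ∃ w, eps W < x w := by
  by_contra h
  push Not at h
  have h1 : ∑ w, x w ≤ ∑ _w : W, eps W := Finset.sum_le_sum (fun w _ => h w)
  rw [hx.2] at h1
  simp only [Finset.sum_const, Finset.card_univ, nsmul_eq_mul, eps] at h1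
  rw [mul_one_div, le_div_iff₀ (by positivity)] at h1
  linarith

/-- Normalise a nonnegative vector. -/
noncomputable def nrm (y : W → ℝ) : W → ℝ := (∑ w, y w)⁻¹ • y

lemma sum_pos_of {y : W → ℝ} (h0 : ∀ w, 0 ≤ y w) (h1 : ∃ w, y w ≠ 0) : 0 < ∑ w, y w := by
  obtain ⟨w, hw⟩ := h1
  exact Finset.sum_pos' (fun v _ => h0 v) ⟨w, Finset.mem_univ _, lt_of_le_of_ne (h0 w) hw.symm⟩

lemma nrm_mem_std {y : W → ℝ} (h0 : ∀ w, 0 ≤ y w) (h1 : ∃ w, y w ≠ 0) :
    nrm y ∈ stdSimplex ℝ W := by
  have := sum_pos_of h0 h1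
  refine ⟨fun w => mul_nonneg (inv_nonneg.2 this.le) (h0 w), ?_⟩
  simp only [nrm, Pi.smul_apply, smul_eq_mul]
  rw [← Finset.mul_sum, inv_mul_cancel₀ this.ne']

lemma supp_nrm {y : W → ℝ} (h0 : ∀ w, 0 ≤ y w) (h1 : ∃ w, y w ≠ 0) : supp (nrm y) = supp y := by
  have := sum_pos_of h0 h1
  ext w
  simp [mem_supp, nrm, this.ne']

lemma contOn_nrm {P : Type*} [TopologicalSpace P] {s : Set P} {y : P → W → ℝ}
    (hy : ContinuousOn y s) (h0 : ∀ p ∈ s, ∀ w, 0 ≤ y p w) (h1 : ∀ p ∈ s, ∃ w, y p w ≠ 0) :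
    ContinuousOn (fun p => nrm (y p)) s := by
  refine ContinuousOn.smul (f := fun p => (∑ w, y p w)⁻¹)
    (ContinuousOn.inv₀ (f := fun p => ∑ w, y p w) ?_ ?_) hy
  · exact continuousOn_finsetSum _ (fun w _ => (continuous_apply w).comp_continuousOn hy)
  · exact fun p hp => (sum_pos_of (h0 p hp) (h1 p hp)).ne'

/-- Shrink towards faces. -/
noncomputable def shrink (x : W → ℝ) : W → ℝ := nrm (fun w => max (x w - eps W) 0)

lemma shrink_aux {x : W → ℝ} (hx : x ∈ stdSimplex ℝ W) : ∃ w, max (x w - eps W) 0 ≠ 0 := by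
  obtain ⟨w, hw⟩ := exists_gt_eps hx
  exact ⟨w, (lt_max_of_lt_left (by linarith)).ne'⟩

lemma shrink_mem_std {x : W → ℝ} (hx : x ∈ stdSimplex ℝ W) : shrink x ∈ stdSimplex ℝ W :=
  nrm_mem_std (fun _ => le_max_right _ _) (shrink_aux hx)

lemma mem_supp_shrink {x : W → ℝ} (hx : x ∈ stdSimplex ℝ W) {w : W} :
    w ∈ supp (shrink x) ↔ eps W < x w := by
  rw [shrink, supp_nrm (fun _ => le_max_right _ _) (shrink_aux hx), mem_supp]
  simp

lemma supp_shrink_subset {x : W → ℝ} (hx : x ∈ stdSimplex ℝ W) : supp (shrink x) ⊆ supp x := by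
  intro w hw
  rw [mem_supp_shrink hx] at hw
  exact mem_supp.2 (eps_pos.trans hw).ne'

lemma contOn_shrink : ContinuousOn (shrink (W := W)) (stdSimplex ℝ W) :=
  contOn_nrm (y := fun (x : W → ℝ) w => max (x w - eps W) 0) (by fun_prop)
    (fun _ _ _ => le_max_right _ _) (fun _ hx => shrink_aux hx)

lemma shrink_mem_Rz {L : Set (Finset W)} (hL : IsLowerSet L) {x : W → ℝ} (hx : x ∈ Rz L) :
    shrink x ∈ Rz L := ⟨shrink_mem_std hx.1, hL (supp_shrink_subset hx.1) hx.2⟩

end shrink

/-- Homotopy extension for null-homotopies on a subcomplex. -/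
lemma hep {L L' : Set (Finset W)} (hL : IsLowerSet L) (hL' : IsLowerSet L')
    {g : (W → ℝ) → Γ} (hg : ContinuousOn g (Rz L)) {c : Γ}
    (h : Htpy (Rz L') ∅ g (fun _ => c)) :
    ∃ g' : (W → ℝ) → Γ, (∀ x ∈ Rz L', g' x = c) ∧ Htpy (Rz L) ∅ g g' := by
  classical
  obtain ⟨H, hc, h0, h1, -⟩ := h
  set e : (W → ℝ) → ℝ := fun x => ∑ B ∈ Finset.univ.filter (fun B : Finset W => B ∉ L'),
    ∏ w ∈ B, x w with he
  set δ : ℝ := eps W ^ Fintype.card W with hδ
  have hδ0 : 0 < δ := pow_pos eps_pos _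
  have hec : Continuous e := by
    refine continuous_finsetSum _ (fun B _ => continuous_finsetProd _ (fun w _ => ?_))
    exact continuous_apply w
  have he0 : ∀ x ∈ stdSimplex ℝ W, 0 ≤ e x := fun x hx =>
    Finset.sum_nonneg (fun B _ => Finset.prod_nonneg (fun w _ => hx.1 w))
  have heL : ∀ x ∈ Rz L', e x = 0 := by
    intro x hx
    refine Finset.sum_eq_zero (fun B hB => ?_)
    by_contra hne
    rw [← Ne, Finset.prod_ne_zero_iff] at hne
    exact (Finset.mem_filter.1 hB).2 (hL' (fun w hw => mem_supp.2 (hne w hw)) hx.2)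
  have hsm : ∀ x ∈ stdSimplex ℝ W, e x ≤ δ → shrink x ∈ Rz L' := by
    intro x hx hle
    refine ⟨shrink_mem_std hx, ?_⟩
    by_contra hB
    have h2 : ∏ w ∈ supp (shrink x), x w ≤ e x :=
      Finset.single_le_sum (f := fun B : Finset W => ∏ w ∈ B, x w)
        (fun B _ => Finset.prod_nonneg (fun w _ => hx.1 w))
        (Finset.mem_filter.2 ⟨Finset.mem_univ _, hB⟩)
    have h3 : ∏ _w ∈ supp (shrink x), eps W < ∏ w ∈ supp (shrink x), x w :=
      Finset.prod_lt_prod_of_nonempty (fun _ _ => eps_pos)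
        (fun w hw => (mem_supp_shrink hx).1 hw) (supp_nonempty (shrink_mem_std hx))
    rw [Finset.prod_const] at h3
    have h4 : δ ≤ eps W ^ (supp (shrink x)).card :=
      pow_le_pow_of_le_one eps_pos.le eps_le_one (Finset.card_le_univ _)
    linarith
  have hsc : ContinuousOn shrink (Rz L) := contOn_shrink.mono Rz_subset_std
  have step1 : Htpy (Rz L) ∅ g (fun x => g (shrink x)) :=
    Htpy.line (a := fun x => x) hg continuousOn_id hsc
      (fun x hx t ht => line_mem_Rz hL hx.2 hx.1 (shrink_mem_std hx.1) le_rfl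
        (supp_shrink_subset hx.1) ht) (by simp)
  set K : (W → ℝ) × ℝ → Γ := fun p =>
    if e p.1 ≤ δ then H (shrink p.1, p.2 * (1 - e p.1 / δ)) else g (shrink p.1) with hK
  have hs1 : ContinuousOn (fun p : (W → ℝ) × ℝ => shrink p.1) (Rz L ×ˢ Icc 0 1) :=
    hsc.comp continuousOn_fst (fun _ hp => hp.1)
  refine ⟨fun x => K (x, 1), ?_, step1.trans ⟨K, ?_, ?_, fun _ _ => rfl, by simp⟩⟩
  · intro x hx
    simp only [hK, heL x hx, hδ0.le, if_true]
    simpa using h1 _ (shrink_mem_Rz hL' hx)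
  · refine contOn_ite_le (φ := fun p : (W → ℝ) × ℝ => e p.1) (ψ := fun _ => δ)
      (hec.comp continuous_fst).continuousOn continuousOn_const ?_ ?_ ?_
    · refine hc.comp ((hs1.mono inter_subset_left).prodMk ?_) ?_
      · exact (continuous_snd.mul (continuous_const.sub
          ((hec.comp continuous_fst).div_const δ))).continuousOn
      · rintro ⟨x, t⟩ ⟨⟨hx, ht0, ht1⟩, hle⟩
        simp only [mem_ofPred_eq] at hx ht0 ht1 hle
        have h2 : 0 ≤ e x / δ := div_nonneg (he0 x hx.1) hδ0.le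
        have h3 : e x / δ ≤ 1 := (div_le_one hδ0).2 hle
        refine ⟨hsm x hx.1 hle, mul_nonneg ht0 (by linarith), ?_⟩
        exact mul_le_one₀ ht1 (by linarith) (by linarith)
    · exact (hg.comp hs1 (fun p hp => shrink_mem_Rz hL hp.1)).mono inter_subset_left
    · rintro ⟨x, t⟩ ⟨hx, -⟩ heq
      simp only at hx heq ⊢
      rw [heq, div_self hδ0.ne', sub_self, mul_zero, h0 _ (hsm x hx.1 heq.le)]
  · intro x hx
    simp only [hK]
    split_ifs with hle
    · rw [zero_mul, h0 _ (hsm x hx.1 hle)]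
    · rfl

/-- The horn lemma. -/
lemma horn [DecidableEq W] {ρ : Finset W} {v0 : W} (hv0 : v0 ∈ ρ) {n : ℕ} (hρ : ρ.card = n + 2)
    {g : (W → ℝ) → Γ} (hg : ContinuousOn g (Rz (Iic ρ))) {c : Γ}
    (hc : ∀ x ∈ Rz (Sk (Iic ρ) n), g x = c)
    (h : ∀ v ∈ ρ, v ≠ v0 → Htpy (Rz (Iic (ρ.erase v))) (Rz (Iio (ρ.erase v))) g (fun _ => c)) :
    Htpy (Rz (Iic (ρ.erase v0))) (Rz (Iio (ρ.erase v0))) g (fun _ => c) := by
  set F := ρ.erase v0 with hF
  have hFc : F.card = n + 1 := by rw [hF, Finset.card_erase_of_mem hv0, hρ]; rfl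
  have hFn : F.Nonempty := Finset.card_pos.1 (by omega)
  have hv0F : v0 ∉ F := Finset.notMem_erase _ _
  set Λ : Set (Finset W) := {A | A ⊆ ρ ∧ ¬ F ⊆ A} with hΛ
  have hΛl : IsLowerSet Λ := fun A B hBA hA =>
    ⟨Finset.Subset.trans hBA hA.1, fun h' => hA.2 (Finset.Subset.trans h' hBA)⟩
  have hΛe : ∀ A ∈ Λ, ∃ v ∈ ρ, v ≠ v0 ∧ A ⊆ ρ.erase v := by
    intro A hA
    obtain ⟨v, hv, hvA⟩ := Finset.not_subset.1 hA.2
    exact ⟨v, Finset.mem_of_mem_erase hv, Finset.ne_of_mem_erase hv,
      Finset.subset_erase.2 ⟨hA.1, hvA⟩⟩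
  have hΛn : Htpy (Rz Λ) (Rz (Sk Λ n)) g (fun _ => c) := by
    refine glue_null hΛl ?_ ?_ ?_
    · intro A hA
      obtain ⟨v, hv, -, hAv⟩ := hΛe A hA
      have := Finset.card_le_card hAv
      rw [Finset.card_erase_of_mem hv, hρ] at this
      exact this
    · exact fun x hx => hc x ⟨hx.1, hx.2.1.1, hx.2.2⟩
    · intro σ hσ hcard
      obtain ⟨v, hv, hne, hAv⟩ := hΛe σ hσ
      have : σ = ρ.erase v := Finset.eq_of_subset_of_card_le hAv (by
        rw [Finset.card_erase_of_mem hv, hρ, hcard]; rfl)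
      rw [this]
      exact h v hv hne
  set μ : (W → ℝ) → ℝ := fun x => F.inf' hFn x with hμ
  have hμc : Continuous μ :=
    Continuous.finset_inf'_apply hFn (f := fun w (x : W → ℝ) => x w)
      (fun w _ => continuous_apply w)
  set p : (W → ℝ) → (W → ℝ) := fun x w =>
    if w ∈ F then x w - μ x else if w = v0 then (n + 1 : ℝ) * μ x else 0 with hp
  have hpc : Continuous p := by
    refine continuous_pi (fun w => ?_)
    simp only [hp]
    split_ifs
    · exact (continuous_apply w).sub hμc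
    · exact continuous_const.mul hμc
    · exact continuous_const
  have hμ0 : ∀ x ∈ stdSimplex ℝ W, 0 ≤ μ x := fun x hx =>
    Finset.le_inf' _ _ (fun w _ => hx.1 w)
  have hpstd : ∀ x ∈ Rz (Iic F), p x ∈ stdSimplex ℝ W := by
    intro x hx
    rw [mem_Rz_Iic] at hx
    refine ⟨fun w => ?_, ?_⟩
    · simp only [hp]
      split_ifs with h1 h2
      · exact sub_nonneg.2 (Finset.inf'_le _ h1)
      · exact mul_nonneg (by positivity) (hμ0 x hx.1)
      · exact le_rfl
    · have h1 : ∀ w, p x w = x w - (if w ∈ F then μ x else 0) +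
          (if w = v0 then (n + 1 : ℝ) * μ x else 0) := by
        intro w
        simp only [hp]
        by_cases h2 : w ∈ F
        · have : w ≠ v0 := fun h3 => hv0F (h3 ▸ h2)
          simp [h2, this]
        · simp [h2, hx.2 w h2]
      simp only [h1, Finset.sum_add_distrib, Finset.sum_sub_distrib, hx.1.2]
      simp [hFc]
  have hpρ : ∀ x, supp (p x) ⊆ ρ := by
    intro x w hw
    rw [mem_supp] at hw
    simp only [hp] at hw
    split_ifs at hw with h1 h2
    · exact Finset.mem_of_mem_erase h1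
    · exact h2 ▸ hv0
    · exact absurd rfl hw
  have hpΛ : MapsTo p (Rz (Iic F)) (Rz Λ) := by
    intro x hx
    refine ⟨hpstd x hx, hpρ x, fun hsub => ?_⟩
    obtain ⟨w, hw, hweq⟩ := Finset.exists_mem_eq_inf' hFn x
    have := mem_supp.1 (hsub hw)
    simp [hp, hw, hμ, hweq] at this
  have hpid : ∀ x ∈ Rz (Iio F), p x = x := by
    intro x hx
    obtain ⟨w, hwF, hwx⟩ := Finset.exists_of_ssubset hx.2
    have hx0 : x w = 0 := by
      by_contra h'; exact hwx (mem_supp.2 h')
    have hμx : μ x = 0 := le_antisymm (hx0 ▸ Finset.inf'_le _ hwF) (hμ0 x hx.1)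
    ext u
    simp only [hp, hμx, sub_zero, mul_zero, ite_self]
    split_ifs with h1
    · rfl
    · by_contra h'
      exact h1 ((mem_Iio.1 hx.2).le (mem_supp.2 (Ne.symm h')))
  have hFρ : F ⊆ ρ := Finset.erase_subset _ _
  have step1 : Htpy (Rz (Iic F)) (Rz (Iio F)) g (fun x => g (p x)) := by
    refine Htpy.line (a := fun x => x) hg continuousOn_id hpc.continuousOn ?_ ?_
    · exact fun x hx t ht => line_mem_Rz (isLowerSet_Iic ρ) (le_refl ρ) hx.1 (hpstd x hx)
        (Finset.Subset.trans hx.2 hFρ) (hpρ x) ht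
    · intro x _ hx' t _
      rw [hpid x hx']
      congr 1
      rw [← add_smul]; simp
  refine step1.trans (hΛn.pull hpc.continuousOn hpΛ ?_)
  intro x hx hx'
  have h1 := hpΛ hx
  rw [hpid x hx'] at h1 ⊢
  have h2 := Finset.card_lt_card hx'.2
  exact ⟨hx.1, h1.2, by omega⟩

end Pool.Agent.Work.MP_653b6e_gt
end

-- merged part: Pool.Agent.Work.MP_653b6e_gt.Theta
section
/-! Obstruction classes with values in the relative homotopy group of a simplex. -/

namespace Pool.Agent.Work.MP_653b6e_gt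

open Set Topology Function

variable {W : Type*} [Fintype W] [DecidableEq W] {ι : Type*} [Fintype ι] [DecidableEq ι]
variable {Γ : Type*} [TopologicalSpace Γ] [Monoid Γ] [ContinuousMul Γ]

/-- Maps of the simplex that are trivial on its boundary. -/
abbrev MapsS (Γ : Type*) [TopologicalSpace Γ] [Monoid Γ] [ContinuousMul Γ] (ι : Type*)
    [Fintype ι] : Submonoid ((ι → ℝ) → Γ) :=
  Maps Γ (Rz (Iic (Finset.univ : Finset ι))) (Rz (Iio (Finset.univ : Finset ι)))

/-- Their homotopy classes. -/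
abbrev PiG (Γ : Type*) [TopologicalSpace Γ] [Monoid Γ] [ContinuousMul Γ] (ι : Type*)
    [Fintype ι] : Type _ :=
  HG Γ (Rz (Iic (Finset.univ : Finset ι))) (Rz (Iio (Finset.univ : Finset ι)))

/-- The class of a map on a parametrised face. -/
noncomputable def theta (ψ : ι → W) (g : (W → ℝ) → Γ) : PiG Γ ι :=
  cls _ _ (fun x => g (pm ψ x))

omit [DecidableEq ι] in
lemma pull_mem {L : Set (Finset W)} (hL : IsLowerSet L) {m : ℕ} (hm : Fintype.card ι = m + 1)
    {ψ : ι → W} (hψ : Finset.univ.image ψ ∈ L) {g : (W → ℝ) → Γ}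
    (hg : g ∈ Maps Γ (Rz L) (Rz (Sk L m))) : (fun x => g (pm ψ x)) ∈ MapsS Γ ι := by
  have h1 : ∀ A : Finset ι, A.image ψ ∈ L := fun A =>
    hL (Finset.image_subset_image (Finset.subset_univ A)) hψ
  refine Maps.pull hg (continuous_pm ψ).continuousOn (mapsTo_pm (fun A _ => h1 A)) ?_
  intro y _ hy
  refine mapsTo_pm (L := Iio Finset.univ) (L' := Sk L m) (fun A hA => ⟨h1 A, ?_⟩) hy
  have h2 := Finset.card_lt_card (mem_Iio.1 hA)
  have h3 : (A.image ψ).card ≤ A.card := Finset.card_image_le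
  rw [Finset.card_univ] at h2
  omega

omit [DecidableEq ι] in
lemma theta_mul {L : Set (Finset W)} (hL : IsLowerSet L) {m : ℕ} (hm : Fintype.card ι = m + 1)
    {ψ : ι → W} (hψ : Finset.univ.image ψ ∈ L) {g g' : (W → ℝ) → Γ}
    (hg : g ∈ Maps Γ (Rz L) (Rz (Sk L m))) (hg' : g' ∈ Maps Γ (Rz L) (Rz (Sk L m))) :
    theta ψ (g * g') = theta ψ g * theta ψ g' :=
  cls_mul (pull_mem hL hm hψ hg) (pull_mem hL hm hψ hg')

omit [DecidableEq ι] in
lemma theta_pow {L : Set (Finset W)} (hL : IsLowerSet L) {m : ℕ} (hm : Fintype.card ι = m + 1)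
    {ψ : ι → W} (hψ : Finset.univ.image ψ ∈ L) {g : (W → ℝ) → Γ}
    (hg : g ∈ Maps Γ (Rz L) (Rz (Sk L m))) (d : ℕ) :
    theta ψ (g ^ d) = theta ψ g ^ d :=
  cls_pow (pull_mem hL hm hψ hg) d

lemma null_of_theta {L : Set (Finset W)} (hL : IsLowerSet L) {m : ℕ}
    (hm : Fintype.card ι = m + 1) {ψ : ι → W} (hinj : Injective ψ)
    (hψ : Finset.univ.image ψ ∈ L) {g : (W → ℝ) → Γ}
    (hg : g ∈ Maps Γ (Rz L) (Rz (Sk L m))) (h : theta ψ g = 1) :
    Htpy (Rz (Iic (Finset.univ.image ψ))) (Rz (Iio (Finset.univ.image ψ))) g (fun _ => 1) := by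
  have : Nonempty ι := Fintype.card_pos_iff.1 (by omega)
  have h1 := (cls_eq_one_iff (pull_mem hL hm hψ hg)).1 h
  have h2 := h1.pull (Y := Rz (Iic (Finset.univ.image ψ))) (Y' := Rz (Iio (Finset.univ.image ψ)))
    (continuous_pm (invFun ψ)).continuousOn (mapsTo_pm (fun A _ => Finset.subset_univ _)) (by
      intro y _ hy
      refine mapsTo_pm (L := Iio (Finset.univ.image ψ)) (fun A hA => ?_) hy
      have h2 := Finset.card_lt_card (mem_Iio.1 hA)
      have h3 : (A.image (invFun ψ)).card ≤ A.card := Finset.card_image_le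
      rw [Finset.card_image_of_injective _ hinj] at h2
      refine mem_Iio.2 (lt_of_le_of_ne (Finset.subset_univ _) (fun h4 => ?_))
      rw [h4] at h3
      omega)
  refine h2.congr (fun y hy => ?_) (fun _ _ => rfl)
  simp only
  rw [pm_pm, pm_congr (φ' := id), pm_id]
  intro w hw
  obtain ⟨i, -, rfl⟩ := Finset.mem_image.1 (hy.2 hw)
  simp [leftInverse_invFun hinj i]

omit [DecidableEq ι] in
lemma theta_of_null {L : Set (Finset W)} (hL : IsLowerSet L) {m : ℕ}
    (hm : Fintype.card ι = m + 1) {ψ : ι → W} (hinj : Injective ψ)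
    (hψ : Finset.univ.image ψ ∈ L) {g : (W → ℝ) → Γ}
    (hg : g ∈ Maps Γ (Rz L) (Rz (Sk L m)))
    (h : Htpy (Rz (Iic (Finset.univ.image ψ))) (Rz (Iio (Finset.univ.image ψ))) g (fun _ => 1)) :
    theta ψ g = 1 := by
  refine (cls_eq_one_iff (pull_mem hL hm hψ hg)).2 ?_
  refine h.pull (continuous_pm ψ).continuousOn
    (mapsTo_pm (fun A _ => Finset.image_subset_image (Finset.subset_univ A))) ?_
  intro y _ hy
  exact mapsTo_pm (L := Iio Finset.univ)
    (fun A hA => mem_Iio.2 ((Finset.image_ssubset_image hinj).2 (mem_Iio.1 hA))) hy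

omit [DecidableEq W] in
lemma collapse_mem {L : Set (Finset W)} {m : ℕ} (hm : Fintype.card ι = m + 1) (φ : W → ι)
    {a : (ι → ℝ) → Γ} (ha : a ∈ MapsS Γ ι) :
    (fun x => a (pm φ x)) ∈ Maps Γ (Rz L) (Rz (Sk L m)) := by
  refine Maps.pull ha (continuous_pm φ).continuousOn
    (mapsTo_pm (fun A _ => Finset.subset_univ _)) ?_
  intro y _ hy
  refine mapsTo_pm (L := Sk L m) (fun A hA => ?_) hy
  have h3 : (A.image φ).card ≤ A.card := Finset.card_image_le
  refine mem_Iio.2 (lt_of_le_of_ne (Finset.subset_univ _) (fun h4 => ?_))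
  rw [h4, Finset.card_univ] at h3
  have := hA.2
  omega

lemma null_of_mem_MapsS [Nontrivial ι] {a : (ι → ℝ) → Γ} (ha : a ∈ MapsS Γ ι) :
    Htpy (Rz (Iic (Finset.univ : Finset ι))) ∅ a 1 := by
  obtain ⟨i, j, hij⟩ := exists_pair_ne ι
  have h0 : (Pi.single i (1 : ℝ) : ι → ℝ) ∈ Rz (Iio (Finset.univ : Finset ι)) := by
    refine single_mem_Rz (mem_Iio.2 (lt_of_le_of_ne (Finset.subset_univ _) (fun h => ?_)))
    have : j ∈ ({i} : Finset ι) := h ▸ Finset.mem_univ j
    exact hij (Finset.mem_singleton.1 this).symm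
  have h1 := Htpy.line (X := Rz (Iic (Finset.univ : Finset ι))) (X' := ∅) (a := fun x => x)
    (b := fun _ => (Pi.single i (1 : ℝ) : ι → ℝ)) ha.1 continuousOn_id continuousOn_const
    (fun x hx t ht => line_mem_Rz (isLowerSet_Iic _) (le_refl Finset.univ) hx.1 h0.1
      (Finset.subset_univ _) (Finset.subset_univ _) ht) (by simp)
  exact h1.congr (fun _ _ => rfl) (fun _ _ => ha.2 _ ⟨h0.1, Finset.subset_univ _⟩ h0)

omit [DecidableEq W] in
lemma collapse_null [Nontrivial ι] {L : Set (Finset W)} (φ : W → ι)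
    {a : (ι → ℝ) → Γ} (ha : a ∈ MapsS Γ ι) : Htpy (Rz L) ∅ (fun x => a (pm φ x)) 1 :=
  (null_of_mem_MapsS ha).pull (continuous_pm φ).continuousOn
    (mapsTo_pm (fun A _ => Finset.subset_univ _)) (by simp)

omit [DecidableEq W] [DecidableEq ι] in
lemma theta_collapse (φ : W → ι) (ψ : ι → W) (a : (ι → ℝ) → Γ) :
    theta ψ (fun x => a (pm φ x)) = theta (φ ∘ ψ) a := by
  simp only [theta, pm_pm]

omit [DecidableEq ι] in
lemma theta_id (a : (ι → ℝ) → Γ) : theta id a = cls _ _ a := by
  simp only [theta, pm_id]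

lemma theta_of_not_surj {f : ι → ι} (hf : ¬ Surjective f) {a : (ι → ℝ) → Γ}
    (ha : a ∈ MapsS Γ ι) : theta f a = 1 := by
  refine cls_eq_one_of_eqOn (fun x hx => ?_)
  refine ha.2 _ (mapsTo_pm (fun A _ => Finset.subset_univ _) hx)
    (mapsTo_pm (L := Iic Finset.univ) (fun A _ => ?_) hx)
  refine mem_Iio.2 (lt_of_le_of_ne (Finset.subset_univ _) (fun h => hf (fun j => ?_)))
  have : j ∈ A.image f := h ▸ Finset.mem_univ j
  obtain ⟨i, -, hi⟩ := Finset.mem_image.1 this
  exact ⟨i, hi⟩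

lemma self_pull_mem (f : ι → ι) {a : (ι → ℝ) → Γ} (ha : a ∈ MapsS Γ ι) :
    (fun x => a (pm f x)) ∈ MapsS Γ ι := by
  refine Maps.pull ha (continuous_pm f).continuousOn
    (mapsTo_pm (fun A _ => Finset.subset_univ _)) ?_
  intro y _ hy
  refine mapsTo_pm (L := Iio Finset.univ) (fun A hA => ?_) hy
  have h2 := Finset.card_lt_card (mem_Iio.1 hA)
  have h3 : (A.image f).card ≤ A.card := Finset.card_image_le
  refine mem_Iio.2 (lt_of_le_of_ne (Finset.subset_univ _) (fun h4 => ?_))
  rw [h4] at h3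
  omega

lemma horn_theta {ρ : Finset W} {v0 : W} (hv0 : v0 ∈ ρ) {m : ℕ} (hm : Fintype.card ι = m + 1)
    (hρ : ρ.card = m + 2) {ψ : W → ι → W}
    (hψ : ∀ v ∈ ρ, Injective (ψ v) ∧ Finset.univ.image (ψ v) = ρ.erase v)
    {g : (W → ℝ) → Γ} (hg : g ∈ Maps Γ (Rz (Iic ρ)) (Rz (Sk (Iic ρ) m)))
    (h : ∀ v ∈ ρ, v ≠ v0 → theta (ψ v) g = 1) : theta (ψ v0) g = 1 := by
  have hmem : ∀ v ∈ ρ, Finset.univ.image (ψ v) ∈ Iic ρ := fun v hv => by
    rw [(hψ v hv).2]; exact Finset.erase_subset _ _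
  refine theta_of_null (isLowerSet_Iic ρ) hm (hψ v0 hv0).1 (hmem v0 hv0) hg ?_
  rw [(hψ v0 hv0).2]
  refine horn hv0 hρ hg.1 (fun x hx => hg.2 x ⟨hx.1, hx.2.1⟩ hx) (fun v hv hne => ?_)
  rw [← (hψ v hv).2]
  exact null_of_theta (isLowerSet_Iic ρ) hm (hψ v hv).1 (hmem v hv) hg (h v hv hne)

/-- Parametrisation of the facets of the simplex on `Option ι`. -/
def facet : Option ι → ι → Option ι
  | none => some
  | some i => update some i none

omit [Fintype ι] in
lemma facet_some (i k : ι) : facet (some i) k = if k = i then none else some k := by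
  simp [facet, update_apply]

lemma facet_spec (v : Option ι) :
    Injective (facet v) ∧ Finset.univ.image (facet v) = (Finset.univ : Finset (Option ι)).erase v := by
  cases v with
  | none =>
    refine ⟨Option.some_injective ι, ?_⟩
    ext o
    cases o <;> simp [facet]
  | some i =>
    constructor
    · intro a b hab
      rw [facet_some, facet_some] at hab
      split_ifs at hab <;> simp_all
    · ext o
      simp only [Finset.mem_image, Finset.mem_univ, true_and, Finset.mem_erase, and_true,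
        facet_some]
      cases o with
      | none => simp
      | some k =>
        constructor
        · rintro ⟨a, ha⟩
          split_ifs at ha with h
          simp only [Option.some.injEq] at ha
          subst ha
          simpa using h
        · intro h
          exact ⟨k, by rw [if_neg (by simpa using h)]⟩

lemma horn_option {g : (Option ι → ℝ) → Γ} {m : ℕ} (hm : Fintype.card ι = m + 1)
    (hg : g ∈ Maps Γ (Rz (Iic (Finset.univ : Finset (Option ι))))
      (Rz (Sk (Iic Finset.univ) m)))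
    (h : ∀ i, theta (facet (some i)) g = 1) : theta some g = 1 := by
  refine horn_theta (ψ := facet) (v0 := none) (Finset.mem_univ _) hm (by simp [hm])
    (fun v _ => facet_spec v) hg ?_
  rintro (_ | i) - hne
  · exact absurd rfl hne
  · exact h i

variable [HInv Γ]

omit [DecidableEq W] in
lemma theta_inv (f : ι → ι) {a : (ι → ℝ) → Γ} (ha : a ∈ MapsS Γ ι) :
    theta f (fun x => HInv.inv (a x)) = (theta f a)⁻¹ := cls_inv (self_pull_mem f ha)

lemma PiG.mul_comm [Nontrivial ι] (α β : PiG Γ ι) : α * β = β * α := by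
  obtain ⟨m, hm⟩ : ∃ m, Fintype.card ι = m + 1 := ⟨Fintype.card ι - 1, by
    have := Fintype.card_pos (α := ι); omega⟩
  obtain ⟨a, ha, rfl⟩ := exists_cls α
  obtain ⟨b, hb, rfl⟩ := exists_cls β
  obtain ⟨i, j, hij⟩ := exists_pair_ne ι
  have hL := isLowerSet_Iic (Finset.univ : Finset (Option ι))
  have ha' := Maps.inv_mem ha
  have hb' := Maps.inv_mem hb
  have key : ∀ ψ : ι → Option ι,
      theta ψ ((fun x => a (pm (fun o : Option ι => o.getD i) x)) *
        (fun x => b (pm (fun o : Option ι => o.getD j) x)) *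
        (fun x => HInv.inv (a (pm (fun o : Option ι => o.getD i) x))) *
        (fun x => HInv.inv (b (pm (fun o : Option ι => o.getD j) x)))) =
      theta ((fun o : Option ι => o.getD i) ∘ ψ) a * theta ((fun o : Option ι => o.getD j) ∘ ψ) b *
      (theta ((fun o : Option ι => o.getD i) ∘ ψ) a)⁻¹ *
      (theta ((fun o : Option ι => o.getD j) ∘ ψ) b)⁻¹ := by
    intro ψ
    have h0 : Finset.univ.image ψ ∈ Iic (Finset.univ : Finset (Option ι)) := Finset.subset_univ _
    rw [theta_mul hL hm h0 (mul_mem (mul_mem (collapse_mem hm _ ha) (collapse_mem hm _ hb))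
        (collapse_mem hm _ ha')) (collapse_mem hm _ hb'),
      theta_mul hL hm h0 (mul_mem (collapse_mem hm _ ha) (collapse_mem hm _ hb))
        (collapse_mem hm _ ha'),
      theta_mul hL hm h0 (collapse_mem hm _ ha) (collapse_mem hm _ hb),
      theta_collapse, theta_collapse, theta_collapse _ _ (fun x => HInv.inv (a x)),
      theta_collapse _ _ (fun x => HInv.inv (b x)), theta_inv _ ha, theta_inv _ hb]
  have hns : ∀ i k : ι, k ≠ i →
      ¬ Surjective ((fun o : Option ι => o.getD i) ∘ facet (some k)) := by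
    intro i k hk hs
    obtain ⟨l, hl⟩ := hs k
    simp only [comp_apply, facet_some] at hl
    split_ifs at hl with h
    · exact hk hl.symm
    · exact h hl
  have h1 := horn_option hm (mul_mem (mul_mem (mul_mem (collapse_mem hm _ ha)
    (collapse_mem hm _ hb)) (collapse_mem hm _ ha')) (collapse_mem hm _ hb')) (fun k => by
      rw [key]
      by_cases hk : k = i
      · rw [theta_of_not_surj (hns j k (hk ▸ hij)) hb]; simp
      · rw [theta_of_not_surj (hns i k hk) ha]; simp)
  rw [key] at h1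
  have h2 : ∀ i : ι, (fun o : Option ι => o.getD i) ∘ some = id := fun i => rfl
  rw [h2, h2, theta_id, theta_id] at h1
  rw [← commutatorElement_eq_one_iff_mul_comm, commutatorElement_def]
  exact h1

lemma theta_swap {i j : ι} (hij : i ≠ j) {a : (ι → ℝ) → Γ} (ha : a ∈ MapsS Γ ι) :
    theta (Equiv.swap i j) a = (cls _ _ a)⁻¹ := by
  obtain ⟨m, hm⟩ : ∃ m, Fintype.card ι = m + 1 := ⟨Fintype.card ι - 1, by
    have : Nonempty ι := ⟨i⟩
    have := Fintype.card_pos (α := ι); omega⟩
  have hL := isLowerSet_Iic (Finset.univ : Finset (Option ι))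
  have ha' := Maps.inv_mem ha
  set φ1 : Option ι → ι := fun o => o.getD i with hφ1
  set φ2 : Option ι → ι := fun o => o.elim i (fun k => if k = i then j else k) with hφ2
  set φ3 : Option ι → ι := fun o => o.elim i (Equiv.swap i j) with hφ3
  have key : ∀ ψ : ι → Option ι,
      theta ψ ((fun x => a (pm φ1 x)) * (fun x => HInv.inv (a (pm φ2 x))) *
        (fun x => a (pm φ3 x))) =
      theta (φ1 ∘ ψ) a * (theta (φ2 ∘ ψ) a)⁻¹ * theta (φ3 ∘ ψ) a := by
    intro ψ
    have h0 : Finset.univ.image ψ ∈ Iic (Finset.univ : Finset (Option ι)) := Finset.subset_univ _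
    rw [theta_mul hL hm h0 (mul_mem (collapse_mem hm _ ha) (collapse_mem hm _ ha'))
        (collapse_mem hm _ ha),
      theta_mul hL hm h0 (collapse_mem hm _ ha) (collapse_mem hm _ ha'),
      theta_collapse, theta_collapse, theta_collapse _ _ (fun x => HInv.inv (a x)),
      theta_inv _ ha]
  have h1 := horn_option hm (mul_mem (mul_mem (collapse_mem hm φ1 ha)
    (collapse_mem hm φ2 ha')) (collapse_mem hm φ3 ha)) (fun k => by
      rw [key]
      by_cases hk : k = i
      · subst hk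
        have e1 : φ1 ∘ facet (some k) = φ2 ∘ facet (some k) := by
          ext l
          simp only [comp_apply, facet_some]
          split_ifs with h <;> simp [hφ1, hφ2, h]
        have e2 : ¬ Surjective (φ3 ∘ facet (some k)) := by
          intro hs
          obtain ⟨l, hl⟩ := hs j
          simp only [comp_apply, facet_some] at hl
          split_ifs at hl with h
          · exact hij hl
          · simp only [hφ3, Option.elim_some, Equiv.swap_apply_eq_iff, Equiv.swap_apply_right] at hl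
            exact h hl
        rw [e1, theta_of_not_surj e2 ha]; simp
      · have e1 : ¬ Surjective (φ1 ∘ facet (some k)) := by
          intro hs
          obtain ⟨l, hl⟩ := hs k
          simp only [comp_apply, facet_some] at hl
          split_ifs at hl with h
          · exact hk hl.symm
          · exact h hl
        rw [theta_of_not_surj e1 ha, one_mul]
        by_cases hk' : k = j
        · subst hk'
          have e2 : φ2 ∘ facet (some k) = φ3 ∘ facet (some k) := by
            ext l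
            simp only [comp_apply, facet_some]
            split_ifs with h
            · simp [hφ2, hφ3]
            · simp only [hφ2, hφ3, Option.elim_some, Equiv.swap_apply_def, h, if_false]
          rw [e2]; simp
        · have e2 : ¬ Surjective (φ2 ∘ facet (some k)) := by
            intro hs
            obtain ⟨l, hl⟩ := hs k
            simp only [comp_apply, facet_some] at hl
            split_ifs at hl with h
            · exact hk hl.symm
            · simp only [hφ2, Option.elim_some] at hl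
              split_ifs at hl
              · exact hk' hl.symm
              · exact h hl
          have e3 : ¬ Surjective (φ3 ∘ facet (some k)) := by
            intro hs
            obtain ⟨l, hl⟩ := hs k
            simp only [comp_apply, facet_some] at hl
            split_ifs at hl with h
            · exact hk hl.symm
            · simp only [hφ3, Option.elim_some, Equiv.swap_apply_eq_iff,
                Equiv.swap_apply_of_ne_of_ne hk hk'] at hl
              exact h hl
          rw [theta_of_not_surj e2 ha, theta_of_not_surj e3 ha]; simp)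
  rw [key] at h1
  have e1 : φ1 ∘ some = id := rfl
  have e2 : ¬ Surjective (φ2 ∘ some) := by
    intro hs
    obtain ⟨l, hl⟩ := hs i
    simp only [comp_apply, hφ2, Option.elim_some] at hl
    split_ifs at hl with h
    · exact hij hl.symm
    · exact h hl
  have e3 : φ3 ∘ some = Equiv.swap i j := rfl
  rw [e1, theta_of_not_surj e2 ha, e3, theta_id] at h1
  exact eq_inv_of_mul_eq_one_right (by simpa using h1)

lemma theta_perm (e : Equiv.Perm ι) : ∃ ε : ℤ, ε * ε = 1 ∧
    ∀ a ∈ MapsS Γ ι, theta e a = (cls _ _ a) ^ ε := by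
  induction e using Equiv.Perm.swap_induction_on with
  | one => exact ⟨1, rfl, fun a _ => by simpa using theta_id a⟩
  | swap_mul f x y hxy ih =>
    obtain ⟨ε, h1, h2⟩ := ih
    refine ⟨-ε, by simpa using h1, fun a ha => ?_⟩
    have h3 := h2 _ (self_pull_mem (Equiv.swap x y) ha)
    rw [theta_collapse] at h3
    rw [Equiv.Perm.coe_mul, h3]
    have h4 := theta_swap hxy ha
    rw [theta] at h4
    rw [h4]; simp

lemma exists_sgn (Γ : Type*) [TopologicalSpace Γ] [Monoid Γ] [ContinuousMul Γ] [HInv Γ]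
    (f : ι → ι) : ∃ ε : ℤ, (Bijective f → ε * ε = 1) ∧ (¬ Bijective f → ε = 0) ∧
      ∀ a ∈ MapsS Γ ι, theta f a = (cls _ _ a) ^ ε := by
  by_cases hf : Bijective f
  · obtain ⟨ε, h1, h2⟩ := theta_perm (Γ := Γ) (Equiv.ofBijective f hf)
    exact ⟨ε, fun _ => h1, fun h => absurd hf h, h2⟩
  · refine ⟨0, fun h => absurd h hf, fun _ => rfl, fun a ha => ?_⟩
    rw [theta_of_not_surj (fun h => hf (Finite.surjective_iff_bijective.1 h)) ha, zpow_zero]

/-- The sign by which a self-map of the vertex set acts. -/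
noncomputable def sgn (Γ : Type*) [TopologicalSpace Γ] [Monoid Γ] [ContinuousMul Γ] [HInv Γ]
    (f : ι → ι) : ℤ := (exists_sgn Γ f).choose

lemma sgn_sq {f : ι → ι} (hf : Bijective f) : sgn Γ f * sgn Γ f = 1 :=
  (exists_sgn Γ f).choose_spec.1 hf

lemma sgn_zero {f : ι → ι} (hf : ¬ Bijective f) : sgn Γ f = 0 :=
  (exists_sgn Γ f).choose_spec.2.1 hf

lemma theta_sgn (f : ι → ι) {a : (ι → ℝ) → Γ} (ha : a ∈ MapsS Γ ι) :
    theta f a = (cls _ _ a) ^ sgn Γ f := (exists_sgn Γ f).choose_spec.2.2 a ha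

noncomputable instance [Nontrivial ι] : CommGroup (PiG Γ ι) :=
  { (inferInstance : Group (PiG Γ ι)) with mul_comm := PiG.mul_comm }

end Pool.Agent.Work.MP_653b6e_gt
end

-- merged part: Pool.Agent.Work.MP_653b6e_gt.Sphere
section
/-! Cube spheres: approximation into skeleta and equivariant extension. -/

namespace Pool.Agent.Work.MP_653b6e_gt

open Set Topology Function Metric

/-- The boundary of the cube. -/
abbrev CS (j : ℕ) : Set (Fin j → ℝ) := sphere 0 1

/-- Oscillation of `(y, 0)`. -/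
noncomputable def osc {j : ℕ} (y : Fin j → ℝ) : ℝ :=
  ‖fun i => max (y i) 0‖ + ‖fun i => max (-y i) 0‖

lemma continuous_osc {j : ℕ} : Continuous (osc (j := j)) := by
  unfold osc; fun_prop

lemma osc_bound {j : ℕ} (y : Fin j → ℝ) (i k : Fin j) : max (y i) 0 + max (-y k) 0 ≤ osc y := by
  have h1 := norm_le_pi_norm (fun i => max (y i) 0) i
  have h2 := norm_le_pi_norm (fun i => max (-y i) 0) k
  rw [Real.norm_of_nonneg (le_max_right _ _)] at h1 h2
  exact add_le_add h1 h2

lemma abs_le_osc {j : ℕ} (y : Fin j → ℝ) (i : Fin j) : |y i| ≤ osc y := by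
  have := osc_bound y i i
  have h1 := le_max_left (y i) 0
  have h2 := le_max_right (y i) 0
  have h3 := le_max_left (-y i) 0
  have h4 := le_max_right (-y i) 0
  rw [abs_le]; constructor <;> linarith

lemma sub_le_osc {j : ℕ} (y : Fin j → ℝ) (i k : Fin j) : y i - y k ≤ osc y := by
  have := osc_bound y i k
  have h1 := le_max_left (y i) 0
  have h3 := le_max_left (-y k) 0
  linarith

lemma osc_fract {j : ℕ} (y : Fin j → ℝ) : osc (fun i => y i - (⌊y i⌋ : ℤ)) < 1 := by
  have h1 : (fun i => max (-(y i - (⌊y i⌋ : ℤ))) 0) = 0 := by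
    ext i
    exact max_eq_right (by linarith [Int.floor_le (y i)])
  rw [osc, h1, norm_zero, add_zero, pi_norm_lt_iff one_pos]
  intro i
  rw [Real.norm_of_nonneg (le_max_right _ _)]
  exact max_lt (by linarith [Int.lt_floor_add_one (y i)]) one_pos

lemma card_near_le {j : ℕ} (y : Fin (j + 1) → ℝ) (i0 : Fin (j + 1)) (c : ℤ) (h0 : y i0 = c)
    (T : Finset (Fin (j + 1) → ℤ)) (hT : ∀ p ∈ T, osc (fun i => y i - p i) < 1) :
    T.card ≤ j + 1 := by
  have hb : ∀ p ∈ T, ∀ i, ⌊y i⌋ ≤ p i ∧ p i ≤ ⌊y i⌋ + 1 := by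
    intro p hp i
    have h1 := abs_lt.1 ((abs_le_osc _ i).trans_lt (hT p hp))
    have h2 := Int.floor_le (y i)
    have h3 := Int.lt_floor_add_one (y i)
    constructor
    · have : ((⌊y i⌋ : ℤ) : ℝ) < p i + 1 := by linarith [h1.2]
      have : ⌊y i⌋ < p i + 1 := by exact_mod_cast this
      omega
    · have : (p i : ℝ) < (⌊y i⌋ : ℤ) + 2 := by linarith [h1.1]
      have : p i < ⌊y i⌋ + 2 := by exact_mod_cast this
      omega
  have hb0 : ∀ p ∈ T, p i0 = ⌊y i0⌋ := by
    intro p hp
    have h1 := abs_lt.1 ((abs_le_osc _ i0).trans_lt (hT p hp))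
    simp only [h0] at h1
    rw [h0, Int.floor_intCast]
    have h2 : -1 < c - p i0 := by exact_mod_cast h1.1
    have h3 : c - p i0 < 1 := by exact_mod_cast h1.2
    omega
  have h := Finset.card_le_card_of_injOn (s := T) (t := Finset.Icc (0 : ℤ) j)
    (fun p => ∑ i, (p i - ⌊y i⌋)) (by
      intro p hp
      simp only [Finset.coe_Icc, mem_Icc]
      refine ⟨Finset.sum_nonneg (fun i _ => sub_nonneg.2 (hb p hp i).1), ?_⟩
      rw [← Finset.add_sum_erase _ _ (Finset.mem_univ i0), hb0 p hp, sub_self, zero_add]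
      calc ∑ i ∈ Finset.univ.erase i0, (p i - ⌊y i⌋) ≤ ∑ _i ∈ Finset.univ.erase i0, (1 : ℤ) :=
            Finset.sum_le_sum (fun i _ => by linarith [(hb p hp i).2])
        _ = j := by simp) (by
      intro p hp q hq hpq
      simp only [Finset.sum_sub_distrib, sub_left_inj] at hpq
      have hd : ∀ i k, (p i - q i) - (p k - q k) < 2 := by
        intro i k
        have h1 := (sub_le_osc (fun i => y i - q i) i k).trans_lt (hT q hq)
        have h2 := (sub_le_osc (fun i => y i - p i) k i).trans_lt (hT p hp)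
        have : (((p i - q i) - (p k - q k) : ℤ) : ℝ) < 2 := by push_cast; linarith
        exact_mod_cast this
      by_cases hle : ∀ i, p i ≤ q i
      · ext i
        exact (Finset.sum_eq_sum_iff_of_le (fun i _ => hle i)).1 hpq i (Finset.mem_univ _)
      · push Not at hle
        obtain ⟨i, hi⟩ := hle
        have hge : ∀ k, q k ≤ p k := fun k => by have := hd i k; omega
        ext k
        exact ((Finset.sum_eq_sum_iff_of_le (fun i _ => hge i)).1 hpq.symm k
          (Finset.mem_univ _)).symm)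
  simpa using h

variable {W : Type*} [Fintype W]

lemma approx {j : ℕ} {f : (Fin (j + 1) → ℝ) → W → ℝ} (hf : ContinuousOn f (CS (j + 1)))
    (hm : MapsTo f (CS (j + 1)) (stdSimplex ℝ W)) :
    ∃ g : (Fin (j + 1) → ℝ) → W → ℝ, ContinuousOn g (CS (j + 1)) ∧ ∀ x ∈ CS (j + 1),
      g x ∈ stdSimplex ℝ W ∧ supp (g x) ⊆ supp (f x) ∧ (supp (g x)).card ≤ j + 1 := by
  classical
  obtain ⟨δ, hδ, hδf⟩ := Metric.uniformContinuousOn_iff.1
    ((isCompact_sphere _ _).uniformContinuousOn_of_continuous hf) (eps W) eps_pos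
  obtain ⟨n, hn⟩ := exists_nat_gt (2 / δ)
  have hn0 : (0 : ℝ) < n := lt_trans (by positivity) hn
  have hx0 : (fun _ => 1 : Fin (j + 1) → ℝ) ∈ CS (j + 1) := by simp
  obtain ⟨w0, -⟩ := supp_nonempty (hm hx0)
  set o : (Fin (j + 1) → ℤ) → (Fin (j + 1) → ℝ) → ℝ := fun p x => osc (fun i => n * x i - p i)
    with ho
  have hw : ∀ p : Fin (j + 1) → ℤ, ∃ w : W, ∀ x ∈ CS (j + 1), o p x < 1 → f x w ≠ 0 := by
    intro p
    by_cases hp : ∃ x ∈ CS (j + 1), o p x < 1
    · obtain ⟨x0, hx0, hp0⟩ := hp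
      obtain ⟨w, hw⟩ := exists_gt_eps (hm hx0)
      refine ⟨w, fun x hx hp => ?_⟩
      have h1 : dist x x0 < δ := by
        rw [dist_pi_lt_iff hδ]
        intro i
        have h2 := abs_lt.1 ((abs_le_osc _ i).trans_lt hp)
        have h3 := abs_lt.1 ((abs_le_osc _ i).trans_lt hp0)
        rw [div_lt_iff₀ hδ] at hn
        rw [Real.dist_eq, abs_lt]
        constructor <;> nlinarith [h2.1, h2.2, h3.1, h3.2]
      have h2 := (dist_le_pi_dist _ _ w).trans_lt (hδf x hx x0 hx0 h1)
      rw [Real.dist_eq, abs_lt] at h2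
      exact (by linarith [h2.1] : 0 < f x w).ne'
    · exact ⟨w0, fun x hx h => absurd ⟨x, hx, h⟩ hp⟩
  choose w hw using hw
  set P : Finset (Fin (j + 1) → ℤ) := Fintype.piFinset (fun _ => Finset.Icc (-(n : ℤ)) n) with hP
  set y : (Fin (j + 1) → ℝ) → W → ℝ := fun x v =>
    ∑ p ∈ P, if w p = v then max (1 - o p x) 0 else 0 with hy
  have hy0 : ∀ x v, 0 ≤ y x v := fun x v =>
    Finset.sum_nonneg (fun p _ => by split_ifs; exacts [le_max_right _ _, le_rfl])
  have hyne : ∀ x v, y x v ≠ 0 ↔ ∃ p ∈ P, w p = v ∧ o p x < 1 := by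
    intro x v
    rw [hy, Ne, Finset.sum_eq_zero_iff_of_nonneg
      (fun p _ => by split_ifs; exacts [le_max_right _ _, le_rfl])]
    simp
  have hy1 : ∀ x ∈ CS (j + 1), ∃ v, y x v ≠ 0 := by
    intro x hx
    refine ⟨_, (hyne _ _).2 ⟨fun i => ⌊n * x i⌋, ?_, rfl, osc_fract _⟩⟩
    rw [hP, Fintype.mem_piFinset]
    intro i
    have h1 : |x i| ≤ 1 := by
      have := norm_le_pi_norm x i
      rwa [mem_sphere_zero_iff_norm.1 hx] at this
    rw [abs_le] at h1
    rw [Finset.mem_Icc, Int.le_floor, Int.floor_le_iff]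
    push_cast
    constructor <;> nlinarith [h1.1, h1.2]
  have hyc : Continuous y := by
    refine continuous_pi (fun v => continuous_finsetSum _ (fun p _ => ?_))
    split_ifs
    · exact (continuous_const.sub (continuous_osc.comp (by fun_prop))).max continuous_const
    · exact continuous_const
  refine ⟨fun x => nrm (y x), contOn_nrm hyc.continuousOn (fun x _ => hy0 x) hy1,
    fun x hx => ⟨nrm_mem_std (hy0 x) (hy1 x hx), ?_, ?_⟩⟩
  · rw [supp_nrm (hy0 x) (hy1 x hx)]
    intro v hv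
    obtain ⟨p, -, rfl, hp⟩ := (hyne _ _).1 (mem_supp.1 hv)
    exact mem_supp.2 (hw p x hx hp)
  · rw [supp_nrm (hy0 x) (hy1 x hx)]
    have h1 : supp (y x) ⊆ (P.filter (fun p => o p x < 1)).image w := by
      intro v hv
      obtain ⟨p, hpP, rfl, hp⟩ := (hyne _ _).1 (mem_supp.1 hv)
      exact Finset.mem_image_of_mem _ (Finset.mem_filter.2 ⟨hpP, hp⟩)
    refine (Finset.card_le_card h1).trans (Finset.card_image_le.trans ?_)
    obtain ⟨i0, hi0⟩ : ∃ i0, |x i0| = 1 := by
      by_contra h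
      push Not at h
      have h2 : ‖x‖ < 1 := by
        rw [pi_norm_lt_iff one_pos]
        intro i
        refine lt_of_le_of_ne ?_ (h i)
        have := norm_le_pi_norm x i
        rwa [mem_sphere_zero_iff_norm.1 hx] at this
      exact h2.ne (mem_sphere_zero_iff_norm.1 hx)
    rcases (abs_eq zero_le_one).1 hi0 with h | h
    · exact card_near_le (fun i => n * x i) i0 n (by simp [h]) _
        (fun p hp => (Finset.mem_filter.1 hp).2)
    · exact card_near_le (fun i => n * x i) i0 (-n) (by simp [h]) _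
        (fun p hp => (Finset.mem_filter.1 hp).2)

lemma norm_eq_max_tail {j : ℕ} (x : Fin (j + 1) → ℝ) : ‖x‖ = max |x 0| ‖Fin.tail x‖ := by
  refine le_antisymm ?_ (max_le (norm_le_pi_norm x 0) ?_)
  · rw [pi_norm_le_iff_of_nonneg (le_max_of_le_left (abs_nonneg _))]
    intro i
    refine Fin.cases (le_max_left _ _) (fun k => ?_) i
    exact le_max_of_le_right (norm_le_pi_norm (Fin.tail x) k)
  · rw [pi_norm_le_iff_of_nonneg (norm_nonneg _)]
    exact fun k => norm_le_pi_norm x k.succ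

lemma extend_equivariant {Y : Type*} [TopologicalSpace Y] {τ : Y → Y} (hτ : Continuous τ)
    (hττ : ∀ y, τ (τ y) = y) {j : ℕ} {f : (Fin j → ℝ) → Y}
    (he : ∀ x ∈ CS j, f (-x) = τ (f x)) {c : Y} (h : Htpy (CS j) ∅ f (fun _ => c)) :
    ∃ F : (Fin (j + 1) → ℝ) → Y, ContinuousOn F (CS (j + 1)) ∧
      ∀ x ∈ CS (j + 1), F (-x) = τ (F x) := by
  obtain ⟨H, hc, h0, h1, -⟩ := h
  have htc : Continuous (fun x : Fin (j + 1) → ℝ => Fin.tail x) :=
    continuous_pi (fun k => continuous_apply k.succ)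
  set F : (Fin (j + 1) → ℝ) → Y := fun x =>
    if ‖Fin.tail x‖ ≤ x 0 then c else H (Fin.tail x, x 0) with hF
  have hside : ∀ x ∈ CS (j + 1), 0 ≤ x 0 → x 0 ≤ ‖Fin.tail x‖ →
      Fin.tail x ∈ CS j ∧ x 0 ≤ 1 := by
    intro x hx hx0 hle
    have h2 := mem_sphere_zero_iff_norm.1 hx
    rw [norm_eq_max_tail, abs_of_nonneg hx0, max_eq_right hle] at h2
    exact ⟨mem_sphere_zero_iff_norm.2 h2, h2 ▸ hle⟩
  have hFc : ContinuousOn F (CS (j + 1) ∩ {x | 0 ≤ x 0}) := by
    refine contOn_ite_le (φ := fun x : Fin (j + 1) → ℝ => ‖Fin.tail x‖) (ψ := fun x => x 0)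
      htc.norm.continuousOn (continuous_apply 0).continuousOn continuousOn_const ?_ ?_
    · refine hc.comp (htc.prodMk (continuous_apply 0)).continuousOn ?_
      rintro x ⟨⟨hx, hx0⟩, hle⟩
      exact ⟨(hside x hx hx0 hle).1, hx0, (hside x hx hx0 hle).2⟩
    · rintro x ⟨hx, hx0⟩ heq
      have h2 := (hside x hx hx0 heq.ge).1
      have h3 : x 0 = 1 := heq ▸ mem_sphere_zero_iff_norm.1 h2
      rw [h3, h1 _ h2]
  have hF0 : ∀ x ∈ CS (j + 1), x 0 = 0 → F (-x) = τ (F x) := by
    intro x hx hx0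
    have h2 := (hside x hx hx0.ge (hx0 ▸ norm_nonneg _)).1
    have h3 := mem_sphere_zero_iff_norm.1 h2
    have h4 : Fin.tail (-x) = -Fin.tail x := rfl
    have h5 : -Fin.tail x ∈ CS j := by simpa using h3
    simp only [hF, h4, norm_neg, h3, Pi.neg_apply, hx0, neg_zero]
    rw [if_neg (by norm_num), if_neg (by norm_num), h0 _ h2, h0 _ h5, he _ h2]
  have hneg : ∀ x ∈ CS (j + 1), -x ∈ CS (j + 1) := fun x hx => by simpa using hx
  refine ⟨fun x => if 0 ≤ x 0 then F x else τ (F (-x)), ?_, ?_⟩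
  · refine contOn_ite_le (φ := fun _ : Fin (j + 1) → ℝ => 0) (ψ := fun x => x 0)
      continuousOn_const (continuous_apply 0).continuousOn hFc ?_ ?_
    · refine hτ.comp_continuousOn (hFc.comp continuous_neg.continuousOn ?_)
      rintro x ⟨hx, hx0⟩
      exact ⟨hneg x hx, by simpa using hx0⟩
    · intro x hx hx0
      rw [hF0 x hx hx0.symm, hττ]
  · intro x hx
    rcases lt_trichotomy (x 0) 0 with h | h | h
    · have h2 : 0 ≤ (-x) 0 := by simpa using h.le
      simp only [h2, if_true, not_le.2 h, if_false, hττ]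
    · have h2 : 0 ≤ (-x) 0 := by simp [h]
      simp only [h2, if_true, h.ge, hF0 x hx h]
    · have h2 : ¬ 0 ≤ (-x) 0 := by simpa using h
      simp only [h2, if_true, h.le, if_false, neg_neg]

lemma to_round_sphere {Y : Type*} [TopologicalSpace Y] {τ : Y → Y} {j : ℕ}
    {F : (Fin j → ℝ) → Y} (hF : ContinuousOn F (CS j)) (he : ∀ x ∈ CS j, F (-x) = τ (F x)) :
    ∃ f : C(sphere (0 : EuclideanSpace ℝ (Fin j)) 1, Y), ∀ x, f (-x) = τ (f x) := by
  have hne : ∀ x : sphere (0 : EuclideanSpace ℝ (Fin j)) 1, ‖x.1.ofLp‖ ≠ 0 := by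
    intro x h
    have h1 : x.1 = 0 := by simpa using h
    have h2 := mem_sphere_zero_iff_norm.1 x.2
    simp [h1] at h2
  have hmem : ∀ x : sphere (0 : EuclideanSpace ℝ (Fin j)) 1,
      ‖x.1.ofLp‖⁻¹ • x.1.ofLp ∈ CS j := by
    intro x
    rw [mem_sphere_zero_iff_norm, norm_smul, norm_inv, norm_norm, inv_mul_cancel₀ (hne x)]
  have hc : Continuous (fun x : sphere (0 : EuclideanSpace ℝ (Fin j)) 1 => x.1.ofLp) := by
    fun_prop
  refine ⟨⟨fun x => F (‖x.1.ofLp‖⁻¹ • x.1.ofLp),
    hF.comp_continuous ((hc.norm.inv₀ hne).smul hc) hmem⟩, fun x => ?_⟩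
  simp only [ContinuousMap.coe_mk]
  rw [← he _ (hmem x)]
  simp

end Pool.Agent.Work.MP_653b6e_gt
end
end

-- merged part: Pool.Agent.Work.MP_653b6e_gt.Main
section
-- merged part: Pool.Agent.Work.MP_653b6e_gt.Chains
section
/-! Mod 2 chains on finite sets, cones, and the acyclic carrier lemma. -/

namespace Pool.Agent.Work.MP_653b6e_gt

open Set Finsupp

/-- The field with two elements. -/
abbrev F2 := ZMod 2

lemma add_self_F2 {M : Type*} [AddCommGroup M] [Module F2 M] (x : M) : x + x = 0 := by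
  rw [← two_smul F2 x]
  exact (congrArg (· • x) (by decide : (2 : F2) = 0)).trans (zero_smul _ _)

/-- Linear map defined on basis elements. -/
noncomputable def lin {I M : Type*} [AddCommGroup M] [Module F2 M] (f : I → M) :
    (I →₀ F2) →ₗ[F2] M := Finsupp.linearCombination F2 f

@[simp] lemma lin_single {I M : Type*} [AddCommGroup M] [Module F2 M] (f : I → M) (i : I) :
    lin f (single i 1) = f i := by simp [lin]

lemma lin_ext {I M : Type*} [AddCommGroup M] [Module F2 M] {f g : (I →₀ F2) →ₗ[F2] M}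
    (h : ∀ i, f (single i 1) = g (single i 1)) : f = g := by
  ext i; exact h i

/-- Chains supported on a set of basis elements. -/
abbrev Sup {I : Type*} (S : Set I) : Submodule F2 (I →₀ F2) := Finsupp.supported F2 F2 S

lemma single_mem_Sup {I : Type*} {S : Set I} {i : I} (h : i ∈ S) : single i (1 : F2) ∈ Sup S :=
  Finsupp.single_mem_supported F2 1 h

lemma Sup_mono {I : Type*} {S T : Set I} (h : S ⊆ T) : Sup S ≤ Sup T := supported_mono h

lemma map_Sup {I M : Type*} [AddCommGroup M] [Module F2 M] {S : Set I} {T : Submodule F2 M}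
    {f : (I →₀ F2) →ₗ[F2] M} (h : ∀ i ∈ S, f (single i 1) ∈ T) {x : I →₀ F2} (hx : x ∈ Sup S) :
    f x ∈ T := by
  rw [Sup, supported_eq_span_single] at hx
  have : Submodule.span F2 ((fun i => single i (1 : F2)) '' S) ≤ T.comap f := by
    rw [Submodule.span_le]
    rintro _ ⟨i, hi, rfl⟩
    exact h i hi
  exact this hx

lemma eq_on_Sup {I M : Type*} [AddCommGroup M] [Module F2 M] {S : Set I}
    {f g : (I →₀ F2) →ₗ[F2] M} (h : ∀ i ∈ S, f (single i 1) = g (single i 1)) {x : I →₀ F2}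
    (hx : x ∈ Sup S) : f x = g x := by
  have := map_Sup (T := ⊥) (f := f - g) (fun i hi => by simp [h i hi]) hx
  simpa [sub_eq_zero] using this

variable {W : Type*} [DecidableEq W]

/-- Chains on finite subsets of `W`. -/
abbrev Ch (W : Type*) := Finset W →₀ F2

/-- Boundary. -/
noncomputable def bd : Ch W →ₗ[F2] Ch W := lin (fun A => ∑ a ∈ A, single (A.erase a) 1)

/-- Cone. -/
noncomputable def cone (w : W) : Ch W →ₗ[F2] Ch W :=
  lin (fun A => if w ∈ A then 0 else single (insert w A) 1)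

lemma bd_single (A : Finset W) : bd (single A 1) = ∑ a ∈ A, single (A.erase a) 1 := by simp [bd]

lemma cone_single (w : W) (A : Finset W) :
    cone w (single A 1) = if w ∈ A then 0 else single (insert w A) 1 := by simp [cone]

lemma bd_cone (w : W) (x : Ch W) : bd (cone w x) = x + cone w (bd x) := by
  have : bd ∘ₗ cone w = LinearMap.id + cone w ∘ₗ bd := by
    refine lin_ext (fun A => ?_)
    simp only [LinearMap.comp_apply, LinearMap.add_apply, LinearMap.id_apply, cone_single,
      bd_single, map_sum]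
    split_ifs with h
    · rw [map_zero, Finset.sum_eq_single w]
      · simp [Finset.insert_erase h, add_self_F2]
      · intro b _ hb
        rw [if_pos (Finset.mem_erase.2 ⟨hb.symm, h⟩)]
      · exact fun h' => absurd h h'
    · rw [bd_single, Finset.sum_insert h, Finset.erase_insert h]
      congr 1
      refine Finset.sum_congr rfl (fun a ha => ?_)
      rw [if_neg (fun h' => h (Finset.mem_of_mem_erase h')), Finset.erase_insert_of_ne]
      rintro rfl
      exact h ha
  exact LinearMap.congr_fun this x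

lemma bd_bd (x : Ch W) : bd (bd x) = 0 := by
  have : bd ∘ₗ bd = (0 : Ch W →ₗ[F2] Ch W) := by
    refine lin_ext (fun A => ?_)
    induction A using Finset.induction_on with
    | empty => simp [bd_single]
    | insert w A h ih =>
      have h1 : single (insert w A) (1 : F2) = cone w (single A 1) := by rw [cone_single, if_neg h]
      simp only [LinearMap.comp_apply, LinearMap.zero_apply] at ih ⊢
      rw [h1, bd_cone, map_add, bd_cone, ih, map_zero, add_zero, add_self_F2]
  exact LinearMap.congr_fun this x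

lemma bd_mem_Sup {L : Set (Finset W)} (hL : IsLowerSet L) {m : ℕ} {x : Ch W}
    (hx : x ∈ Sup {A | A ∈ L ∧ A.card = m + 1}) : bd x ∈ Sup {A | A ∈ L ∧ A.card = m} := by
  refine map_Sup (fun A hA => ?_) hx
  rw [bd_single]
  refine Submodule.sum_mem _ (fun a ha => single_mem_Sup ⟨hL (Finset.erase_subset _ _) hA.1, ?_⟩)
  rw [Finset.card_erase_of_mem ha, hA.2]; rfl

lemma cone_mem_Sup {L : Set (Finset W)} {w : W} (hL : ∀ A ∈ L, insert w A ∈ L) {m : ℕ} {x : Ch W}
    (hx : x ∈ Sup {A | A ∈ L ∧ A.card = m}) : cone w x ∈ Sup {A | A ∈ L ∧ A.card = m + 1} := by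
  refine map_Sup (fun A hA => ?_) hx
  rw [cone_single]
  split_ifs with h
  · exact zero_mem _
  · exact single_mem_Sup ⟨hL A hA.1, by rw [Finset.card_insert_of_notMem h, hA.2]⟩

/-- Exactness of the augmented mod 2 chain complex at faces with `m` vertices. -/
def Acyc (L : Set (Finset W)) (m : ℕ) : Prop :=
  ∀ z ∈ Sup {A | A ∈ L ∧ A.card = m}, bd z = 0 →
    ∃ c ∈ Sup {A | A ∈ L ∧ A.card = m + 1}, bd c = z

/-- Acyclic carrier lemma. -/
lemma carrier {I : Type*} (dI : (I →₀ F2) →ₗ[F2] (I →₀ F2)) (hdd : ∀ x, dI (dI x) = 0)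
    (deg : I → ℕ) (C : I → Set (Finset W)) (b : I → W) (f : (I →₀ F2) →ₗ[F2] Ch W)
    (hf : ∀ x, bd (f x) = f (dI x)) (good : Set I)
    (h1 : ∀ i ∈ good, dI (single i 1) ∈ Sup {i' | i' ∈ good ∧ deg i' + 1 = deg i ∧ C i' ⊆ C i})
    (h2 : ∀ i ∈ good, ∀ σ ∈ C i, insert (b i) σ ∈ C i)
    (h3 : ∀ i ∈ good, f (single i 1) ∈ Sup {σ | σ ∈ C i ∧ σ.card = deg i}) (n : ℕ) :
    ∃ h : (I →₀ F2) →ₗ[F2] Ch W, ∀ i ∈ good, deg i < n →
      bd (h (single i 1)) = f (single i 1) + h (dI (single i 1)) ∧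
      h (single i 1) ∈ Sup {σ | σ ∈ C i ∧ σ.card = deg i + 1} := by
  classical
  induction n with
  | zero => exact ⟨0, fun i _ hi => absurd hi (Nat.not_lt_zero _)⟩
  | succ n ih =>
    obtain ⟨h, hh⟩ := ih
    set h' : (I →₀ F2) →ₗ[F2] Ch W := lin (fun i => if deg i = n then
      cone (b i) (f (single i 1) + h (dI (single i 1))) else h (single i 1)) with hh'
    have e1 : ∀ i ∈ good, deg i < n + 1 → h' (dI (single i 1)) = h (dI (single i 1)) := by
      intro i hi hd
      refine eq_on_Sup (fun i' hi' => ?_) (h1 i hi)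
      have := hi'.2.1
      rw [hh', lin_single, if_neg (by omega)]
    refine ⟨h', fun i hi hd => ?_⟩
    rw [e1 i hi hd]
    by_cases hn : deg i = n
    · have e2 : h' (single i 1) = cone (b i) (f (single i 1) + h (dI (single i 1))) := by
        rw [hh', lin_single, if_pos hn]
      have e3 : bd (h (dI (single i 1))) = f (dI (single i 1)) + h (dI (dI (single i 1))) := by
        refine eq_on_Sup (f := bd ∘ₗ h) (g := f + h ∘ₗ dI) (fun i' hi' => ?_) (h1 i hi)
        have := hi'.2.1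
        exact (hh i' hi'.1 (by omega)).1
      rw [e2]
      constructor
      · rw [bd_cone, map_add, hf, e3, hdd, map_zero, add_zero, add_self_F2, map_zero, add_zero]
      · refine cone_mem_Sup (h2 i hi) (add_mem (h3 i hi) ?_)
        refine map_Sup (fun i' hi' => ?_) (h1 i hi)
        have := hi'.2.1
        refine Sup_mono ?_ (hh i' hi'.1 (by omega)).2
        exact fun σ hσ => ⟨hi'.2.2 hσ.1, hσ.2.trans this⟩
    · have e2 : h' (single i 1) = h (single i 1) := by rw [hh', lin_single, if_neg hn]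
      rw [e2]
      exact hh i hi (by omega)

lemma bd_single_apply (A B : Finset W) :
    bd (single A (1 : F2)) B = if B ⊆ A ∧ B.card + 1 = A.card then 1 else 0 := by
  rw [bd_single, Finsupp.finsetSum_apply]
  split_ifs with h
  · obtain ⟨a, ha, hB⟩ : ∃ a ∈ A, B = A.erase a := by
      obtain ⟨a, ha, hB⟩ := Finset.exists_eq_insert_iff.2 h
      exact ⟨a, hB ▸ Finset.mem_insert_self _ _, by rw [← hB, Finset.erase_insert ha]⟩
    rw [Finset.sum_eq_single a]
    · simp [hB]
    · intro a' ha' hne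
      rw [Finsupp.single_apply, if_neg]
      rw [hB]
      intro h'
      exact hne (Finset.erase_injOn A ha' ha h')
    · exact fun h' => absurd ha h'
  · refine Finset.sum_eq_zero (fun a ha => ?_)
    rw [Finsupp.single_apply, if_neg]
    rintro rfl
    exact h ⟨Finset.erase_subset _ _, Finset.card_erase_add_one ha⟩

section box

variable {V : Type*} [DecidableEq V] (G : SimpleGraph V)

/-- Faces of the box complex. -/
def boxK : Set (Finset (V ⊕ V)) := {σ | ∀ a b, Sum.inl a ∈ σ → Sum.inr b ∈ σ → G.Adj a b}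

/-- Faces of the neighbourhood complex. -/
def nbK : Set (Finset V) := {A | ∃ b, ∀ a ∈ A, G.Adj a b}

omit [DecidableEq V] in
lemma boxK_lower : IsLowerSet (boxK G) := fun _ _ h hA a b ha hb => hA a b (h ha) (h hb)

omit [DecidableEq V] in
lemma nbK_lower : IsLowerSet (nbK G) := fun _ _ h ⟨b, hb⟩ => ⟨b, fun a ha => hb a (h ha)⟩

lemma acyc_nb_of_box [Nonempty V] {m : ℕ} (h : Acyc (boxK G) (m + 1)) : Acyc (nbK G) m := by
  classical
  intro z hz hbz
  obtain ⟨v0⟩ := ‹Nonempty V›
  set e : V ↪ V ⊕ V := Function.Embedding.inl with he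
  set f : Ch V →ₗ[F2] Ch (V ⊕ V) := lin (fun A => single (A.map e) 1) with hf
  have hfb : ∀ x, bd (f x) = f (bd x) := by
    have : bd ∘ₗ f = f ∘ₗ bd := by
      refine lin_ext (fun A => ?_)
      simp only [LinearMap.comp_apply, hf, lin_single, bd_single, map_sum, Finset.sum_map,
        Finset.map_erase]
    exact fun x => LinearMap.congr_fun this x
  have hb : ∀ A : Finset V, ∃ b, A ∈ nbK G → ∀ a ∈ A, G.Adj a b := by
    intro A
    by_cases hA : A ∈ nbK G
    · obtain ⟨b, hb⟩ := hA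
      exact ⟨b, fun _ => hb⟩
    · exact ⟨v0, fun h => absurd h hA⟩
  choose b hb using hb
  obtain ⟨k, hk⟩ := carrier (W := V ⊕ V) bd bd_bd Finset.card
    (fun A => {σ | σ ∈ boxK G ∧ ∀ a, Sum.inl a ∈ σ → a ∈ A}) (fun A => Sum.inr (b A)) f hfb
    (nbK G) (by
      intro A hA
      rw [bd_single]
      refine Submodule.sum_mem _ (fun a ha => single_mem_Sup
        ⟨nbK_lower G (Finset.erase_subset _ _) hA, Finset.card_erase_add_one ha, ?_⟩)
      exact fun σ hσ => ⟨hσ.1, fun a' ha' => Finset.mem_of_mem_erase (hσ.2 a' ha')⟩)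
    (by
      intro A hA σ hσ
      refine ⟨fun a c ha hc => ?_, fun a ha => hσ.2 a (by simpa using ha)⟩
      have ha' : Sum.inl a ∈ σ := by simpa using ha
      rcases Finset.mem_insert.1 hc with hc | hc
      · rw [Sum.inr.inj hc]
        exact hb A hA a (hσ.2 a ha')
      · exact hσ.1 a c ha' hc)
    (by
      intro A _
      rw [hf, lin_single]
      refine single_mem_Sup ⟨⟨fun a c _ hc => ?_, fun a ha => ?_⟩, Finset.card_map _⟩
      · simp [he] at hc
      · simpa [he] using ha) (m + 1)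
  -- the subcomplex B'
  set B' : Set (Finset (V ⊕ V)) := {σ | σ ∈ boxK G ∧ σ.toLeft ∈ nbK G} with hB'
  have hB'l : IsLowerSet B' := fun σ τ hτ hσ =>
    ⟨boxK_lower G hτ hσ.1, nbK_lower G (Finset.toLeft_subset_toLeft hτ) hσ.2⟩
  set P : Set (Finset (V ⊕ V)) := {σ | ∀ c, Sum.inr c ∉ σ} with hP
  have hPl : IsLowerSet P := fun σ τ hτ hσ c hc => hσ c (hτ hc)
  have hPK : P ⊆ boxK G := fun σ hσ a c _ hc => absurd hc (hσ c)
  have hc' : k z ∈ Sup {σ | σ ∈ B' ∧ σ.card = m + 1} := by
    refine map_Sup (fun A hA => ?_) hz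
    refine Sup_mono ?_ (hk A hA.1 (by rw [hA.2]; omega)).2
    intro σ hσ
    refine ⟨⟨hσ.1.1, nbK_lower G ?_ hA.1⟩, hσ.2.trans (by rw [hA.2])⟩
    intro a ha
    exact hσ.1.2 a (Finset.mem_toLeft.1 ha)
  have hbc' : bd (k z) = f z := by
    have := eq_on_Sup (f := bd ∘ₗ k) (g := f + k ∘ₗ bd)
      (fun A hA => (hk A hA.1 (by rw [hA.2]; omega)).1) hz
    simpa [hbz] using this
  have hfz : f z ∈ Sup {σ | σ ∈ P ∧ σ.card = m} := by
    refine map_Sup (fun A hA => ?_) hz
    rw [hf, lin_single]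
    exact single_mem_Sup ⟨fun c hc => by simp [he] at hc, by rw [Finset.card_map, hA.2]⟩
  have hcp : cone (Sum.inl v0) (f z) ∈ Sup {σ | σ ∈ P ∧ σ.card = m + 1} :=
    cone_mem_Sup (L := P) (fun σ hσ c hc => hσ c (by simpa using hc)) hfz
  have hbcp : bd (cone (Sum.inl v0) (f z)) = f z := by
    rw [bd_cone, hfb, hbz]; simp
  obtain ⟨w, hw, hbw⟩ := h (cone (Sum.inl v0) (f z) + k z)
    (add_mem (Sup_mono (fun σ hσ => And.intro (hPK hσ.1) hσ.2) hcp)
      (Sup_mono (fun σ hσ => And.intro hσ.1.1 hσ.2) hc'))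
    (by rw [map_add, hbcp, hbc', add_self_F2])
  set pr : Ch (V ⊕ V) →ₗ[F2] Ch (V ⊕ V) := lin (fun σ => if σ ∈ P then single σ 1 else 0) with hpr
  have hw1 : pr w ∈ Sup {σ | σ ∈ P ∧ σ.card = m + 1 + 1} := by
    refine map_Sup (fun σ hσ => ?_) hw
    rw [hpr, lin_single]
    split_ifs with h'
    · exact single_mem_Sup ⟨h', hσ.2⟩
    · exact zero_mem _
  have hw2 : w + pr w ∈ Sup {σ | σ ∈ B' ∧ σ.card = m + 1 + 1} := by
    refine map_Sup (f := LinearMap.id + pr) (fun σ hσ => ?_) hw
    rw [LinearMap.add_apply, LinearMap.id_apply, hpr, lin_single]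
    split_ifs with h'
    · rw [add_self_F2]; exact zero_mem _
    · rw [add_zero]
      refine single_mem_Sup ⟨⟨hσ.1, ?_⟩, hσ.2⟩
      simp only [hP, mem_ofPred_eq, not_forall, not_not] at h'
      obtain ⟨c, hc⟩ := h'
      exact ⟨c, fun a ha => hσ.1 a c (Finset.mem_toLeft.1 ha) hc⟩
  set d := cone (Sum.inl v0) (f z) + bd (pr w) with hd
  have hd1 : d ∈ Sup {σ | σ ∈ P ∧ σ.card = m + 1} := add_mem hcp (bd_mem_Sup hPl hw1)
  have hd2 : d ∈ Sup {σ | σ ∈ B' ∧ σ.card = m + 1} := by
    have : d = k z + bd (w + pr w) := by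
      rw [map_add, hbw, hd, ← add_assoc, add_comm (cone _ _) (k z), ← add_assoc, add_self_F2,
        zero_add]
    rw [this]
    exact add_mem hc' (bd_mem_Sup hB'l hw2)
  have hd3 : d ∈ Sup ({σ | σ ∈ P ∧ σ.card = m + 1} ∩ {σ | σ ∈ B' ∧ σ.card = m + 1}) := by
    rw [Sup, supported_inter]; exact ⟨hd1, hd2⟩
  have hbd : bd d = f z := by rw [hd, map_add, hbcp, bd_bd, add_zero]
  -- pull back along the left inclusion
  set g : Ch (V ⊕ V) →ₗ[F2] Ch V := lin (fun σ => single σ.toLeft 1) with hg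
  have hPσ : ∀ σ ∈ P, σ.toLeft.map e = σ := by
    intro σ hσ
    ext (a | c)
    · simp [he]
    · simp [he, hσ c]
  have hfg : f (g d) = d := by
    refine eq_on_Sup (f := f ∘ₗ g) (g := LinearMap.id) (fun σ hσ => ?_) hd1
    simp only [LinearMap.comp_apply, hg, hf, lin_single, LinearMap.id_apply, hPσ σ hσ.1]
  have hgf : ∀ x, g (f x) = x := by
    have : g ∘ₗ f = LinearMap.id := by
      refine lin_ext (fun A => ?_)
      simp only [LinearMap.comp_apply, hg, hf, lin_single, LinearMap.id_apply]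
      congr 1
      ext a; simp [he]
    exact fun x => LinearMap.congr_fun this x
  refine ⟨g d, map_Sup (fun σ hσ => ?_) hd3, ?_⟩
  · rw [hg, lin_single]
    refine single_mem_Sup ⟨hσ.2.1.2, ?_⟩
    rw [← hσ.1.2, ← Finset.card_map e, hPσ σ hσ.1.1]
  · rw [← hgf (bd (g d)), ← hfb, hfg, hbd, hgf]

end box

end Pool.Agent.Work.MP_653b6e_gt
end

-- merged part: Pool.Agent.Work.MP_653b6e_gt.Algebra
section
/-! A cochain complex that is exact mod 2 has cohomology killed by an odd integer. -/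

namespace Pool.Agent.Work.MP_653b6e_gt

open Matrix

variable {I J K : Type*} [Fintype I] [Fintype J] [Fintype K] [DecidableEq I] [DecidableEq J]

omit [Fintype K] in
lemma exists_contraction [Fintype K] {F : Type*} [Field F] (B0 : Matrix J I F) (B1 : Matrix K J F)
    (hex : ∀ c : J → F, c ᵥ* B0 = 0 → ∃ d : K → F, d ᵥ* B1 = c) :
    ∃ (S : Matrix I J F) (S' : Matrix J K F), B0 * S + S' * B1 = 1 := by
  set f0 := B0.vecMulLinear with hf0
  obtain ⟨r, hr⟩ := LinearMap.exists_rightInverse_of_surjective f0.rangeRestrict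
    (LinearMap.range_rangeRestrict f0)
  obtain ⟨g, hg⟩ := LinearMap.exists_extend r
  have hfg : ∀ x, f0 (g (f0 x)) = f0 x := by
    intro x
    have h1 : g (f0 x) = r (f0.rangeRestrict x) := LinearMap.congr_fun hg (f0.rangeRestrict x)
    have h2 := congrArg Subtype.val (LinearMap.congr_fun hr (f0.rangeRestrict x))
    rw [h1]
    exact h2
  have hd : ∀ j : J, ∃ d : K → F, d ᵥ* B1 = Pi.single j 1 - g (f0 (Pi.single j 1)) := by
    intro j
    refine hex _ ?_
    change f0 _ = 0
    rw [map_sub, hfg, sub_self]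
  choose d hd using hd
  refine ⟨Matrix.of fun i => g (Pi.single i 1), Matrix.of d, ?_⟩
  ext j j'
  have h1 : ((Matrix.of d) * B1) j j' = (d j ᵥ* B1) j' := by
    simp [Matrix.mul_apply, vecMul, dotProduct]
  have h2 : g (f0 (Pi.single j 1)) = ∑ i, B0 j i • g (Pi.single i 1) := by
    have : f0 (Pi.single j 1) = ∑ i, B0 j i • Pi.single i (1 : F) := by
      ext i
      simp [hf0, Pi.single_apply]
    rw [this, map_sum]
    simp only [map_smul]
  rw [Matrix.add_apply, h1, hd, h2, Matrix.mul_apply, Matrix.one_apply]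
  simp [Pi.single_apply, eq_comm]

variable {A : Type*} [AddCommGroup A]

/-- Action of an integer matrix on vectors with entries in an abelian group. -/
def act (D : Matrix J I ℤ) (η : I → A) : J → A := fun j => ∑ i, D j i • η i

omit [Fintype K] [DecidableEq I] [DecidableEq J] in
lemma act_mul (D : Matrix K J ℤ) (D' : Matrix J I ℤ) (η : I → A) :
    act (D * D') η = act D (act D' η) := by
  ext k
  simp only [act, Matrix.mul_apply, Finset.sum_smul, Finset.smul_sum, mul_smul]
  exact Finset.sum_comm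

omit [Fintype J] [DecidableEq I] [DecidableEq J] in
lemma act_add (D D' : Matrix J I ℤ) (η : I → A) : act (D + D') η = act D η + act D' η := by
  ext k
  simp [act, add_smul, Finset.sum_add_distrib]

omit [Fintype J] [DecidableEq I] [DecidableEq J] in
lemma act_add' (D : Matrix J I ℤ) (η η' : I → A) : act D (η + η') = act D η + act D η' := by
  ext k
  simp [act, Finset.sum_add_distrib]

omit [Fintype J] [DecidableEq I] [DecidableEq J] in
lemma act_zero' (D : Matrix J I ℤ) : act D (0 : I → A) = 0 := by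
  ext k
  simp [act]

omit [Fintype J] [DecidableEq I] [DecidableEq J] in
lemma act_smul' (D : Matrix J I ℤ) (c : ℤ) (η : I → A) : act D (c • η) = c • act D η := by
  ext k
  simp [act, Finset.smul_sum, smul_comm c]

lemma act_algebraMap (c : ℤ) (η : I → A) :
    act (algebraMap ℤ (Matrix I I ℤ) c) η = c • η := by
  ext k
  simp [act, Matrix.algebraMap_matrix_apply]

lemma odd_kills [DecidableEq K] (D0 : Matrix J I ℤ) (D1 : Matrix K J ℤ)
    (hex : ∀ c : J → ZMod 2, c ᵥ* D0.map (Int.cast) = 0 →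
      ∃ d : K → ZMod 2, d ᵥ* D1.map (Int.cast) = c)
    (h01 : ∀ η : I → A, act D1 (act D0 η) = 0) (θ : J → A) (hθ : act D1 θ = 0) :
    ∃ d : ℕ, Odd d ∧ ∃ η : I → A, act D0 η = d • θ := by
  obtain ⟨S, S', hS⟩ := exists_contraction _ _ hex
  set T : Matrix I J ℤ := S.map (fun x => (x.cast : ℤ)) with hT
  set T' : Matrix J K ℤ := S'.map (fun x => (x.cast : ℤ)) with hT'
  set U : Matrix J J ℤ := D0 * T + T' * D1 with hU
  have hU2 : (Int.castRingHom (ZMod 2)).mapMatrix U = 1 := by
    rw [← hS, hU]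
    ext j j'
    simp [hT, hT', Matrix.mul_apply]
  have hdet : ((U.det : ℤ) : ZMod 2) = 1 := by
    have := (Int.castRingHom (ZMod 2)).map_det U
    rw [hU2, det_one] at this
    exact this
  have hUB : ∀ θ : J → A, act D1 θ = 0 → act U θ = act D0 (act T θ) := by
    intro θ h
    rw [hU, act_add, act_mul, act_mul, h, act_zero', add_zero]
  have hpoly : ∀ q : Polynomial ℤ, act D1 (act (Polynomial.aeval U q) θ) = 0 := by
    intro q
    induction q using Polynomial.induction_on with
    | C c => rw [Polynomial.aeval_C, act_algebraMap, act_smul', hθ, smul_zero]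
    | add p q hp hq => rw [map_add, act_add, act_add', hp, hq, add_zero]
    | monomial n c ih =>
      rw [pow_succ', mul_left_comm, map_mul, Polynomial.aeval_X, act_mul, hUB _ ih, h01]
  have hCH := Matrix.aeval_self_charpoly U
  rw [← Polynomial.X_mul_divX_add U.charpoly, map_add, map_mul, Polynomial.aeval_X,
    Polynomial.aeval_C] at hCH
  have h1 := congrArg (fun M => act M θ) hCH
  simp only [act_add, act_mul, act_algebraMap] at h1
  rw [hUB _ (hpoly _)] at h1
  have h0 : act (0 : Matrix J J ℤ) θ = 0 := by ext k; simp [act]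
  rw [h0] at h1
  set c := U.charpoly.coeff 0 with hc
  have hodd : Odd c := by
    have h2 := Matrix.det_eq_sign_charpoly_coeff U
    rw [h2] at hdet
    have h3 : ((c : ℤ) : ZMod 2) = 1 := by
      have h4 : ((-1 : ZMod 2)) = 1 := by decide
      simpa [h4] using hdet
    exact ZMod.intCast_eq_one_iff_odd.1 h3
  refine ⟨c.natAbs, Int.natAbs_odd.2 hodd, ?_⟩
  have h2 := eq_neg_of_add_eq_zero_left h1
  rcases Int.natAbs_eq c with h | h
  · refine ⟨(-1 : ℤ) • act T (act (Polynomial.aeval U U.charpoly.divX) θ), ?_⟩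
    rw [act_smul', h2, ← natCast_zsmul, ← h]; simp
  · refine ⟨act T (act (Polynomial.aeval U U.charpoly.divX) θ), ?_⟩
    rw [h2, ← natCast_zsmul, ← neg_smul]
    congr 1
    omega

end Pool.Agent.Work.MP_653b6e_gt
end

-- merged part: Pool.Agent.Work.MP_653b6e_gt.Obstruction
section
/-! Obstruction theory: an odd power of a map into a grouplike monoid is null on skeleta. -/

namespace Pool.Agent.Work.MP_653b6e_gt

open Set Topology Function Matrix

variable {W : Type*} [Fintype W] [DecidableEq W] {ι : Type*} [Fintype ι] [DecidableEq ι]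
variable {Γ : Type*} [TopologicalSpace Γ] [Monoid Γ] [ContinuousMul Γ]

omit [Fintype W] [DecidableEq ι] in
lemma exists_param {σ : Finset W} (h : σ.card = Fintype.card ι) :
    ∃ ψ : ι → W, Injective ψ ∧ Finset.univ.image ψ = σ := by
  have e : ι ≃ σ := Fintype.equivOfCardEq (by simp [h])
  refine ⟨fun i => (e i).1, Subtype.val_injective.comp e.injective, ?_⟩
  ext w
  simp only [Finset.mem_image, Finset.mem_univ, true_and]
  exact ⟨fun ⟨i, hi⟩ => hi ▸ (e i).2, fun hw => ⟨e.symm ⟨w, hw⟩, by simp⟩⟩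

omit [Fintype W] in
lemma exists_collapse {κ : Finset W} (h : κ.card + 1 = Fintype.card ι) :
    ∃ φ : W → ι, ∀ w ∈ κ, ∀ w', φ w' = φ w → w' = w := by
  obtain ⟨i0⟩ : Nonempty ι := Fintype.card_pos_iff.1 (by omega)
  have e : κ ≃ {i // i ≠ i0} := Fintype.equivOfCardEq (by simp [← h])
  refine ⟨fun w => if hw : w ∈ κ then (e ⟨w, hw⟩).1 else i0, fun w hw w' h' => ?_⟩
  simp only [hw, dite_true] at h'
  split_ifs at h' with hw'
  · exact congrArg Subtype.val (e.injective (Subtype.ext h'))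
  · exact absurd h'.symm (e ⟨w, hw⟩).2

omit [Fintype W] [DecidableEq ι] in
lemma bij_iff {κ : Finset W} (h : κ.card + 1 = Fintype.card ι) {φ : W → ι}
    (hφ : ∀ w ∈ κ, ∀ w', φ w' = φ w → w' = w) {ψ : ι → W} (hψ : Injective ψ) :
    Bijective (φ ∘ ψ) ↔ κ ⊆ Finset.univ.image ψ := by
  constructor
  · intro hb k hk
    obtain ⟨i, hi⟩ := hb.2 (φ k)
    exact Finset.mem_image.2 ⟨i, Finset.mem_univ _, hφ k hk _ hi⟩
  · intro hs
    refine Finite.injective_iff_bijective.1 (fun i j hij => hψ ?_)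
    by_cases hi : ψ i ∈ κ
    · exact (hφ _ hi _ hij.symm).symm
    by_cases hj : ψ j ∈ κ
    · exact hφ _ hj _ hij
    have hc : (Finset.univ.image ψ \ κ).card = 1 := by
      rw [Finset.card_sdiff_of_subset hs, Finset.card_image_of_injective _ hψ, Finset.card_univ]
      omega
    exact Finset.card_le_one.1 hc.le _ (Finset.mem_sdiff.2 ⟨by simp, hi⟩) _
      (Finset.mem_sdiff.2 ⟨by simp, hj⟩)

omit [DecidableEq W] in
lemma Maps_mono {L L' : Set (Finset W)} (h : L' ⊆ L) {m : ℕ} {g : (W → ℝ) → Γ}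
    (hg : g ∈ Maps Γ (Rz L) (Rz (Sk L m))) : g ∈ Maps Γ (Rz L') (Rz (Sk L' m)) :=
  ⟨hg.1.mono (Rz_mono h), fun x hx hx' => hg.2 x (Rz_mono h hx) ⟨hx'.1, h hx'.2.1, hx'.2.2⟩⟩

variable [HInv Γ] [Nontrivial ι]

lemma realize {I : Type*} {m : ℕ} (hm : Fintype.card ι = m + 1) (S : Finset I) (φ : I → W → ι)
    (η : I → PiG Γ ι) : ∃ w ∈ Maps Γ (Rz (univ : Set (Finset W))) (Rz (Sk univ m)),
      Htpy (Rz (univ : Set (Finset W))) ∅ w 1 ∧
      ∀ ψ : ι → W, theta ψ w = ∏ i ∈ S, η i ^ sgn Γ (φ i ∘ ψ) := by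
  classical
  induction S using Finset.induction_on with
  | empty => exact ⟨1, one_mem _, Htpy.refl continuousOn_const, fun ψ => by
      rw [Finset.prod_empty]; exact cls_one⟩
  | insert i S hi ih =>
    obtain ⟨w, hw, hw1, hw2⟩ := ih
    obtain ⟨a, ha, hae⟩ := exists_cls (η i)
    refine ⟨(fun x => a (pm (φ i) x)) * w, mul_mem (collapse_mem hm _ ha) hw, ?_, fun ψ => ?_⟩
    · simpa using (collapse_null (φ i) ha).mul hw1
    · rw [theta_mul isLowerSet_univ hm (mem_univ _) (collapse_mem hm _ ha) hw, theta_collapse,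
        theta_sgn _ ha, hae, hw2, Finset.prod_insert hi]

lemma cocycle {m : ℕ} (hm : Fintype.card ι = m + 1) {ρ : Finset W} (hρ : ρ.card = m + 2)
    {ψ : W → ι → W} (hψ : ∀ v ∈ ρ, Injective (ψ v) ∧ Finset.univ.image (ψ v) = ρ.erase v) :
    ∃ ε : W → ℤ, (∀ v ∈ ρ, Odd (ε v)) ∧
      ∀ g ∈ Maps Γ (Rz (Iic ρ)) (Rz (Sk (Iic ρ) m)), ∏ v ∈ ρ, theta (ψ v) g ^ ε v = 1 := by
  obtain ⟨v0, hv0⟩ : ρ.Nonempty := Finset.card_pos.1 (by omega)
  have hκ : ∀ v ∈ ρ.erase v0, ((ρ.erase v0).erase v).card + 1 = Fintype.card ι := by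
    intro v hv
    rw [Finset.card_erase_add_one hv, Finset.card_erase_of_mem hv0, hρ, hm]; rfl
  have hex : ∀ v ∈ ρ.erase v0, ∃ φ : W → ι,
      ∀ w ∈ (ρ.erase v0).erase v, ∀ w', φ w' = φ w → w' = w :=
    fun v hv => exists_collapse (hκ v hv)
  choose! φ hφ using hex
  have hbij : ∀ v ∈ ρ.erase v0, ∀ u ∈ ρ, Bijective (φ v ∘ ψ u) ↔ u = v0 ∨ u = v := by
    intro v hv u hu
    rw [bij_iff (hκ v hv) (hφ v hv) (hψ u hu).1, (hψ u hu).2, Finset.subset_erase]
    simp only [Finset.mem_erase, hu, and_true]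
    constructor
    · rintro ⟨-, h⟩; tauto
    · intro h
      exact ⟨(Finset.erase_subset _ _).trans (Finset.erase_subset _ _), by tauto⟩
  have hodd : ∀ a : ℤ, a * a = 1 → Odd a := fun a ha =>
    (Int.odd_mul.1 (ha ▸ odd_one)).1
  refine ⟨fun v => if v = v0 then 1 else -sgn Γ (φ v ∘ ψ v) * sgn Γ (φ v ∘ ψ v0), ?_, ?_⟩
  · intro v hv
    simp only
    split_ifs with h
    · exact odd_one
    · have hv' : v ∈ ρ.erase v0 := Finset.mem_erase.2 ⟨h, hv⟩
      exact (hodd _ (sgn_sq ((hbij v hv' v hv).2 (Or.inr rfl)))).neg.mul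
        (hodd _ (sgn_sq ((hbij v hv' v0 hv0).2 (Or.inl rfl))))
  · intro g hg
    obtain ⟨w, hw, -, hw2⟩ := realize hm (ρ.erase v0) φ
      (fun v => theta (ψ v) g ^ (-sgn Γ (φ v ∘ ψ v)))
    have hw' := Maps_mono (subset_univ (Iic ρ)) hw
    have hmem : ∀ v ∈ ρ, Finset.univ.image (ψ v) ∈ Iic ρ := fun v hv => by
      rw [(hψ v hv).2]; exact Finset.erase_subset _ _
    have h1 := horn_theta hv0 hm hρ hψ (mul_mem hg hw') (by
      intro u hu hne
      have hu' : u ∈ ρ.erase v0 := Finset.mem_erase.2 ⟨hne, hu⟩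
      rw [theta_mul (isLowerSet_Iic ρ) hm (hmem u hu) hg hw', hw2, Finset.prod_eq_single u]
      · rw [← _root_.zpow_mul, neg_mul, sgn_sq ((hbij u hu' u hu).2 (Or.inr rfl))]
        simp
      · intro v hv hvu
        rw [sgn_zero (f := φ v ∘ ψ u), zpow_zero]
        rw [hbij v hv u hu]
        rintro (h | h)
        · exact hne h
        · exact hvu h.symm
      · exact fun h => absurd hu' h)
    rw [theta_mul (isLowerSet_Iic ρ) hm (hmem v0 hv0) hg hw', hw2] at h1
    rw [← Finset.mul_prod_erase ρ _ hv0, ← h1]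
    simp only [if_true, zpow_one]
    congr 1
    refine Finset.prod_congr rfl (fun v hv => ?_)
    rw [if_neg (Finset.ne_of_mem_erase hv), _root_.zpow_mul]

omit [Fintype W] in
lemma bd_apply_of_Sup {S : Set (Finset W)} [Fintype S] {x : Ch W} (hx : x ∈ Sup S)
    (B : Finset W) :
    bd x B = ∑ A : S, x A * if B ⊆ A.1 ∧ B.card + 1 = A.1.card then 1 else 0 := by
  have h1 : x = ∑ A : S, x A • Finsupp.single A.1 (1 : F2) := by
    ext B
    rw [Finsupp.finsetSum_apply]
    by_cases hB : B ∈ S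
    · rw [Finset.sum_eq_single ⟨B, hB⟩]
      · simp
      · intro A _ hA
        have : A.1 ≠ B := fun h => hA (Subtype.ext h)
        simp [this]
      · simp
    · rw [(Finsupp.mem_supported' F2 x).1 hx B hB]
      refine (Finset.sum_eq_zero (fun A _ => ?_)).symm
      have : A.1 ≠ B := fun h => hB (h ▸ A.2)
      simp [this]
  conv_lhs => rw [h1]
  rw [map_sum, Finsupp.finsetSum_apply]
  refine Finset.sum_congr rfl (fun A _ => ?_)
  rw [map_smul, Finsupp.smul_apply, bd_single_apply, smul_eq_mul]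

omit [Nontrivial ι] in
/-- One step of obstruction theory. -/
lemma obstruction_step {N : Set (Finset W)} (hN : IsLowerSet N) {m : ℕ} (hac : Acyc N (m + 2))
    {g : (W → ℝ) → Γ} (hg : g ∈ Maps Γ (Rz N) (Rz (Sk N (m + 1)))) :
    ∃ d : ℕ, Odd d ∧ Htpy (Rz (Sk N (m + 2))) ∅ (g ^ d) 1 := by
  classical
  have hm : Fintype.card (Fin (m + 2)) = m + 1 + 1 := Fintype.card_fin _
  let I := {A | A ∈ N ∧ A.card = m + 1}
  let J := {A | A ∈ N ∧ A.card = m + 2}
  let K := {A | A ∈ N ∧ A.card = m + 2 + 1}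
  have hψex : ∀ σ : J, ∃ ψ : Fin (m + 2) → W, Injective ψ ∧ Finset.univ.image ψ = σ.1 :=
    fun σ => exists_param (by rw [σ.2.2, hm])
  choose ψ hψ using hψex
  have hφex : ∀ κ : I, ∃ φ : W → Fin (m + 2), ∀ w ∈ κ.1, ∀ w', φ w' = φ w → w' = w :=
    fun κ => exists_collapse (by rw [κ.2.2, hm])
  choose φ hφ using hφex
  have hodd : ∀ a : ℤ, a * a = 1 → (a : ZMod 2) = 1 := fun a ha =>
    ZMod.intCast_eq_one_iff_odd.2 (Int.odd_mul.1 (ha ▸ odd_one)).1
  set D0 : Matrix J I ℤ := Matrix.of fun σ κ => sgn Γ (φ κ ∘ ψ σ) with hD0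
  have hD0' : ∀ σ κ, (D0 σ κ : ZMod 2) = if κ.1 ⊆ σ.1 ∧ κ.1.card + 1 = σ.1.card then 1 else 0 := by
    intro σ κ
    have hb := bij_iff (ι := Fin (m + 2)) (by rw [κ.2.2, hm]) (hφ κ) (hψ σ).1
    rw [(hψ σ).2] at hb
    have hc : κ.1.card + 1 = σ.1.card := by rw [κ.2.2, σ.2.2]
    simp only [hD0, Matrix.of_apply, hc, and_true]
    split_ifs with h
    · exact hodd _ (sgn_sq (hb.2 h))
    · rw [sgn_zero (fun h' => h (hb.1 h')), Int.cast_zero]
  have hD1ex : ∀ ρ : K, ∃ d : J → ℤ,
      (∀ σ, (d σ : ZMod 2) = if σ.1 ⊆ ρ.1 ∧ σ.1.card + 1 = ρ.1.card then 1 else 0) ∧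
      ∀ g ∈ Maps Γ (Rz (Iic ρ.1)) (Rz (Sk (Iic ρ.1) (m + 1))),
        ∑ σ, d σ • Additive.ofMul (theta (ψ σ) g) = 0 := by
    intro ρ
    have hF : ∀ v ∈ ρ.1, ρ.1.erase v ∈ J := fun v hv =>
      ⟨hN (Finset.erase_subset _ _) ρ.2.1, by rw [Finset.card_erase_of_mem hv, ρ.2.2]; rfl⟩
    obtain ⟨v0, hv0⟩ : ρ.1.Nonempty := Finset.card_pos.1 (by rw [ρ.2.2]; omega)
    set F : W → J := fun v => if hv : v ∈ ρ.1 then ⟨_, hF v hv⟩ else ⟨_, hF v0 hv0⟩ with hFdef
    have hFv : ∀ v ∈ ρ.1, (F v).1 = ρ.1.erase v := fun v hv => by simp [hFdef, hv]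
    obtain ⟨ε, hε, hco⟩ := cocycle (Γ := Γ) hm ρ.2.2 (ψ := fun v => ψ (F v))
      (fun v hv => ⟨(hψ _).1, (hψ _).2.trans (hFv v hv)⟩)
    refine ⟨fun σ => ∑ v ∈ ρ.1, if F v = σ then ε v else 0, fun σ => ?_, fun g hg => ?_⟩
    · rw [← bd_single_apply, bd_single, Finsupp.finsetSum_apply, Int.cast_sum]
      refine Finset.sum_congr rfl (fun v hv => ?_)
      rw [Finsupp.single_apply, ← hFv v hv]
      by_cases h : F v = σ
      · rw [if_pos h, if_pos (congrArg Subtype.val h)]
        exact ZMod.intCast_eq_one_iff_odd.2 (hε v hv)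
      · rw [if_neg h, if_neg (fun h' => h (Subtype.ext h')), Int.cast_zero]
    · have h1 := congrArg Additive.ofMul (hco g hg)
      rw [ofMul_prod, ofMul_one] at h1
      rw [← h1]
      simp only [Finset.sum_smul]
      rw [Finset.sum_comm]
      refine Finset.sum_congr rfl (fun v _ => ?_)
      simp [ite_smul]
  choose D1 hD1 hD1co using hD1ex
  have hψN : ∀ σ : J, Finset.univ.image (ψ σ) ∈ N := fun σ => (hψ σ).2 ▸ σ.2.1
  have hreal : ∀ η : I → Additive (PiG Γ (Fin (m + 2))),
      ∃ w ∈ Maps Γ (Rz (univ : Set (Finset W))) (Rz (Sk univ (m + 1))),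
      Htpy (Rz (univ : Set (Finset W))) ∅ w 1 ∧
      (fun σ => Additive.ofMul (theta (ψ σ) w)) = act D0 η := by
    intro η
    obtain ⟨w, hw, hw1, hw2⟩ := realize hm Finset.univ φ (fun κ => Additive.toMul (η κ))
    refine ⟨w, hw, hw1, ?_⟩
    ext σ
    rw [hw2, ofMul_prod]
    simp [act, hD0]
  have hcoc : ∀ g ∈ Maps Γ (Rz N) (Rz (Sk N (m + 1))),
      act (Matrix.of D1) (fun σ => Additive.ofMul (theta (ψ σ) g)) = 0 := by
    intro g hg
    funext ρ
    exact hD1co ρ g (Maps_mono (fun _ hB => hN hB ρ.2.1) hg)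
  obtain ⟨d, hd, η, hη⟩ := odd_kills D0 (Matrix.of D1) (by
      intro c hc
      set z : Ch W := ∑ σ : J, c σ • Finsupp.single σ.1 (1 : F2) with hz
      have hzS : z ∈ Sup J :=
        Submodule.sum_mem _ (fun σ _ => Submodule.smul_mem _ _ (single_mem_Sup σ.2))
      have hzc : ∀ σ : J, z σ = c σ := by
        intro σ
        rw [hz, Finsupp.finsetSum_apply, Finset.sum_eq_single σ]
        · simp
        · intro A _ hA
          have : A.1 ≠ σ.1 := fun h => hA (Subtype.ext h)
          simp [this]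
        · simp
      have hbz : bd z = 0 := by
        ext B
        by_cases hB : B ∈ I
        · rw [bd_apply_of_Sup hzS]
          have := congrFun hc ⟨B, hB⟩
          simpa only [vecMul, dotProduct, Matrix.map_apply, hD0', hzc, Pi.zero_apply,
            Finsupp.coe_zero] using this
        · exact (Finsupp.mem_supported' F2 _).1 (bd_mem_Sup hN hzS) B hB
      obtain ⟨c', hc', hbc'⟩ := hac z hzS hbz
      refine ⟨fun ρ => c' ρ.1, funext fun σ => ?_⟩
      rw [← hzc, ← hbc', bd_apply_of_Sup (S := K) hc']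
      simp only [vecMul, dotProduct, Matrix.map_apply, Matrix.of_apply, hD1])
    (fun η => by
      obtain ⟨w, hw, -, hw2⟩ := hreal η
      rw [← hw2]
      exact hcoc w (Maps_mono (subset_univ _) hw))
    (fun σ => Additive.ofMul (theta (ψ σ) g)) (hcoc g hg)
  refine ⟨d, hd, ?_⟩
  obtain ⟨w, hw, hw1, hw2⟩ := hreal ((-1 : ℤ) • η)
  rw [act_smul', hη] at hw2
  have hw' := Maps_mono (subset_univ N) hw
  have hgw := mul_mem (pow_mem hg d) hw'
  have h1 : Htpy (Rz (Sk N (m + 2))) (Rz (Sk (Sk N (m + 2)) (m + 1))) (g ^ d * w) (fun _ => 1) := by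
    refine glue_null (Sk.lower hN _) (fun A hA => hA.2) ?_ ?_
    · exact fun x hx => hgw.2 x ⟨hx.1, hx.2.1.1⟩ ⟨hx.1, hx.2.1.1, hx.2.2⟩
    · intro σ hσ hcard
      have := null_of_theta hN hm (hψ ⟨σ, hσ.1, hcard⟩).1 (hψN _) hgw (by
        rw [theta_mul hN hm (hψN _) (pow_mem hg d) hw', theta_pow hN hm (hψN _) hg]
        have h2 := congrFun hw2 ⟨σ, hσ.1, hcard⟩
        apply Additive.ofMul.injective
        rw [ofMul_mul, h2]
        simp)
      rwa [(hψ _).2] at this
  have h2 : Htpy (Rz (Sk N (m + 2))) ∅ (g ^ d * 1) (g ^ d * w) :=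
    (Htpy.refl ((pow_mem hg d).1.mono (Rz_mono (fun _ h => h.1)))).mul
      (hw1.symm.mono (Rz_mono (subset_univ _)) (by simp))
  rw [mul_one] at h2
  exact h2.trans h1.free

omit [Fintype ι] [DecidableEq ι] [Nontrivial ι] in
/-- Vertices are joined in the realisation when reduced `H₀` vanishes. -/
lemma joined_vertices {N : Set (Finset W)} (hN : IsLowerSet N) (hac : Acyc N 1) {v w : W}
    (hv : {v} ∈ N) (hw : {w} ∈ N) :
    JoinedIn (Rz N) (Pi.single v (1 : ℝ)) (Pi.single w 1) := by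
  classical
  set good : W → Prop := fun x => JoinedIn (Rz N) (Pi.single v (1 : ℝ)) (Pi.single x 1) with hgood
  set χ : Ch W →ₗ[F2] F2 := lin (fun A => if ∃ x, good x ∧ A = {x} then 1 else 0) with hχ
  have hχ1 : ∀ x, χ (Finsupp.single {x} 1) = if good x then 1 else 0 := by
    intro x
    simp [hχ]
  obtain ⟨c, hc, hbc⟩ := hac (Finsupp.single {v} 1 + Finsupp.single {w} 1)
    (add_mem (single_mem_Sup ⟨hv, by simp⟩) (single_mem_Sup ⟨hw, by simp⟩))
    (by simp [bd_single, add_self_F2])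
  have h0 : χ (bd c) = 0 := by
    refine (Submodule.mem_bot F2).1 (map_Sup (f := χ ∘ₗ bd) (T := ⊥) (fun A hA => ?_) hc)
    obtain ⟨x, y, hxy, rfl⟩ := Finset.card_eq_two.1 hA.2
    have hj : JoinedIn (Rz N) (Pi.single x (1 : ℝ)) (Pi.single y 1) := by
      refine JoinedIn.of_segment_subset ?_
      rw [segment_eq_image]
      rintro _ ⟨t, ht, rfl⟩
      exact line_mem_Rz hN hA.1 (single_mem_stdSimplex ℝ x) (single_mem_stdSimplex ℝ y)
        (by simp [supp_single]) (by simp [supp_single]) ht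
    have hiff : good x ↔ good y := ⟨fun h => h.trans hj, fun h => h.trans hj.symm⟩
    have e1 : ({x, y} : Finset W).erase x = {y} := Finset.erase_insert (by simpa using hxy)
    have e2 : ({x, y} : Finset W).erase y = {x} := by
      rw [Finset.pair_comm]; exact Finset.erase_insert (by simpa using hxy.symm)
    rw [Submodule.mem_bot, LinearMap.comp_apply, bd_single, Finset.sum_pair hxy, e1, e2, map_add,
      hχ1, hχ1]
    simp only [hiff]
    exact add_self_F2 _
  rw [hbc, map_add, hχ1, hχ1, if_pos (JoinedIn.refl (single_mem_Rz hv))] at h0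
  by_contra h
  rw [if_neg h] at h0
  exact absurd h0 (by decide)

omit [Fintype W] [DecidableEq W] [Monoid Γ] [ContinuousMul Γ] [HInv Γ] in
lemma htpy_of_joinedIn {E P : Type*} [TopologicalSpace E] [TopologicalSpace P] {T : Set E}
    {a b : E} (h : JoinedIn T a b) {F : E → Γ} (hF : ContinuousOn F T) (X : Set P) :
    Htpy X ∅ (fun _ => F a) (fun _ => F b) := by
  obtain ⟨γ, hγ⟩ := h
  refine ⟨fun p => F (γ.extend p.2), ?_, by simp, by simp, by simp⟩
  refine hF.comp (γ.continuous_extend.comp continuous_snd).continuousOn ?_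
  rintro ⟨x, t⟩ ⟨-, ht⟩
  simp only
  rw [γ.extend_apply ht]
  exact hγ _

omit [Fintype ι] [DecidableEq ι] [Nontrivial ι] in
/-- Main theorem of obstruction theory. -/
theorem odd_power_null {N : Set (Finset W)} (hN : IsLowerSet N) {u : (W → ℝ) → Γ}
    (hu : ContinuousOn u (Rz N)) {v0 : W} (hv0 : {v0} ∈ N)
    (h0 : Htpy (univ : Set Unit) ∅ (fun _ => u (Pi.single v0 1)) (fun _ => 1)) (n : ℕ)
    (hac : ∀ m, 1 ≤ m → m ≤ n → Acyc N m) :
    ∃ d : ℕ, Odd d ∧ Htpy (Rz (Sk N n)) ∅ (u ^ d) 1 := by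
  induction n with
  | zero =>
    refine ⟨1, odd_one, ?_⟩
    have : Rz (Sk N 0) = ∅ := by
      ext x
      simp only [mem_empty_iff_false, iff_false]
      intro hx
      have := (supp_nonempty hx.1).card_pos
      have := hx.2.2
      omega
    rw [this]
    exact Htpy.of_eqOn (continuousOn_empty _) (eqOn_empty _ _)
  | succ n ih =>
    cases n with
    | zero =>
      refine ⟨1, odd_one, ?_⟩
      rw [pow_one]
      refine (glue_null (n := 0) (Sk.lower hN _) (fun A hA => hA.2) ?_ ?_).free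
      · intro x hx
        have := (supp_nonempty hx.1).card_pos
        have := hx.2.2
        omega
      · intro σ hσ hcard
        obtain ⟨v, rfl⟩ := Finset.card_eq_one.1 hcard
        have h1 := htpy_of_joinedIn (joined_vertices hN (hac 1 le_rfl le_rfl) hσ.1 hv0) hu
          (Rz (Iic ({v} : Finset W)))
        have h2 := h0.pull (Y := Rz (Iic ({v} : Finset W))) (Y' := ∅) (φ := fun _ => ())
          continuousOn_const (mapsTo_univ _ _) (by simp)
        refine ((h1.trans h2).congr (fun x hx => ?_) (fun _ _ => rfl)).mono le_rfl ?_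
        · congr 1
          rw [mem_Rz_Iic] at hx
          have h3 := hx.1.2
          rw [Finset.sum_eq_single v (fun w _ hw => hx.2 w (by simpa using hw)) (by simp)] at h3
          ext w
          by_cases hw : w = v
          · simp [hw, h3]
          · simp [hw, hx.2 w (by simpa using hw)]
        · rintro x ⟨-, hx⟩
          have h3 := Finset.card_lt_card (mem_Iio.1 hx.2)
          have := (supp_nonempty hx.1).card_pos
          simp only [Finset.card_singleton] at h3
          omega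
    | succ n =>
      obtain ⟨d, hd, h1⟩ := ih (fun m h1 h2 => hac m h1 (by omega))
      obtain ⟨g, hg1, hg2⟩ := hep hN (Sk.lower hN _) (hu.pow d) h1
      obtain ⟨d', hd', h2⟩ := obstruction_step hN (hac (n + 2) (by omega) le_rfl)
        (g := g) ⟨hg2.contOn_right, fun x _ hx => hg1 x hx⟩
      refine ⟨d * d', hd.mul hd', ?_⟩
      rw [pow_mul]
      exact ((hg2.pow d').mono (Rz_mono (fun _ h => h.1)) (by simp)).trans h2

end Pool.Agent.Work.MP_653b6e_gt
end

-- merged part: Pool.Agent.Work.MP_653b6e_gt.Box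
section
/-! The box complex: equivariant self-maps that are null on skeleta. -/

namespace Pool.Agent.Work.MP_653b6e_gt

open Set Topology Function

section moore

variable {X : Type*} [TopologicalSpace X] {p q r p' q' r' : X}

/-- `b` is the reversal of the image of `a` under `τ`. -/
def Sym (τ : X → X) (a : MP p q) (b : MP p' q') : Prop :=
  b.len = a.len ∧ ∀ t, b.fn t = τ (a.fn (a.len - t))

lemma Sym.trans {τ : X → X} {a : MP p q} {b : MP q r} {a' : MP q' p'} {b' : MP r' q'}
    (ha : Sym τ a a') (hb : Sym τ b b') : Sym τ (a.trans b) (b'.trans a') := by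
  refine ⟨by simp [ha.1, hb.1, add_comm], fun t => ?_⟩
  rcases le_total t b'.len with h | h
  · rw [MP.trans_fn_of_le _ _ h, hb.2, MP.trans_fn_of_ge _ _ (by
      rw [hb.1] at h; simp; linarith)]
    congr 2; simp; ring
  · rw [MP.trans_fn_of_ge _ _ h, ha.2, MP.trans_fn_of_le _ _ (by
      rw [hb.1] at h; simp; linarith)]
    congr 2; simp [hb.1]; ring

lemma Sym.symm {τ : X → X} {a : MP p q} {a' : MP p' q'} (ha : Sym τ a a') :
    Sym τ a.symm a'.symm := by
  refine ⟨ha.1, fun t => ?_⟩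
  rw [MP.symm_fn, ha.2, MP.symm_fn, MP.symm_len, ha.1]

lemma Htpy.mtrans {E : Type*} [TopologicalSpace E] {A A' : Set E} {f g : E → MP p q}
    {f' g' : E → MP q r} (H : Htpy A A' f g) (K : Htpy A A' f' g') :
    Htpy A A' (fun x => (f x).trans (f' x)) (fun x => (g x).trans (g' x)) :=
  (H.prodMk K).push (F := fun x : MP p q × MP q r => x.1.trans x.2) MP.continuous_trans

lemma htpy_trans_symm {E : Type*} [TopologicalSpace E] (A : Set E) (a : MP p q) :
    Htpy A ∅ (fun _ => a.trans a.symm) (fun _ => MP.refl p) :=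
  ⟨fun x => a.contr x.2, (MP.continuous_contr.comp
    (continuous_const.prodMk continuous_snd)).continuousOn, fun _ _ => a.contr_zero,
    fun _ _ => a.contr_one, by simp⟩

lemma htpy_symm_trans {E : Type*} [TopologicalSpace E] (A : Set E) (a : MP p q) :
    Htpy A ∅ (fun _ => a.symm.trans a) (fun _ => MP.refl q) := by
  simpa [MP.symm_symm] using htpy_trans_symm A a.symm

lemma contOn_ev {Q : Type*} [TopologicalSpace Q] {s : Set Q} {h : Q → ℝ} (hh : Continuous h)
    {F : Q → MP p q} (hF : ContinuousOn F ((s ∩ {x | 0 ≤ h x}) ∩ {x | h x ≤ 1})) :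
    ContinuousOn (fun x => (F x).fn ((F x).len * h x)) s := by
  have h0 : ∀ x, h x ≤ 0 → (F x).fn ((F x).len * h x) = p := fun x hx =>
    (F x).src _ (mul_nonpos_of_nonneg_of_nonpos (F x).len_nonneg hx)
  have h1 : ∀ x, 1 ≤ h x → (F x).fn ((F x).len * h x) = q := fun x hx =>
    (F x).tgt _ (le_mul_of_one_le_right (F x).len_nonneg hx)
  have h2 : ContinuousOn (fun x => if 1 ≤ h x then q else (F x).fn ((F x).len * h x))
      (s ∩ {x | 0 ≤ h x}) := by
    refine contOn_ite_le (φ := fun _ => 1) continuousOn_const hh.continuousOn continuousOn_const ?_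
      (fun x _ hx => (h1 x hx.le).symm)
    exact MP.continuous_ev.comp_continuousOn
      (hF.prodMk ((MP.continuous_len.comp_continuousOn hF).mul hh.continuousOn))
  have h3 := contOn_ite_le (s := s) (ψ := fun _ => 0) (f := fun _ => p) hh.continuousOn
    continuousOn_const continuousOn_const h2 (fun x _ hx => by
      rw [if_neg (by rw [hx]; norm_num), h0 x hx.le])
  refine h3.congr (fun x _ => ?_)
  simp only
  split_ifs with h4 h5
  · exact h0 x h4
  · exact h1 x h5
  · rfl

end moore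

variable {V : Type*} [Fintype V] [DecidableEq V] (G : SimpleGraph V)

omit [DecidableEq V] in
lemma mem_box {x : V ⊕ V → ℝ} : x ∈ Rz (boxK G) ↔ (∀ s, 0 ≤ x s) ∧
    (∑ a, x (Sum.inl a) + ∑ b, x (Sum.inr b) = 1) ∧
    ∀ a b, x (Sum.inl a) ≠ 0 → x (Sum.inr b) ≠ 0 → G.Adj a b := by
  simp only [Rz, stdSimplex, boxK, mem_ofPred_eq, mem_supp, Fintype.sum_sum_type, and_assoc]

/-- The realisation of the box complex, as a type. -/
abbrev YT := ↥(Rz (boxK G))

/-- The swap. -/
def tau (y : YT G) : YT G := ⟨fun s => y.1 s.swap, by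
  obtain ⟨h1, h2, h3⟩ := (mem_box G).1 y.2
  exact (mem_box G).2 ⟨fun s => h1 _, by simpa [add_comm] using h2,
    fun a b ha hb => (h3 b a hb ha).symm⟩⟩

omit [DecidableEq V] in
lemma tau_tau (y : YT G) : tau G (tau G y) = y := by
  ext s; simp [tau]

omit [DecidableEq V] in
lemma continuous_tau : Continuous (tau G) :=
  Continuous.subtype_mk (continuous_pi (fun s =>
    (continuous_apply s.swap).comp continuous_subtype_val)) _

/-- Pairs of completely joined probability vectors. -/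
def ZS : Set ((V → ℝ) × (V → ℝ)) :=
  {z | z.1 ∈ stdSimplex ℝ V ∧ z.2 ∈ stdSimplex ℝ V ∧ ∀ a b, z.1 a ≠ 0 → z.2 b ≠ 0 → G.Adj a b}

/-- Swap on pairs. -/
def zswap (z : ZS G) : ZS G :=
  ⟨z.1.swap, z.2.2.1, z.2.1, fun a b ha hb => (z.2.2.2 b a hb ha).symm⟩

/-- Clamp. -/
noncomputable def cl (s : ℝ) : ℝ := max 0 (min s 1)

/-- Hat function. -/
noncomputable def hat (s : ℝ) : ℝ := max 0 (1 - |s|)

lemma cl_nonneg (s : ℝ) : 0 ≤ cl s := le_max_left _ _
lemma hat_nonneg (s : ℝ) : 0 ≤ hat s := le_max_left _ _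
lemma cl_of_nonpos {s : ℝ} (h : s ≤ 0) : cl s = 0 := max_eq_left ((min_le_left _ _).trans h)
lemma cl_of_one_le {s : ℝ} (h : 1 ≤ s) : cl s = 1 := by
  rw [cl, min_eq_right h, max_eq_right zero_le_one]
lemma hat_of_le {s : ℝ} (h : s ≤ -1) : hat s = 0 :=
  max_eq_left (by have := neg_le_abs s; linarith)
lemma hat_of_ge {s : ℝ} (h : 1 ≤ s) : hat s = 0 :=
  max_eq_left (by have := le_abs_self s; linarith)
lemma hat_neg (s : ℝ) : hat (-s) = hat s := by simp [hat]

lemma weights_sum (t : ℝ) : hat (t - 2) + cl (t - 2) + (cl (1 - t) + hat (t - 1)) = 1 := by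
  have e : ∀ u : ℝ, 0 ≤ u → hat u + cl u = 1 := fun u hu => by
    rcases le_total u 1 with h | h
    · rw [hat, cl, abs_of_nonneg hu, max_eq_right (sub_nonneg.2 h), min_eq_left h, max_eq_right hu,
        sub_add_cancel]
    · rw [hat_of_ge h, cl_of_one_le h, zero_add]
  rcases le_total t 1 with h1 | h1
  · have := e (1 - t) (sub_nonneg.2 h1)
    rw [← hat_neg, neg_sub] at this
    rw [hat_of_le (by linarith), cl_of_nonpos (by linarith)]
    linarith
  rcases le_total 2 t with h2 | h2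
  · rw [e _ (sub_nonneg.2 h2), cl_of_nonpos (by linarith), hat_of_ge (by linarith), add_zero,
      add_zero]
  · rw [cl_of_nonpos (sub_nonpos.2 h2), cl_of_nonpos (sub_nonpos.2 h1), hat, hat,
      abs_of_nonpos (sub_nonpos.2 h2), abs_of_nonneg (sub_nonneg.2 h1),
      max_eq_right (by linarith), max_eq_right (by linarith)]
    ring

/-- The basic path from the south pole to the north pole through a pair. -/
noncomputable def gamF (e : V) (z : (V → ℝ) × (V → ℝ)) (t : ℝ) : V ⊕ V → ℝ :=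
  Sum.elim (hat (t - 2) • z.1 + cl (t - 2) • Pi.single e 1)
    (cl (1 - t) • Pi.single e 1 + hat (t - 1) • z.2)

lemma gamF_mem (e : V) (z : ZS G) (t : ℝ) : gamF e z.1 t ∈ Rz (boxK G) := by
  obtain ⟨⟨a, b⟩, ha, hb, hab⟩ := z
  have he := single_mem_stdSimplex ℝ e
  refine (mem_box G).2 ⟨?_, ?_, ?_⟩
  · rintro (s | s)
    · exact add_nonneg (mul_nonneg (hat_nonneg _) (ha.1 s)) (mul_nonneg (cl_nonneg _) (he.1 s))
    · exact add_nonneg (mul_nonneg (cl_nonneg _) (he.1 s)) (mul_nonneg (hat_nonneg _) (hb.1 s))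
  · simp only [gamF, Sum.elim_inl, Sum.elim_inr, Pi.add_apply, Pi.smul_apply, smul_eq_mul,
      Finset.sum_add_distrib, ← Finset.mul_sum]
    rw [ha.2, hb.2, he.2]
    simpa using weights_sum t
  · intro x y hx hy
    simp only [gamF, Sum.elim_inl, Sum.elim_inr, Pi.add_apply, Pi.smul_apply, smul_eq_mul] at hx hy
    have h1 : 1 < t := by
      by_contra h
      rw [hat_of_le (by linarith), cl_of_nonpos (by linarith)] at hx
      simp at hx
    have h2 : t < 2 := by
      by_contra h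
      rw [hat_of_ge (by linarith), cl_of_nonpos (by linarith)] at hy
      simp at hy
    rw [cl_of_nonpos (by linarith)] at hx hy
    refine hab x y (fun h => ?_) (fun h => ?_)
    · simp only at h; simp [h] at hx
    · simp only at h; simp [h] at hy

omit [Fintype V] in
lemma continuous_gamF (e : V) :
    Continuous (fun x : ((V → ℝ) × (V → ℝ)) × ℝ => gamF e x.1 x.2) := by
  refine continuous_pi ?_
  rintro (s | s) <;>
  · simp only [gamF, Sum.elim_inl, Sum.elim_inr, Pi.add_apply, Pi.smul_apply, smul_eq_mul, hat, cl]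
    fun_prop

/-- South pole. -/
def south (e : V) : YT G := ⟨Sum.elim 0 (Pi.single e 1), (mem_box G).2
  ⟨by rintro (s | s); exacts [le_rfl, (single_mem_stdSimplex ℝ e).1 s], by simp, by simp⟩⟩

/-- North pole. -/
def north (e : V) : YT G := ⟨Sum.elim (Pi.single e 1) 0, (mem_box G).2
  ⟨by rintro (s | s); exacts [(single_mem_stdSimplex ℝ e).1 s, le_rfl], by simp, by simp⟩⟩

lemma tau_south (e : V) : tau G (south G e) = north G e := by
  ext (s | s) <;> rfl

lemma tau_north (e : V) : tau G (north G e) = south G e := by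
  ext (s | s) <;> rfl

/-- The basic path as a Moore path. -/
noncomputable def gam (e : V) (z : ZS G) : MP (south G e) (north G e) where
  len := 3
  fn := ⟨fun t => ⟨gamF e z.1 t, gamF_mem G e z t⟩,
    ((continuous_gamF e).comp (continuous_const.prodMk continuous_id)).subtype_mk _⟩
  len_nonneg := by norm_num
  src t ht := by
    apply Subtype.ext
    simp only [ContinuousMap.coe_mk, gamF, south]
    rw [hat_of_le (by linarith), cl_of_nonpos (by linarith), cl_of_one_le (by linarith),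
      hat_of_le (by linarith)]
    simp
  tgt t ht := by
    apply Subtype.ext
    simp only [ContinuousMap.coe_mk, gamF, north]
    rw [hat_of_ge (by linarith), cl_of_one_le (by linarith), cl_of_nonpos (by linarith),
      hat_of_ge (by linarith)]
    simp

lemma continuous_gam (e : V) : Continuous (gam G e) :=
  MP.continuous_of continuous_const (((continuous_gamF e).comp
    ((continuous_subtype_val.comp continuous_fst).prodMk continuous_snd)).subtype_mk _)

lemma sym_gam (e : V) (z : ZS G) : Sym (tau G) (gam G e z) (gam G e (zswap G z)) := by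
  refine ⟨rfl, fun t => Subtype.ext ?_⟩
  have e1 : (3 : ℝ) - t - 2 = 1 - t := by ring
  have e2 : (1 : ℝ) - (3 - t) = t - 2 := by ring
  have e3 : hat (3 - t - 1) = hat (t - 2) := by rw [← hat_neg]; congr 1; ring
  have e4 : hat (1 - t) = hat (t - 1) := by rw [← hat_neg]; congr 1; ring
  ext (s | s)
  · simp [gam, gamF, tau, zswap, e2, e3, add_comm]
  · simp [gam, gamF, tau, zswap, e1, e4, add_comm]

/-- The symmetric odd iterate. -/
noncomputable def Gam (e : V) (z0 : ZS G) : ℕ → ZS G → MP (south G e) (north G e)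
  | 0, z => gam G e z
  | m + 1, z => ((gam G e z).trans (gam G e z0).symm).trans
      ((Gam e z0 m z).trans ((gam G e (zswap G z0)).symm.trans (gam G e z)))

lemma continuous_Gam (e : V) (z0 : ZS G) (m : ℕ) : Continuous (Gam G e z0 m) := by
  induction m with
  | zero => exact continuous_gam G e
  | succ m ih =>
    exact MP.continuous_trans.comp ((MP.continuous_trans.comp
      ((continuous_gam G e).prodMk continuous_const)).prodMk (MP.continuous_trans.comp
      (ih.prodMk (MP.continuous_trans.comp (continuous_const.prodMk (continuous_gam G e))))))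

lemma sym_Gam (e : V) (z0 : ZS G) (m : ℕ) (z : ZS G) :
    Sym (tau G) (Gam G e z0 m z) (Gam G e z0 m (zswap G z)) := by
  induction m with
  | zero => exact sym_gam G e z
  | succ m ih =>
    have h := ((sym_gam G e z).trans (sym_gam G e z0).symm).trans
      (ih.trans ((sym_gam G e (zswap G z0)).symm.trans (sym_gam G e z)))
    rw [MP.trans_assoc ((gam G e (zswap G z)).trans _)] at h
    exact h

lemma Gam_htpy (e : V) (z0 : ZS G) (A : Set (ZS G))
    (h : Htpy A ∅ (fun _ => (gam G e (zswap G z0)).symm) (fun _ => (gam G e z0).symm)) (m : ℕ) :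
    Htpy A ∅ (Gam G e z0 m) (fun z =>
      (((gam G e z).trans (gam G e z0).symm) ^ (2 * m)).trans (gam G e z)) := by
  have hg : Htpy A ∅ (gam G e) (gam G e) := Htpy.refl (continuous_gam G e).continuousOn
  induction m with
  | zero =>
    refine hg.congr (fun _ _ => rfl) (fun z _ => ?_)
    simp [MP.one_def, MP.refl_trans]
  | succ m ih =>
    refine ((hg.mtrans (Htpy.refl (f := fun _ => (gam G e z0).symm) continuousOn_const)).mtrans
      (ih.mtrans (h.mtrans hg))).congr (fun _ _ => rfl) (fun z _ => ?_)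
    simp only
    rw [show 2 * (m + 1) = 1 + 2 * m + 1 by ring, pow_add, pow_add, pow_one]
    simp only [MP.mul_def, MP.trans_assoc]

lemma Gam_null (e : V) (z0 : ZS G) (A : Set (ZS G))
    (h : Htpy A ∅ (fun _ => (gam G e (zswap G z0)).symm) (fun _ => (gam G e z0).symm)) (m : ℕ)
    (h' : Htpy A ∅ ((fun z => (gam G e z).trans (gam G e z0).symm) ^ (2 * m + 1)) 1) :
    Htpy A ∅ (Gam G e z0 m) (fun _ => gam G e z0) := by
  have h1 := Gam_htpy G e z0 A h m
  have h2 := (Htpy.refl h1.contOn_right).mtrans (htpy_symm_trans A (gam G e z0)).symm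
  have h3 := h'.mtrans (Htpy.refl (f := fun _ => gam G e z0) continuousOn_const)
  refine h1.trans ((h2.congr (fun z _ => MP.trans_refl _) (fun z _ => ?_)).trans
    (h3.congr (fun _ _ => rfl) (fun z _ => MP.refl_trans _)))
  simp only [Pi.pow_apply, pow_succ, MP.mul_def, MP.trans_assoc]

open Classical in
/-- Weights on common neighbours. -/
noncomputable def lam (a : V → ℝ) (b : V) : ℝ :=
  max (eps V - ∑ w ∈ Finset.univ.filter (fun w => ¬ G.Adj w b), a w) 0

omit [DecidableEq V] in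
lemma lam_ne {a : V → ℝ} (ha : a ∈ Rz (nbK G)) : ∃ b, lam G a b ≠ 0 := by
  classical
  obtain ⟨b, hb⟩ := ha.2
  refine ⟨b, ?_⟩
  rw [lam, Finset.sum_eq_zero]
  · exact (lt_max_of_lt_left (by simpa using eps_pos)).ne'
  · intro w hw
    by_contra h
    exact (Finset.mem_filter.1 hw).2 (hb w (mem_supp.2 h))

omit [DecidableEq V] in
lemma adj_of_lam {a : V → ℝ} (ha : a ∈ Rz (nbK G)) {x b : V} (hx : shrink a x ≠ 0)
    (hb : nrm (lam G a) b ≠ 0) : G.Adj x b := by
  classical
  rw [← mem_supp, mem_supp_shrink ha.1] at hx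
  rw [← mem_supp, supp_nrm (y := lam G a) (fun _ => le_max_right _ _) (lam_ne G ha),
    mem_supp] at hb
  by_contra h
  apply hb
  refine max_eq_right ?_
  have := Finset.single_le_sum (f := a) (s := Finset.univ.filter (fun w => ¬ G.Adj w b))
    (fun w _ => ha.1.1 w) (Finset.mem_filter.2 ⟨Finset.mem_univ x, h⟩)
  linarith

omit [DecidableEq V] in
lemma sec_mem {a : V → ℝ} (ha : a ∈ Rz (nbK G)) : (shrink a, nrm (lam G a)) ∈ ZS G :=
  ⟨shrink_mem_std ha.1, nrm_mem_std (fun _ => le_max_right _ _) (lam_ne G ha),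
    fun _ _ hx hb => adj_of_lam G ha hx hb⟩

omit [DecidableEq V] in
lemma contOn_nrm_lam : ContinuousOn (fun a => nrm (lam G a)) (Rz (nbK G)) := by
  refine contOn_nrm ?_ (fun _ _ _ => le_max_right _ _) (fun _ ha => lam_ne G ha)
  refine (continuous_pi (fun b => ?_)).continuousOn
  unfold lam
  fun_prop

/-- Approximate section of the projection to the neighbourhood complex. -/
noncomputable def sec (z0 : ZS G) : (V → ℝ) → ZS G :=
  liftTo z0 (fun a => (shrink a, nrm (lam G a)))

omit [DecidableEq V] in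
lemma contOn_sec (z0 : ZS G) : ContinuousOn (sec G z0) (Rz (nbK G)) :=
  contOn_liftTo z0 ((contOn_shrink.mono Rz_subset_std).prodMk (contOn_nrm_lam G))
    (fun _ ha => sec_mem G ha)

omit [DecidableEq V] in
lemma fst_mem (z : ZS G) : z.1.1 ∈ Rz (nbK G) := by
  obtain ⟨b, hb⟩ := supp_nonempty z.2.2.1
  exact ⟨z.2.1, b, fun a ha => z.2.2.2 a b (mem_supp.1 ha) (mem_supp.1 hb)⟩

omit [DecidableEq V] in
lemma htpy_sec (z0 : ZS G) : Htpy (univ : Set (ZS G)) ∅ id (fun z => sec G z0 z.1.1) := by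
  have hG : ContinuousOn (liftTo z0 (fun z => z)) (ZS G) :=
    contOn_liftTo z0 continuousOn_id (fun _ h => h)
  have c1 : Continuous (fun z : ZS G => z.1.1) := continuous_fst.comp continuous_subtype_val
  have c2 : Continuous (fun z : ZS G => z.1.2) := continuous_snd.comp continuous_subtype_val
  have c3 : Continuous (fun z : ZS G => shrink z.1.1) :=
    contOn_shrink.comp_continuous c1 (fun z => z.2.1)
  have c4 : Continuous (fun z : ZS G => nrm (lam G z.1.1)) :=
    (contOn_nrm_lam G).comp_continuous c1 (fst_mem G)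
  have key : ∀ (x y : V → ℝ) (t : ℝ) (b : V), ((1 - t) • x + t • y) b ≠ 0 → x b ≠ 0 ∨ y b ≠ 0 := by
    intro x y t b h
    by_contra h'
    push Not at h'
    simp [h'.1, h'.2] at h
  have hsh : ∀ (z : ZS G) (a : V), shrink z.1.1 a ≠ 0 → z.1.1 a ≠ 0 := fun z a h =>
    mem_supp.1 (supp_shrink_subset z.2.1 (mem_supp.2 h))
  have h1 := Htpy.line (X := (univ : Set (ZS G))) (X' := ∅) hG (a := fun z => z.1)
    (b := fun z => (shrink z.1.1, z.1.2)) continuous_subtype_val.continuousOn
    (c3.prodMk c2).continuousOn (by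
      intro z _ t ht
      refine ⟨convex_stdSimplex ℝ V z.2.1 (shrink_mem_std z.2.1) (by linarith [ht.2]) ht.1
        (by ring), convex_stdSimplex ℝ V z.2.2.1 z.2.2.1 (by linarith [ht.2]) ht.1 (by ring), ?_⟩
      intro a b ha hb
      exact z.2.2.2 a b ((key _ _ t a ha).elim id (hsh z a)) ((key _ _ t b hb).elim id id))
    (by simp)
  have h2 := Htpy.line (X := (univ : Set (ZS G))) (X' := ∅) hG
    (a := fun z => (shrink z.1.1, z.1.2))
    (b := fun z => (shrink z.1.1, nrm (lam G z.1.1))) (c3.prodMk c2).continuousOn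
    (c3.prodMk c4).continuousOn (by
      intro z _ t ht
      refine ⟨convex_stdSimplex ℝ V (shrink_mem_std z.2.1) (shrink_mem_std z.2.1)
        (by linarith [ht.2]) ht.1 (by ring), convex_stdSimplex ℝ V z.2.2.1
        (sec_mem G (fst_mem G z)).2.1 (by linarith [ht.2]) ht.1 (by ring), ?_⟩
      intro a b ha hb
      have ha' : shrink z.1.1 a ≠ 0 := (key _ _ t a ha).elim id id
      exact (key _ _ t b hb).elim (z.2.2.2 a b (hsh z a ha')) (adj_of_lam G (fst_mem G z) ha'))
    (by simp)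
  exact (h1.trans h2).congr (fun z _ => Subtype.ext (liftTo_val z0 z.2)) (fun _ _ => rfl)

/-- The pair given by an edge. -/
def zedge {v w : V} (h : G.Adj v w) : ZS G :=
  ⟨(Pi.single v 1, Pi.single w 1), single_mem_stdSimplex ℝ v, single_mem_stdSimplex ℝ w, by
    intro a b ha hb
    have h1 : a = v := by by_contra h'; simp [h'] at ha
    have h2 : b = w := by by_contra h'; simp [h'] at hb
    rwa [h1, h2]⟩

lemma exists_Gam_null {v w : V} (h : G.Adj v w) (n : ℕ)
    (hac : ∀ m, 1 ≤ m → m ≤ n → Acyc (nbK G) m) :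
    ∃ m, Htpy {z : ZS G | (supp z.1.1).card ≤ n} ∅ (Gam G v (zedge G h) m)
      (fun _ => gam G v (zedge G h)) := by
  rcases Nat.eq_zero_or_pos n with rfl | hn
  · refine ⟨0, ?_⟩
    have : {z : ZS G | (supp z.1.1).card ≤ 0} = ∅ := by
      ext z
      have := (supp_nonempty z.2.1).card_pos
      simp only [mem_ofPred_eq, mem_empty_iff_false, iff_false]
      omega
    rw [this]
    exact Htpy.of_eqOn (continuousOn_empty _) (eqOn_empty _ _)
  set z0 := zedge G h with hz0
  set A := {z : ZS G | (supp z.1.1).card ≤ n} with hA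
  have hv : ({v} : Finset V) ∈ nbK G := ⟨w, by simpa using h⟩
  have hw : ({w} : Finset V) ∈ nbK G := ⟨v, by simpa using h.symm⟩
  have hc : ∀ (P : Type) [TopologicalSpace P] (B : Set P) (z : ZS G),
      Htpy B ∅ (fun _ => z) (fun _ => sec G z0 z.1.1) := fun P _ B z =>
    (htpy_sec G z0).pull (φ := fun _ => z) continuousOn_const (mapsTo_univ _ _) (by simp)
  have hu : Continuous (fun z => (gam G v z).trans (gam G v z0).symm) :=
    MP.continuous_trans.comp ((continuous_gam G v).prodMk continuous_const)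
  obtain ⟨d, ⟨m, rfl⟩, hd⟩ := odd_power_null (nbK_lower G)
    (u := fun a => (gam G v (sec G z0 a)).trans (gam G v z0).symm)
    (hu.comp_continuousOn (contOn_sec G z0)) hv
    (((hc Unit univ z0).symm.push hu).trans (htpy_trans_symm univ _)) n hac
  refine ⟨m, Gam_null G v z0 A ?_ m ?_⟩
  · have h1 := ((hc Unit univ (zswap G z0)).trans (htpy_of_joinedIn
      (joined_vertices (nbK_lower G) (hac 1 le_rfl hn) hw hv) (contOn_sec G z0) univ)).trans
      (hc Unit univ z0).symm
    exact (h1.push (MP.continuous_symm.comp (continuous_gam G v))).pull (φ := fun _ => ())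
      continuousOn_const (mapsTo_univ _ _) (by simp)
  · have h1 := (((htpy_sec G z0).push hu).pow (2 * m + 1)).mono (subset_univ A) (Y' := ∅) (by simp)
    exact h1.trans (hd.pull (φ := fun z : ZS G => z.1.1)
      (continuous_fst.comp continuous_subtype_val).continuousOn
      (fun z hz => ⟨z.2.1, (fst_mem G z).2, hz⟩) (by simp))

/-- Height. -/
noncomputable def ht (y : YT G) : ℝ := 3 * (∑ a, y.1 (Sum.inl a)) - 1

omit [DecidableEq V] in
lemma continuous_coord (s : V ⊕ V) : Continuous (fun y : YT G => y.1 s) :=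
  (continuous_apply s).comp continuous_subtype_val

omit [DecidableEq V] in
lemma continuous_ht : Continuous (ht G) :=
  (continuous_const.mul (continuous_finsetSum _ (fun _ _ => continuous_coord G _))).sub
    continuous_const

omit [DecidableEq V] in
lemma ht_tau (y : YT G) : ht G (tau G y) = 1 - ht G y := by
  have := ((mem_box G).1 y.2).2.1
  simp only [ht, tau, Sum.swap_inl]
  linarith

omit [DecidableEq V] in
lemma mid_ne {y : YT G} (h0 : 0 ≤ ht G y) (h1 : ht G y ≤ 1) :
    (∃ a, y.1 (Sum.inl a) ≠ 0) ∧ ∃ b, y.1 (Sum.inr b) ≠ 0 := by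
  have := ((mem_box G).1 y.2).2.1
  unfold ht at h0 h1
  constructor
  · by_contra h
    push Not at h
    simp [h] at h0
    linarith
  · by_contra h
    push Not at h
    simp only [h, Finset.sum_const_zero, add_zero] at this
    rw [this] at h1
    linarith

omit [DecidableEq V] in
lemma zeta_mem {y : YT G} (h0 : 0 ≤ ht G y) (h1 : ht G y ≤ 1) :
    (nrm (fun a => y.1 (Sum.inl a)), nrm (fun b => y.1 (Sum.inr b))) ∈ ZS G := by
  obtain ⟨hy0, -, hy⟩ := (mem_box G).1 y.2
  obtain ⟨ha, hb⟩ := mid_ne G h0 h1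
  refine ⟨nrm_mem_std (fun _ => hy0 _) ha, nrm_mem_std (fun _ => hy0 _) hb, fun a b h2 h3 => ?_⟩
  rw [← mem_supp] at h2 h3
  rw [supp_nrm (fun _ => hy0 _) ha, mem_supp] at h2
  rw [supp_nrm (fun _ => hy0 _) hb, mem_supp] at h3
  exact hy a b h2 h3

/-- The pair attached to a point in the middle region. -/
noncomputable def zeta (z0 : ZS G) : YT G → ZS G :=
  liftTo z0 (fun y => (nrm (fun a => y.1 (Sum.inl a)), nrm (fun b => y.1 (Sum.inr b))))

omit [DecidableEq V] in
lemma zeta_val (z0 : ZS G) {y : YT G} (h0 : 0 ≤ ht G y) (h1 : ht G y ≤ 1) :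
    (zeta G z0 y).1 = (nrm (fun a => y.1 (Sum.inl a)), nrm (fun b => y.1 (Sum.inr b))) :=
  liftTo_val z0 (zeta_mem G h0 h1)

omit [DecidableEq V] in
lemma contOn_zeta (z0 : ZS G) :
    ContinuousOn (zeta G z0) {y | 0 ≤ ht G y ∧ ht G y ≤ 1} := by
  refine contOn_liftTo z0 (ContinuousOn.prodMk ?_ ?_) (fun y hy => zeta_mem G hy.1 hy.2)
  · exact contOn_nrm (y := fun (y : YT G) a => y.1 (Sum.inl a))
      (continuous_pi (fun _ => continuous_coord G _)).continuousOn
      (fun y _ _ => y.2.1.1 _) (fun y hy => (mid_ne G hy.1 hy.2).1)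
  · exact contOn_nrm (y := fun (y : YT G) a => y.1 (Sum.inr a))
      (continuous_pi (fun _ => continuous_coord G _)).continuousOn
      (fun y _ _ => y.2.1.1 _) (fun y hy => (mid_ne G hy.1 hy.2).2)

/-- An equivariant self-map of the box complex that is null on a skeleton. -/
theorem exists_psi {v w : V} (h : G.Adj v w) (n : ℕ)
    (hac : ∀ m, 1 ≤ m → m ≤ n → Acyc (nbK G) m) :
    ∃ (ψ : YT G → YT G) (c : YT G), Continuous ψ ∧ (∀ y, ψ (tau G y) = tau G (ψ y)) ∧
      Htpy {y : YT G | (supp y.1).card ≤ n + 1} ∅ ψ (fun _ => c) := by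
  obtain ⟨m, K, hKc, hK0, hK1, -⟩ := exists_Gam_null G h n hac
  set z0 := zedge G h with hz0
  set Γ := fun y => Gam G v z0 m (zeta G z0 y) with hΓ
  set P := {y : YT G | (supp y.1).card ≤ n + 1} with hP
  have hζ : ∀ y ∈ P, 0 ≤ ht G y → ht G y ≤ 1 →
      zeta G z0 y ∈ {z : ZS G | (supp z.1.1).card ≤ n} := by
    intro y hy h0 h1
    obtain ⟨ha, b, hb⟩ := mid_ne G h0 h1
    simp only [mem_ofPred_eq]
    rw [zeta_val G z0 h0 h1, supp_nrm (fun _ => y.2.1.1 _) ha]
    have h2 : insert (Sum.inr b) ((supp (fun a => y.1 (Sum.inl a))).map Embedding.inl) ⊆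
        supp y.1 := by
      intro s hs
      rcases Finset.mem_insert.1 hs with rfl | hs
      · exact mem_supp.2 hb
      · obtain ⟨a, ha, rfl⟩ := Finset.mem_map.1 hs
        exact mem_supp.2 (mem_supp.1 ha :)
    have h3 := Finset.card_le_card h2
    rw [Finset.card_insert_of_notMem (by simp), Finset.card_map] at h3
    have h4 : (supp y.1).card ≤ n + 1 := hy
    omega
  have hend : ∀ (a b : MP (south G v) (north G v)) (s : ℝ), (0 ≤ s → s ≤ 1 → a = b) →
      a.fn (a.len * s) = b.fn (b.len * s) := by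
    intro a b s hab
    rcases le_total s 0 with h0 | h0
    · rw [a.src _ (mul_nonpos_of_nonneg_of_nonpos a.len_nonneg h0),
        b.src _ (mul_nonpos_of_nonneg_of_nonpos b.len_nonneg h0)]
    rcases le_total 1 s with h1 | h1
    · rw [a.tgt _ (le_mul_of_one_le_right a.len_nonneg h1),
        b.tgt _ (le_mul_of_one_le_right b.len_nonneg h1)]
    · rw [hab h0 h1]
  refine ⟨fun y => (Γ y).fn ((Γ y).len * ht G y), south G v, ?_, ?_, ?_⟩
  · rw [← continuousOn_univ]
    refine contOn_ev (continuous_ht G) ((continuous_Gam G v z0 m).comp_continuousOn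
      ((contOn_zeta G z0).mono ?_))
    exact fun y hy => ⟨hy.1.2, hy.2⟩
  · intro y
    simp only [ht_tau]
    rcases le_total (ht G y) 0 with h0 | h0
    · rw [(Γ y).src _ (mul_nonpos_of_nonneg_of_nonpos (Γ y).len_nonneg h0), tau_south,
        MP.tgt _ _ (le_mul_of_one_le_right (MP.len_nonneg _) (by linarith))]
    rcases le_total 1 (ht G y) with h1 | h1
    · rw [(Γ y).tgt _ (le_mul_of_one_le_right (Γ y).len_nonneg h1), tau_north,
        MP.src _ _ (mul_nonpos_of_nonneg_of_nonpos (MP.len_nonneg _) (by linarith))]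
    have e1 : zeta G z0 (tau G y) = zswap G (zeta G z0 y) := by
      apply Subtype.ext
      simp only [zswap]
      rw [zeta_val G z0 h0 h1,
        zeta_val G z0 (by rw [ht_tau]; linarith) (by rw [ht_tau]; linarith)]
      rfl
    obtain ⟨s1, s2⟩ := sym_Gam G v z0 m (zeta G z0 y)
    simp only [hΓ, e1, s1, s2]
    congr 2; ring
  · set ω := gam G v z0 with hω
    have h1 : Htpy P ∅ (fun y => (Γ y).fn ((Γ y).len * ht G y))
        (fun y => ω.fn (ω.len * ht G y)) := by
      refine ⟨fun p => (K (zeta G z0 p.1, p.2)).fn ((K (zeta G z0 p.1, p.2)).len * ht G p.1),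
        ?_, ?_, ?_, by simp⟩
      · refine contOn_ev (h := fun p : YT G × ℝ => ht G p.1)
          ((continuous_ht G).comp continuous_fst) (hKc.comp ?_ ?_)
        · refine ContinuousOn.prodMk ((contOn_zeta G z0).comp continuousOn_fst ?_)
            continuousOn_snd
          exact fun p hp => ⟨hp.1.2, hp.2⟩
        · exact fun p hp => ⟨hζ p.1 hp.1.1.1 hp.1.2 hp.2, hp.1.1.2⟩
      · exact fun y hy => hend _ _ _ (fun h0 h1 => hK0 _ (hζ y hy h0 h1))
      · exact fun y hy => hend _ _ _ (fun h0 h1 => hK1 _ (hζ y hy h0 h1))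
    refine h1.trans ⟨fun p => ω.fn (ω.len * ht G p.1 * (1 - p.2)), ?_, by simp, ?_, by simp⟩
    · exact (ω.fn.continuous.comp ((continuous_const.mul ((continuous_ht G).comp
        continuous_fst)).mul (continuous_const.sub continuous_snd))).continuousOn
    · intro y _
      simpa using ω.src 0 le_rfl

theorem exists_equivariant [Nonempty V] (n : ℕ) (hac : ∀ m, 1 ≤ m → m ≤ n → Acyc (boxK G) m) :
    ∃ F : (Fin (n + 1) → ℝ) → YT G, ContinuousOn F (CS (n + 1)) ∧
      ∀ x ∈ CS (n + 1), F (-x) = tau G (F x) := by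
  obtain ⟨v0⟩ := ‹Nonempty V›
  induction n with
  | zero =>
    have : CS 0 = ∅ := by
      ext x
      rw [Subsingleton.elim x 0, mem_sphere_zero_iff_norm, norm_zero]
      simp
    refine extend_equivariant (continuous_tau G) (tau_tau G) (f := fun _ => south G v0)
      (c := south G v0) (by simp [this]) (Htpy.refl continuousOn_const)
  | succ n ih =>
    obtain ⟨f, hf, hfe⟩ := ih (fun m h1 h2 => hac m h1 (by omega))
    obtain ⟨v, w, h⟩ : ∃ v w, G.Adj v w := by
      obtain ⟨c, hc, hbc⟩ := acyc_nb_of_box G (hac 1 le_rfl (by omega)) (Finsupp.single ∅ 1)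
        (single_mem_Sup ⟨⟨v0, by simp⟩, rfl⟩) (by simp [bd_single])
      have hne : c ≠ 0 := by
        rintro rfl
        simp [eq_comm] at hbc
      obtain ⟨A, hA⟩ := Finsupp.support_nonempty_iff.2 hne
      obtain ⟨⟨b, hb⟩, hcard⟩ := (Finsupp.mem_supported F2 c).1 hc hA
      obtain ⟨a, rfl⟩ := Finset.card_eq_one.1 hcard
      exact ⟨a, b, hb a (by simp)⟩
    obtain ⟨ψ, c, hψ, hψe, hψn⟩ := exists_psi G h n
      (fun m h1 h2 => acyc_nb_of_box G (hac (m + 1) (by omega) (by omega)))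
    obtain ⟨g, hg, hg'⟩ := approx (f := fun x => (f x).1)
      (continuous_subtype_val.comp_continuousOn hf) (fun x _ => (f x).2.1)
    have hgm : MapsTo g (CS (n + 1)) (Rz (boxK G)) := fun x hx =>
      ⟨(hg' x hx).1, boxK_lower G (hg' x hx).2.1 (f x).2.2⟩
    have hG : ContinuousOn (liftTo c (fun z => z)) (Rz (boxK G)) :=
      contOn_liftTo c continuousOn_id (fun _ h => h)
    have h1 := (Htpy.line (X := CS (n + 1)) (X' := ∅) hG (a := fun x => (f x).1) (b := g)
      (continuous_subtype_val.comp_continuousOn hf) hg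
      (fun x hx t ht => line_mem_Rz (boxK_lower G) (f x).2.2 (f x).2.1 (hg' x hx).1 le_rfl
        (hg' x hx).2.1 ht) (by simp)).push hψ
    have h2 := hψn.pull (Y := CS (n + 1)) (Y' := ∅) (φ := fun x => liftTo c (fun z => z) (g x))
      (hG.comp hg hgm) (fun x hx => by
        simp only [mem_ofPred_eq]
        rw [liftTo_val c (f := fun z => z) (hgm hx)]
        exact (hg' x hx).2.2) (by simp)
    refine extend_equivariant (continuous_tau G) (tau_tau G) (f := fun x => ψ (f x)) (c := c)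
      (fun x hx => by rw [hfe x hx, hψe]) ((h1.trans h2).congr (fun x _ => ?_) (fun _ _ => rfl))
    exact congrArg ψ (Subtype.ext (liftTo_val c (f x).2))

end Pool.Agent.Work.MP_653b6e_gt
end

-- merged part: Pool.Agent.Work.MP_653b6e_gt.Subdiv
section
/-! Mod 2 chains on lists and barycentric subdivision. -/

namespace Pool.Agent.Work.MP_653b6e_gt

open Set Finsupp

/-- Chains on lists. -/
abbrev LC (P : Type*) := List P →₀ F2

variable {P Q : Type*}

/-- Cone on list chains. -/
noncomputable def lcons (x : P) : LC P →ₗ[F2] LC P := lin (fun l => single (x :: l) 1)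

/-- Boundary of a list. -/
noncomputable def bdL : List P → LC P
  | [] => 0
  | x :: l => single l 1 + lcons x (bdL l)

/-- Boundary of list chains. -/
noncomputable def lbd : LC P →ₗ[F2] LC P := lin bdL

/-- Push-forward of list chains. -/
noncomputable def lmap (f : P → Q) : LC P →ₗ[F2] LC Q := lin (fun l => single (l.map f) 1)

@[simp] lemma lcons_single (x : P) (l : List P) : lcons x (single l 1) = single (x :: l) 1 := by
  simp [lcons]

@[simp] lemma lbd_single (l : List P) : lbd (single l 1) = bdL l := by simp [lbd]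

@[simp] lemma lmap_single (f : P → Q) (l : List P) :
    lmap f (single l 1) = single (l.map f) 1 := by simp [lmap]

lemma lbd_lcons (x : P) (c : LC P) : lbd (lcons x c) = c + lcons x (lbd c) := by
  have : lbd ∘ₗ lcons x = LinearMap.id + lcons x ∘ₗ lbd :=
    lin_ext (fun l => by simp [bdL])
  exact LinearMap.congr_fun this c

lemma lbd_lbd (c : LC P) : lbd (lbd c) = 0 := by
  have : lbd ∘ₗ lbd = (0 : LC P →ₗ[F2] LC P) := by
    refine lin_ext (fun l => ?_)
    simp only [LinearMap.comp_apply, lbd_single, LinearMap.zero_apply]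
    induction l with
    | nil => simp [bdL]
    | cons x l ih => rw [bdL, map_add, lbd_lcons, ih, map_zero, add_zero, lbd_single, add_self_F2]
  exact LinearMap.congr_fun this c

lemma lmap_lcons (f : P → Q) (x : P) (c : LC P) :
    lmap f (lcons x c) = lcons (f x) (lmap f c) := by
  have : lmap f ∘ₗ lcons x = lcons (f x) ∘ₗ lmap f := lin_ext (fun l => by simp)
  exact LinearMap.congr_fun this c

lemma lmap_lbd (f : P → Q) (c : LC P) : lmap f (lbd c) = lbd (lmap f c) := by
  have : lmap f ∘ₗ lbd = lbd ∘ₗ lmap f := by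
    refine lin_ext (fun l => ?_)
    simp only [LinearMap.comp_apply, lbd_single, lmap_single]
    induction l with
    | nil => simp [bdL]
    | cons x l ih => simp [bdL, lmap_lcons, ih]
  exact LinearMap.congr_fun this c

lemma lmap_lmap {R : Type*} (f : P → Q) (g : Q → R) (c : LC P) :
    lmap g (lmap f c) = lmap (g ∘ f) c := by
  have : lmap g ∘ₗ lmap f = lmap (g ∘ f) := lin_ext (fun l => by simp)
  exact LinearMap.congr_fun this c

lemma bdL_mem (l : List P) : bdL l ∈ Sup {l' | l'.length + 1 = l.length ∧ l' ⊆ l} := by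
  induction l with
  | nil => exact zero_mem _
  | cons x l ih =>
    refine add_mem (single_mem_Sup ⟨rfl, List.subset_cons_self _ _⟩) (map_Sup (fun l' hl' => ?_) ih)
    rw [lcons_single]
    exact single_mem_Sup ⟨by simp [hl'.1], List.cons_subset_cons _ hl'.2⟩

lemma bdL_ofFn {n : ℕ} (t : Fin (n + 1) → P) :
    bdL (List.ofFn t) = ∑ i : Fin (n + 1), single (List.ofFn (t ∘ i.succAbove)) 1 := by
  induction n with
  | zero => simp [bdL]
  | succ n ih =>
    rw [List.ofFn_succ, bdL, ih, Fin.sum_univ_succ (n := n + 1), map_sum]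
    congr 1
    refine Finset.sum_congr rfl (fun i _ => ?_)
    rw [lcons_single, List.ofFn_succ (f := t ∘ i.succ.succAbove)]
    simp [Function.comp_def]

lemma bdL_nodup [DecidableEq P] {l : List P} (h : l.Nodup) :
    bdL l = ∑ a ∈ l.toFinset, single (l.erase a) 1 := by
  induction l with
  | nil => simp [bdL]
  | cons x l ih =>
    rw [List.nodup_cons] at h
    rw [bdL, ih h.2, List.toFinset_cons, Finset.sum_insert (by simpa using h.1), map_sum]
    simp only [List.erase_cons_head, lcons_single, add_right_inj]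
    refine Finset.sum_congr rfl (fun a ha => ?_)
    rw [List.erase_cons_tail]
    simp only [beq_iff_eq]
    rintro rfl
    exact h.1 (by simpa using ha)

section kap

variable {W : Type*} [DecidableEq W]

/-- From lists to finite sets. -/
noncomputable def kap : List W → Ch W
  | [] => single ∅ 1
  | w :: l => cone w (kap l)

/-- From list chains to chains on finite sets. -/
noncomputable def kapL : LC W →ₗ[F2] Ch W := lin kap

@[simp] lemma kapL_single (l : List W) : kapL (single l 1) = kap l := by simp [kapL]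

lemma kapL_lcons (w : W) (c : LC W) : kapL (lcons w c) = cone w (kapL c) := by
  have : kapL ∘ₗ lcons w = cone w ∘ₗ kapL := lin_ext (fun l => by simp [kap])
  exact LinearMap.congr_fun this c

lemma bd_kapL (c : LC W) : bd (kapL c) = kapL (lbd c) := by
  have : bd ∘ₗ kapL = (kapL ∘ₗ lbd : LC W →ₗ[F2] Ch W) := by
    refine lin_ext (fun l => ?_)
    simp only [LinearMap.comp_apply, lbd_single, kapL_single]
    induction l with
    | nil => simp [bdL, kap, bd_single]
    | cons x l ih => rw [kap, bd_cone, ih, bdL, map_add, kapL_lcons, kapL_single]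
  exact LinearMap.congr_fun this c

lemma kap_mem (l : List W) : kap l ∈ Sup {A | A = l.toFinset ∧ A.card = l.length} := by
  induction l with
  | nil => exact single_mem_Sup ⟨rfl, rfl⟩
  | cons x l ih =>
    refine map_Sup (fun A hA => ?_) ih
    rw [cone_single]
    split_ifs with h
    · exact zero_mem _
    · exact single_mem_Sup ⟨by simp [hA.1], by rw [Finset.card_insert_of_notMem h, hA.2]; rfl⟩

lemma kap_nodup {l : List W} (h : l.Nodup) : kap l = single l.toFinset 1 := by
  induction l with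
  | nil => rfl
  | cons x l ih =>
    rw [List.nodup_cons] at h
    rw [kap, ih h.2, cone_single, if_neg (by simpa using h.1), List.toFinset_cons]

lemma exists_lift [Fintype W] : ∃ σ : Ch W →ₗ[F2] LC W, (∀ z, lbd (σ z) = σ (bd z)) ∧
    (∀ z, kapL (σ z) = z) ∧
    ∀ A, σ (single A 1) ∈ Sup {l | l.toFinset = A ∧ l.length = A.card} := by
  set L := (Finset.univ : Finset W).toList with hL
  have hnd : ∀ A : Finset W, (L.filter (fun w => w ∈ A)).Nodup := fun A =>
    (Finset.nodup_toList _).filter _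
  have hfin : ∀ A : Finset W, (L.filter (fun w => w ∈ A)).toFinset = A := by
    intro A; ext w; simp [hL]
  obtain ⟨σ, hσ⟩ : ∃ σ : Ch W →ₗ[F2] LC W,
      ∀ A, σ (single A 1) = single (L.filter (fun w => w ∈ A)) 1 :=
    ⟨lin (fun A => single (L.filter (fun w => w ∈ A)) 1), fun A => lin_single _ _⟩
  refine ⟨σ, fun z => ?_, fun z => ?_, fun A => ?_⟩
  · refine LinearMap.congr_fun (f := lbd ∘ₗ σ) (g := σ ∘ₗ bd) (lin_ext (fun A => ?_)) z
    simp only [LinearMap.comp_apply, hσ, lbd_single, bd_single, map_sum]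
    rw [bdL_nodup (hnd A), hfin]
    refine Finset.sum_congr rfl (fun a _ => ?_)
    rw [(hnd A).erase_eq_filter, List.filter_filter]
    congr 2
    ext w
    by_cases h : w = a <;> simp [Finset.mem_erase, h]
  · refine LinearMap.congr_fun (f := kapL ∘ₗ σ) (g := LinearMap.id) (lin_ext (fun A => ?_)) z
    simp only [LinearMap.comp_apply, hσ, kapL_single, kap_nodup (hnd A), hfin,
      LinearMap.id_apply]
  · rw [hσ]
    exact single_mem_Sup ⟨hfin A, by rw [← List.toFinset_card_of_nodup (hnd A), hfin]⟩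

end kap

section sd

variable {E E' : Type*} [NormedAddCommGroup E] [NormedSpace ℝ E] [NormedAddCommGroup E']
  [NormedSpace ℝ E']

/-- Barycentre of a list. -/
noncomputable def bary (l : List E) : E := (l.length : ℝ)⁻¹ • l.sum

/-- Subdivision in a fixed length. -/
noncomputable def sdN : ℕ → LC E →ₗ[F2] LC E
  | 0 => LinearMap.id
  | n + 1 => lin (fun l => lcons (bary l) (sdN n (bdL l)))

/-- Barycentric subdivision. -/
noncomputable def sd : LC E →ₗ[F2] LC E := lin (fun l => sdN l.length (single l 1))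

lemma sd_nil : sd (single ([] : List E) 1) = single [] 1 := by simp [sd, sdN]

lemma sd_succ {l : List E} {n : ℕ} (h : l.length = n + 1) :
    sd (single l 1) = lcons (bary l) (sd (bdL l)) := by
  rw [sd, lin_single, h, sdN, lin_single]
  congr 1
  refine eq_on_Sup (fun l' hl' => ?_) (bdL_mem l)
  have : l'.length = n := by have := hl'.1; omega
  rw [lin_single, this]

lemma lbd_sd (c : LC E) : lbd (sd c) = sd (lbd c) := by
  have : ∀ n (l : List E), l.length = n → lbd (sd (single l 1)) = sd (lbd (single l 1)) := by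
    intro n
    induction n with
    | zero =>
      intro l hl
      rw [List.length_eq_zero_iff.1 hl, sd_nil]
      simp [bdL]
    | succ n ih =>
      intro l hl
      have h1 : lbd (sd (bdL l)) = sd (lbd (bdL l)) := by
        have := eq_on_Sup (f := lbd ∘ₗ sd (E := E)) (g := sd (E := E) ∘ₗ lbd)
          (fun l' hl' => by
            simp only [LinearMap.comp_apply]
            exact ih l' (by have := hl'.1; omega)) (bdL_mem l)
        simpa only [LinearMap.comp_apply] using this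
      rw [sd_succ hl, lbd_lcons, h1, ← lbd_single l, lbd_lbd]
      simp
  have h := LinearMap.congr_fun (f := lbd ∘ₗ sd (E := E)) (g := sd (E := E) ∘ₗ lbd)
    (lin_ext (fun l => by
      simp only [LinearMap.comp_apply]
      exact this _ l rfl)) c
  simpa only [LinearMap.comp_apply] using h

lemma lmap_sd (f : E →ₗ[ℝ] E') (c : LC E) : lmap f (sd c) = sd (lmap f c) := by
  have : ∀ n (l : List E), l.length = n →
      lmap f (sd (single l 1)) = sd (lmap f (single l 1)) := by
    intro n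
    induction n with
    | zero =>
      intro l hl
      rw [List.length_eq_zero_iff.1 hl, sd_nil]
      simp [sd_nil]
    | succ n ih =>
      intro l hl
      have h1 : lmap f (sd (bdL l)) = sd (lmap f (bdL l)) :=
        eq_on_Sup (f := lmap f ∘ₗ sd) (g := sd ∘ₗ lmap f)
          (fun l' hl' => ih l' (by have := hl'.1; omega)) (bdL_mem l)
      rw [sd_succ hl, lmap_lcons, h1, lmap_single, sd_succ (n := n) (by simpa using hl),
        ← lbd_single l, lmap_lbd, lmap_single, lbd_single]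
      congr 2
      simp [bary, map_list_sum]
  exact LinearMap.congr_fun (f := lmap f ∘ₗ sd) (g := sd ∘ₗ lmap f)
    (lin_ext (fun l => this _ l rfl)) c

lemma bary_mem {C : Set E} (hC : Convex ℝ C) {l : List E} (hl : l ≠ []) (h : ∀ x ∈ l, x ∈ C) :
    bary l ∈ C := by
  have hpos : (0 : ℝ) < l.length := by exact_mod_cast List.length_pos_iff.2 hl
  have := hC.sum_mem (t := Finset.univ) (w := fun _ : Fin l.length => (l.length : ℝ)⁻¹)
    (z := fun i => l[i.1]) (fun _ _ => by positivity) (by simp [hpos.ne'])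
    (fun i _ => h _ (List.getElem_mem _))
  rwa [← Finset.smul_sum, Fin.sum_univ_getElem] at this

omit [NormedSpace ℝ E] in
lemma norm_sum_sub_le (y : E) (r : ℝ) (l : List E) (h : ∀ x ∈ l, dist x y ≤ r) :
    ‖l.sum - l.length • y‖ ≤ l.length * r := by
  induction l with
  | nil => simp
  | cons x l ih =>
    have h1 := ih (fun z hz => h z (List.mem_cons_of_mem _ hz))
    have h2 := h x List.mem_cons_self
    rw [dist_eq_norm] at h2
    have : (x :: l).sum - (x :: l).length • y = (x - y) + (l.sum - l.length • y) := by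
      simp [succ_nsmul]; abel
    rw [this]
    refine (norm_add_le _ _).trans ?_
    simp only [List.length_cons, Nat.cast_succ]
    linarith

lemma dist_bary_le {l : List E} {r : ℝ} (hr : 0 ≤ r) {N : ℕ} (hN : l.length ≤ N)
    (h : ∀ x ∈ l, ∀ y ∈ l, dist x y ≤ r) {y : E} (hy : y ∈ l) :
    dist y (bary l) ≤ (1 - 1 / N) * r := by
  classical
  have hp := List.perm_cons_erase hy
  have hlen : l.length = (l.erase y).length + 1 := by simpa using hp.length_eq
  have h1 := norm_sum_sub_le y r (l.erase y) (fun x hx => h x (List.mem_of_mem_erase hx) y hy)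
  set k := (l.erase y).length with hk
  have hpos : (0 : ℝ) < k + 1 := by positivity
  have h2 : bary l - y = ((k : ℝ) + 1)⁻¹ • ((l.erase y).sum - k • y) := by
    rw [bary, hp.sum_eq, hlen, List.sum_cons, ← Nat.cast_smul_eq_nsmul ℝ]
    push_cast
    have : y = ((k : ℝ) + 1)⁻¹ • (((k : ℝ) + 1) • y) := by
      rw [smul_smul, inv_mul_cancel₀ hpos.ne', one_smul]
    conv_lhs => enter [2]; rw [this]
    rw [← smul_sub]
    congr 1
    rw [add_smul, one_smul]; abel
  rw [dist_comm, dist_eq_norm, h2, norm_smul, norm_inv, Real.norm_of_nonneg hpos.le]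
  have h3 : (k : ℝ) + 1 ≤ N := by exact_mod_cast hlen ▸ hN
  calc ((k : ℝ) + 1)⁻¹ * ‖(l.erase y).sum - k • y‖ ≤ ((k : ℝ) + 1)⁻¹ * (k * r) := by gcongr
    _ = (1 - 1 / (k + 1)) * r := by field_simp; ring
    _ ≤ (1 - 1 / N) * r := by gcongr

lemma sd_mem (N : ℕ) {r : ℝ} (hr : 0 ≤ r) : ∀ n (l : List E), l.length = n → n ≤ N →
    (∀ x ∈ l, ∀ y ∈ l, dist x y ≤ r) →
    sd (single l 1) ∈ Sup {l' | l'.length = n ∧ (∀ x ∈ l', x ∈ convexHull ℝ {y | y ∈ l}) ∧
      ∀ x ∈ l', ∀ y ∈ l', dist x y ≤ (1 - 1 / N) * r} := by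
  intro n
  induction n with
  | zero =>
    intro l hl _ _
    rw [List.length_eq_zero_iff.1 hl, sd_nil]
    exact single_mem_Sup ⟨rfl, by simp, by simp⟩
  | succ n ih =>
    intro l hl hN h
    have hne : l ≠ [] := by rintro rfl; simp at hl
    have h1 : sd (bdL l) ∈ Sup {l' | l'.length = n ∧ (∀ x ∈ l', x ∈ convexHull ℝ {y | y ∈ l}) ∧
        ∀ x ∈ l', ∀ y ∈ l', dist x y ≤ (1 - 1 / N) * r} := by
      refine map_Sup (fun l1 hl1 => ?_) (bdL_mem l)
      refine Sup_mono ?_ (ih l1 (by have := hl1.1; omega) (by omega)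
        (fun x hx y hy => h x (hl1.2 hx) y (hl1.2 hy)))
      exact fun l' hl' => ⟨hl'.1, fun x hx => convexHull_mono (fun y hy => hl1.2 hy)
        (hl'.2.1 x hx), hl'.2.2⟩
    rw [sd_succ hl]
    refine map_Sup (fun l' hl' => ?_) h1
    rw [lcons_single]
    have hb : ∀ y ∈ l', dist y (bary l) ≤ (1 - 1 / N) * r := fun y hy =>
      convexHull_min (t := Metric.closedBall (bary l) ((1 - 1 / N) * r))
        (fun z hz => dist_bary_le hr (hl ▸ hN) h hz) (convex_closedBall _ _) (hl'.2.1 y hy)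
    refine single_mem_Sup ⟨by simp [hl'.1], ?_, ?_⟩
    · intro x hx
      rcases List.mem_cons.1 hx with rfl | hx
      · exact bary_mem (convex_convexHull ℝ _) hne (fun x hx => subset_convexHull ℝ _ hx)
      · exact hl'.2.1 x hx
    · intro x hx y hy
      rcases List.mem_cons.1 hx with rfl | hx <;> rcases List.mem_cons.1 hy with rfl | hy
      · rw [dist_self]
        refine mul_nonneg (sub_nonneg.2 ?_) hr
        rw [div_le_one (by exact_mod_cast (by omega : 0 < N))]
        exact_mod_cast (by omega : 1 ≤ N)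
      · rw [dist_comm]; exact hb y hy
      · exact hb x hx
      · exact hl'.2.2 x hx y hy

lemma lbd_sd_pow (m : ℕ) (c : LC E) : lbd ((sd ^ m) c) = (sd ^ m) (lbd c) := by
  induction m with
  | zero => rfl
  | succ m ih => rw [pow_succ', Module.End.mul_apply, lbd_sd, ih, Module.End.mul_apply]

lemma lmap_sd_pow (f : E →ₗ[ℝ] E') (m : ℕ) (c : LC E) :
    lmap f ((sd ^ m) c) = (sd ^ m) (lmap f c) := by
  induction m with
  | zero => rfl
  | succ m ih => rw [pow_succ', Module.End.mul_apply, lmap_sd, ih, pow_succ', Module.End.mul_apply]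

lemma sd_pow_nil (m : ℕ) : (sd ^ m) (single ([] : List E) 1) = single [] 1 := by
  induction m with
  | zero => rfl
  | succ m ih => rw [pow_succ', Module.End.mul_apply, ih, sd_nil]

lemma sd_pow_mem {C : Set E} (hC : Convex ℝ C) {r : ℝ} (hr : 0 ≤ r) (l : List E)
    (hl : ∀ x ∈ l, x ∈ C) (h : ∀ x ∈ l, ∀ y ∈ l, dist x y ≤ r) (m : ℕ) :
    (sd ^ m) (single l 1) ∈ Sup {l' | l'.length = l.length ∧ (∀ x ∈ l', x ∈ C) ∧
      ∀ x ∈ l', ∀ y ∈ l', dist x y ≤ (1 - 1 / (l.length + 1 : ℕ)) ^ m * r} := by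
  induction m with
  | zero => exact single_mem_Sup ⟨rfl, hl, by simpa using h⟩
  | succ m ih =>
    rw [pow_succ' sd, Module.End.mul_apply]
    refine map_Sup (fun l1 hl1 => ?_) ih
    have h0 : (0 : ℝ) ≤ 1 - 1 / (l.length + 1 : ℕ) := by
      rw [sub_nonneg, div_le_one (by positivity)]
      exact_mod_cast (by omega : 1 ≤ l.length + 1)
    refine Sup_mono ?_ (sd_mem (l.length + 1) (mul_nonneg (pow_nonneg h0 m) hr) _ l1 hl1.1
      (by omega) hl1.2.2)
    refine fun l' hl' => ⟨hl'.1, fun x hx => convexHull_min hl1.2.1 hC (hl'.2.1 x hx), ?_⟩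
    intro x hx y hy
    rw [pow_succ', mul_assoc]
    exact hl'.2.2 x hx y hy

end sd

end Pool.Agent.Work.MP_653b6e_gt
end

-- merged part: Pool.Agent.Work.MP_653b6e_gt.Singular
section
/-! Vanishing of singular homology implies vanishing of simplicial homology (mod 2). -/

namespace Pool.Agent.Work.MP_653b6e_gt

open Set Finsupp CategoryTheory Limits AlgebraicTopology Simplicial Filter

variable {W : Type} [Fintype W] [DecidableEq W]

omit [DecidableEq W] in
lemma exists_vtx [Nonempty W] :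
    ∃ v : (W → ℝ) → W, ∀ x ∈ stdSimplex ℝ W, eps W < x (v x) := by
  have := fun x (hx : x ∈ stdSimplex ℝ W) => exists_gt_eps hx
  choose! v hv using this
  exact ⟨v, hv⟩

/-- A vertex with a large coordinate. -/
noncomputable def vtx [Nonempty W] : (W → ℝ) → W := exists_vtx.choose

omit [DecidableEq W] in
lemma vtx_spec [Nonempty W] {x : W → ℝ} (hx : x ∈ stdSimplex ℝ W) : eps W < x (vtx x) :=
  exists_vtx.choose_spec x hx

/-- The vertices of the standard simplex. -/
noncomputable def stdL (n : ℕ) : List (Fin n → ℝ) := List.ofFn (fun i => Pi.single i 1)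

lemma stdL_mem {n : ℕ} : ∀ x ∈ stdL n, x ∈ stdSimplex ℝ (Fin n) := by
  intro x hx
  obtain ⟨i, rfl⟩ := List.mem_ofFn.1 hx
  exact single_mem_stdSimplex ℝ i

lemma dist_le_one_of_std {ι : Type*} [Fintype ι] {x y : ι → ℝ} (hx : x ∈ stdSimplex ℝ ι)
    (hy : y ∈ stdSimplex ℝ ι) : dist x y ≤ 1 :=
  (Metric.dist_le_diam_of_mem (bounded_stdSimplex ι) hx hy).trans diam_stdSimplex_le

lemma sd_std_mem (n m : ℕ) : (sd ^ m) (single (stdL n) 1) ∈
    Sup {l | l.length = n ∧ (∀ x ∈ l, x ∈ stdSimplex ℝ (Fin n)) ∧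
      ∀ x ∈ l, ∀ y ∈ l, dist x y ≤ (1 - 1 / (n + 1 : ℕ)) ^ m} := by
  have := sd_pow_mem (convex_stdSimplex ℝ (Fin n)) zero_le_one (stdL n) stdL_mem
    (fun x hx y hy => dist_le_one_of_std (stdL_mem x hx) (stdL_mem y hy)) m
  simpa only [stdL, List.length_ofFn, mul_one] using this

variable [Nonempty W]

/-- Simplicial approximation of a parametrised simplex. -/
noncomputable def appr (m : ℕ) {n : ℕ} (f : (Fin n → ℝ) → W → ℝ) : Ch W :=
  kapL (lmap (vtx ∘ f) ((sd ^ m) (single (stdL n) 1)))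

lemma appr_congr (m : ℕ) {n : ℕ} {f g : (Fin n → ℝ) → W → ℝ}
    (h : EqOn f g (stdSimplex ℝ (Fin n))) : appr m f = appr m g := by
  unfold appr
  congr 1
  refine eq_on_Sup (fun l hl => ?_) (sd_std_mem n m)
  rw [lmap_single, lmap_single]
  congr 1
  exact List.map_congr_left (fun x hx => congrArg vtx (h (hl.2.1 x hx)))

lemma lmap_pm_stdL {n : ℕ} {ι : Type*} [Fintype ι] [DecidableEq ι] (t : Fin n → ι) :
    lmap (pm t) (single (stdL n) 1) = single (List.ofFn (fun i => Pi.single (t i) 1)) 1 := by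
  rw [lmap_single, stdL, List.map_ofFn]
  congr 2
  ext1 i
  exact pm_single t i

lemma bd_appr (m : ℕ) {n : ℕ} (f : (Fin (n + 1) → ℝ) → W → ℝ) :
    bd (appr m f) = ∑ i : Fin (n + 1), appr m (f ∘ pm i.succAbove) := by
  unfold appr
  rw [bd_kapL, ← lmap_lbd, lbd_sd_pow, lbd_single, stdL, bdL_ofFn, map_sum, map_sum, map_sum]
  refine Finset.sum_congr rfl (fun i _ => ?_)
  rw [← Function.comp_assoc, ← lmap_lmap (pm i.succAbove), lmap_sd_pow, lmap_pm_stdL]
  rfl

lemma appr_eventually {K : Set (Finset W)} (hK : IsLowerSet K) {n : ℕ}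
    {f : (Fin (n + 1) → ℝ) → W → ℝ} (hf : ContinuousOn f (stdSimplex ℝ (Fin (n + 1))))
    (hm : MapsTo f (stdSimplex ℝ (Fin (n + 1))) (Rz K)) :
    ∀ᶠ m in atTop, appr m f ∈ Sup {A | A ∈ K ∧ A.card = n + 1} := by
  have huc := (isCompact_stdSimplex ℝ (Fin (n + 1))).uniformContinuousOn_of_continuous hf
  obtain ⟨δ, hδ, hδf⟩ := Metric.uniformContinuousOn_iff.1 huc (eps W) eps_pos
  have h0 : (0 : ℝ) ≤ 1 - 1 / (n + 1 + 1 : ℕ) := by
    rw [sub_nonneg, div_le_one (by positivity)]
    exact_mod_cast (by omega : 1 ≤ n + 1 + 1)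
  have h1 : (1 : ℝ) - 1 / (n + 1 + 1 : ℕ) < 1 := sub_lt_self _ (by positivity)
  filter_upwards [(tendsto_pow_atTop_nhds_zero_of_lt_one h0 h1).eventually (gt_mem_nhds hδ)]
    with m hmδ
  refine map_Sup (f := kapL ∘ₗ lmap (vtx ∘ f)) (fun l hl => ?_) (sd_std_mem (n + 1) m)
  rw [LinearMap.comp_apply, lmap_single, kapL_single]
  refine Sup_mono ?_ (kap_mem _)
  rintro A ⟨rfl, hA⟩
  refine ⟨?_, by rw [hA, List.length_map, hl.1]⟩
  obtain ⟨x0, hx0⟩ := List.exists_mem_of_length_pos (l := l) (by rw [hl.1]; omega)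
  refine hK ?_ (hm (hl.2.1 x0 hx0)).2
  intro w hw
  obtain ⟨x, hx, rfl⟩ := List.mem_map.1 (List.mem_toFinset.1 hw)
  have h2 := (dist_le_pi_dist _ _ (vtx (f x))).trans_lt
    (hδf x (hl.2.1 x hx) x0 (hl.2.1 x0 hx0) ((hl.2.2 x hx x0 hx0).trans_lt hmδ))
  have h3 := vtx_spec (hm (hl.2.1 x hx)).1
  rw [Real.dist_eq, abs_lt] at h2
  exact mem_supp.2 (by simp only [Function.comp_apply]; linarith [h2.2])

/-- The approximation chain map on lists of vertices. -/
noncomputable def Psi (m : ℕ) : LC W →ₗ[F2] Ch W :=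
  kapL ∘ₗ lmap vtx ∘ₗ (sd ^ m : Module.End F2 (LC (W → ℝ))) ∘ₗ lmap (fun w => Pi.single w 1)

lemma Psi_apply (m : ℕ) (c : LC W) :
    Psi m c = kapL (lmap vtx ((sd ^ m) (lmap (fun w => (Pi.single w 1 : W → ℝ)) c))) := rfl

lemma appr_pm (m : ℕ) {n : ℕ} (t : Fin n → W) : appr m (pm t) = Psi m (single (List.ofFn t) 1) := by
  rw [Psi_apply, appr, ← lmap_lmap, lmap_sd_pow, lmap_pm_stdL, lmap_single, List.map_ofFn]
  rfl

lemma exists_homotopy (m n : ℕ) : ∃ h : LC W →ₗ[F2] Ch W, ∀ l : List W, l.length < n →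
    bd (h (single l 1)) = Psi m (single l 1) + kap l + h (bdL l) ∧
    h (single l 1) ∈ Sup {σ | σ ⊆ l.toFinset ∧ σ.card = l.length + 1} := by
  obtain ⟨w0⟩ := ‹Nonempty W›
  obtain ⟨h, hh⟩ := carrier (W := W) lbd lbd_lbd List.length
    (fun l => {σ | σ ⊆ l.toFinset ∧ l ≠ []}) (fun l => l.headD w0) (Psi m + kapL)
    (fun x => by
      rw [LinearMap.add_apply, LinearMap.add_apply, map_add, bd_kapL, Psi_apply, Psi_apply,
        bd_kapL, ← lmap_lbd, lbd_sd_pow, ← lmap_lbd]) univ
    (fun l _ => by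
      rw [lbd_single]
      refine Sup_mono ?_ (bdL_mem l)
      refine fun l' hl' => ⟨mem_univ _, hl'.1, fun σ hσ => ⟨?_, ?_⟩⟩
      · exact fun w hw => List.mem_toFinset.2 (hl'.2 (List.mem_toFinset.1 (hσ.1 hw)))
      · rintro rfl
        simpa using hl'.1)
    (fun l _ σ hσ => by
      refine ⟨Finset.insert_subset ?_ hσ.1, hσ.2⟩
      obtain ⟨x, l, rfl⟩ := List.exists_cons_of_ne_nil hσ.2
      simp)
    (fun l _ => by
      rw [LinearMap.add_apply, kapL_single]
      by_cases hl : l = []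
      · subst hl
        rw [Psi_apply, lmap_single, List.map_nil, sd_pow_nil, lmap_single, List.map_nil,
          kapL_single, add_self_F2]
        exact zero_mem _
      refine add_mem ?_ (Sup_mono (fun A hA => And.intro ⟨hA.1.le, hl⟩ hA.2) (kap_mem l))
      rw [Psi_apply, lmap_single]
      have hC : Convex ℝ (Rz (Iic l.toFinset)) := by
        intro x hx y hy a b _ hb hab
        have := line_mem_Rz (isLowerSet_Iic l.toFinset) (le_refl l.toFinset) hx.1 hy.1 hx.2 hy.2
          (t := b) ⟨hb, by linarith⟩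
        rwa [show 1 - b = a by linarith] at this
      have hmem : ∀ x ∈ l.map (fun w => (Pi.single w 1 : W → ℝ)), x ∈ Rz (Iic l.toFinset) := by
        intro x hx
        obtain ⟨w, hw, rfl⟩ := List.mem_map.1 hx
        exact single_mem_Rz (by simpa using hw)
      refine map_Sup (f := kapL ∘ₗ lmap vtx) (fun l' hl' => ?_) (sd_pow_mem hC zero_le_one _ hmem
        (fun x hx y hy => dist_le_one_of_std (hmem x hx).1 (hmem y hy).1) m)
      rw [LinearMap.comp_apply, lmap_single, kapL_single]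
      refine Sup_mono ?_ (kap_mem _)
      rintro A ⟨rfl, hA⟩
      refine ⟨⟨fun w hw => ?_, hl⟩, by rw [hA, List.length_map, hl'.1, List.length_map]⟩
      obtain ⟨x, hx, rfl⟩ := List.mem_map.1 (List.mem_toFinset.1 hw)
      exact (hl'.2.1 x hx).2 (mem_supp.2 (eps_pos.trans (vtx_spec (hl'.2.1 x hx).1)).ne')) n
  refine ⟨h, fun l hl => ⟨?_, Sup_mono (fun σ hσ => And.intro hσ.1.1 hσ.2)
    (hh l (mem_univ _) hl).2⟩⟩
  simpa only [LinearMap.add_apply, kapL_single, lbd_single] using (hh l (mem_univ _) hl).1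

/-- The coefficient module. -/
abbrev RR : ModuleCat.{0} (ZMod 2) := ModuleCat.of (ZMod 2) (ZMod 2)

variable (K : Set (Finset W))

/-- The singular simplicial set of the realisation. -/
noncomputable abbrev SS : SSet.{0} := TopCat.toSSet.obj (TopCat.of (Rz K))

/-- The singular chain complex of the realisation. -/
noncomputable abbrev CX : ChainComplex (ModuleCat.{0} (ZMod 2)) ℕ := (SS K).chainComplex RR

open Classical in
/-- A singular simplex as a function on the ambient space. -/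
noncomputable def sfun {n : ℕ} (s : SS K _⦋n⦌) : (Fin (n + 1) → ℝ) → W → ℝ := fun x =>
  if h : x ∈ stdSimplex ℝ (Fin (n + 1)) then
    ((TopCat.of (Rz K)).toSSetObjEquiv _ s ⟨x, h⟩).1 else 0

omit [DecidableEq W] [Nonempty W] in
lemma sfun_of_mem {n : ℕ} (s : SS K _⦋n⦌) {x : Fin (n + 1) → ℝ}
    (h : x ∈ stdSimplex ℝ (Fin (n + 1))) :
    sfun K s x = ((TopCat.of (Rz K)).toSSetObjEquiv _ s ⟨x, h⟩).1 := dif_pos h

omit [DecidableEq W] [Nonempty W] in
lemma contOn_sfun {n : ℕ} (s : SS K _⦋n⦌) :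
    ContinuousOn (sfun K s) (stdSimplex ℝ (Fin (n + 1))) := by
  rw [continuousOn_iff_continuous_domRestrict]
  have := continuous_subtype_val.comp ((TopCat.of (Rz K)).toSSetObjEquiv _ s).continuous
  exact this.congr (fun x => (sfun_of_mem K s x.2).symm)

omit [DecidableEq W] [Nonempty W] in
lemma mapsTo_sfun {n : ℕ} (s : SS K _⦋n⦌) :
    MapsTo (sfun K s) (stdSimplex ℝ (Fin (n + 1))) (Rz K) := by
  intro x hx
  rw [sfun_of_mem K s hx]
  exact Subtype.property _

omit [DecidableEq W] [Nonempty W] in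
lemma sfun_δ {n : ℕ} (s : SS K _⦋n + 1⦌) (i : Fin (n + 2)) :
    EqOn (sfun K ((SS K).δ i s)) (sfun K s ∘ pm i.succAbove) (stdSimplex ℝ (Fin (n + 1))) := by
  intro x hx
  rw [Function.comp_apply, sfun_of_mem K _ hx, sfun_of_mem K _ (pm_mem_std _ hx)]
  rfl

/-- The basis element of a singular simplex. -/
noncomputable def bas {n : ℕ} (s : SS K _⦋n⦌) : (CX K).X n :=
  ((SS K).ιChainComplex (R := RR) s).hom (1 : ZMod 2)

omit [DecidableEq W] [Nonempty W] in
lemma d_bas {n : ℕ} (s : SS K _⦋n + 1⦌) :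
    ((CX K).d (n + 1) n).hom (bas K s) = ∑ i : Fin (n + 2), bas K ((SS K).δ i s) := by
  have h := congrArg (fun φ => φ.hom (1 : ZMod 2)) ((SS K).ιChainComplex_d RR s)
  simp only [ModuleCat.hom_comp, LinearMap.comp_apply, ModuleCat.hom_sum,
    LinearMap.sum_apply] at h
  refine h.trans (Finset.sum_congr rfl (fun i _ => ?_))
  rw [ModuleCat.hom_zsmul, LinearMap.smul_apply, ← Int.cast_smul_eq_zsmul (ZMod 2)]
  have : ((-1 : ZMod 2)) = 1 := by decide
  simp [this, bas]

omit [DecidableEq W] [Nonempty W] in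
lemma span_bas {n : ℕ} (T : Submodule (ZMod 2) ((CX K).X n)) (h : ∀ s, bas K s ∈ T)
    (c : (CX K).X n) : c ∈ T := by
  have h1 : ModuleCat.ofHom T.mkQ = 0 := by
    refine SSet.chainComplex_hom_ext (fun s => ?_)
    rw [comp_zero]
    ext
    exact (Submodule.Quotient.mk_eq_zero T).2 (h s)
  have h2 := congrArg (fun φ => φ.hom c) h1
  exact (Submodule.Quotient.mk_eq_zero T).1 h2

omit [DecidableEq W] [Nonempty W] in
lemma exists_desc {n : ℕ} {M : Type} [AddCommGroup M] [Module (ZMod 2) M]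
    (f : SS K _⦋n⦌ → M) : ∃ φ : (CX K).X n →ₗ[ZMod 2] M, ∀ s, φ (bas K s) = f s := by
  let c : Cofan (fun _ : SS K _⦋n⦌ => RR) := Cofan.mk (ModuleCat.of (ZMod 2) M)
    (fun s => ModuleCat.ofHom (LinearMap.toSpanSingleton (ZMod 2) M (f s)))
  refine ⟨(((SS K).isColimitChainComplexXCofan RR n).desc c).hom, fun s => ?_⟩
  have h := congrArg (fun φ => φ.hom (1 : ZMod 2))
    (((SS K).isColimitChainComplexXCofan RR n).fac c ⟨s⟩)
  exact h.trans (one_smul _ _)

variable {K}

/-- The affine singular simplex of a tuple of vertices. -/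
noncomputable def aff (hK : IsLowerSet K) {n : ℕ} (t : Fin (n + 1) → W)
    (ht : Finset.univ.image t ∈ K) : SS K _⦋n⦌ :=
  ((TopCat.of (Rz K)).toSSetObjEquiv _).symm
    ⟨fun x => ⟨pm t x.1, mapsTo_pm (L := univ) (fun A _ =>
      hK (Finset.image_subset_image (Finset.subset_univ A)) ht) ⟨x.2, mem_univ _⟩⟩,
      ((continuous_pm t).comp continuous_subtype_val).subtype_mk _⟩

omit [Nonempty W] in
lemma sfun_aff (hK : IsLowerSet K) {n : ℕ} (t : Fin (n + 1) → W) (ht : Finset.univ.image t ∈ K) :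
    EqOn (sfun K (aff hK t ht)) (pm t) (stdSimplex ℝ (Fin (n + 1))) := by
  intro x hx
  rw [sfun_of_mem K _ hx, aff, Equiv.apply_symm_apply]
  rfl

omit [Nonempty W] in
lemma δ_aff (hK : IsLowerSet K) {n : ℕ} (t : Fin (n + 2) → W) (ht : Finset.univ.image t ∈ K)
    (i : Fin (n + 2)) (ht' : Finset.univ.image (t ∘ i.succAbove) ∈ K) :
    (SS K).δ i (aff hK t ht) = aff hK (t ∘ i.succAbove) ht' := by
  apply ((TopCat.of (Rz K)).toSSetObjEquiv _).injective
  ext1 x
  apply Subtype.ext
  rw [← sfun_of_mem K _ x.2, ← sfun_of_mem K _ x.2, sfun_δ K _ i x.2, sfun_aff hK _ _ x.2,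
    Function.comp_apply, sfun_aff hK _ _ (pm_mem_std _ x.2), pm_pm]

omit [Nonempty W] in
lemma exists_J (hK : IsLowerSet K) (n : ℕ) : ∃ J : LC W →ₗ[F2] (CX K).X n,
    ∀ (t : Fin (n + 1) → W) (ht : Finset.univ.image t ∈ K),
      J (single (List.ofFn t) 1) = bas K (aff hK t ht) := by
  classical
  refine ⟨lin (fun l => if h : ∃ t : Fin (n + 1) → W, List.ofFn t = l ∧ Finset.univ.image t ∈ K
    then bas K (aff hK h.choose h.choose_spec.2) else 0), fun t ht => ?_⟩
  have h : ∃ t' : Fin (n + 1) → W, List.ofFn t' = List.ofFn t ∧ Finset.univ.image t' ∈ K :=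
    ⟨t, rfl, ht⟩
  rw [lin_single, dif_pos h]
  congr 2
  exact List.ofFn_injective h.choose_spec.1

omit [Fintype W] [Nonempty W] in
lemma exists_ofFn {n : ℕ} {l : List W} (h : l.length = n) :
    ∃ t : Fin n → W, List.ofFn t = l ∧ Finset.univ.image t = l.toFinset := by
  subst h
  refine ⟨l.get, List.ofFn_get l, ?_⟩
  ext w
  simp [List.mem_iff_get]

lemma acyc_core (hK : IsLowerSet K) (n : ℕ)
    (hex : ∀ (J : LC W →ₗ[F2] (CX K).X n), (∀ (t : Fin (n + 1) → W)
      (ht : Finset.univ.image t ∈ K), J (single (List.ofFn t) 1) = bas K (aff hK t ht)) →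
      ∀ z ∈ Sup {l | List.toFinset l ∈ K ∧ l.length = n + 1}, lbd z = 0 →
        ∃ c, ((CX K).d (n + 1) n).hom c = J z) : Acyc K (n + 1) := by
  intro z hz hbz
  obtain ⟨σ, hσ1, hσ2, hσ3⟩ := exists_lift (W := W)
  obtain ⟨J, hJ⟩ := exists_J hK n
  have hz' : σ z ∈ Sup {l | List.toFinset l ∈ K ∧ l.length = n + 1} :=
    map_Sup (fun A hA => Sup_mono (fun l hl => And.intro (hl.1 ▸ hA.1) (hl.2.trans hA.2))
      (hσ3 A)) hz
  have hbz' : lbd (σ z) = 0 := by rw [hσ1, hbz, map_zero]
  obtain ⟨c, hc⟩ := hex J hJ _ hz' hbz'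
  have hΦ := fun m k => exists_desc K (n := k) (fun s => appr m (sfun K s))
  choose Φ hΦ using hΦ
  have hev : ∀ᶠ m in atTop, Φ m (n + 1) c ∈ Sup {A | A ∈ K ∧ A.card = n + 1 + 1} := by
    refine span_bas K
      { carrier := {c | ∀ᶠ m in atTop, Φ m (n + 1) c ∈ Sup {A | A ∈ K ∧ A.card = n + 1 + 1}}
        add_mem' := ?_
        zero_mem' := ?_
        smul_mem' := ?_ } (fun s => ?_) c
    · intro a b ha hb
      filter_upwards [ha, hb] with m h1 h2
      rw [map_add]; exact add_mem h1 h2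
    · exact Eventually.of_forall (fun m => by rw [map_zero]; exact zero_mem _)
    · intro r a ha
      filter_upwards [ha] with m h1
      rw [map_smul]; exact Submodule.smul_mem _ _ h1
    · filter_upwards [appr_eventually hK (contOn_sfun K s) (mapsTo_sfun K s)] with m h1
      rwa [hΦ]
  obtain ⟨m, hm⟩ := hev.exists
  have hchain : bd (Φ m (n + 1) c) = Φ m n (((CX K).d (n + 1) n).hom c) := by
    refine span_bas K (LinearMap.eqLocus (bd ∘ₗ Φ m (n + 1)) (Φ m n ∘ₗ ((CX K).d (n + 1) n).hom))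
      (fun s => ?_) c
    rw [LinearMap.mem_eqLocus, LinearMap.comp_apply, LinearMap.comp_apply, d_bas, map_sum, hΦ,
      bd_appr]
    refine Finset.sum_congr rfl (fun i _ => ?_)
    rw [hΦ, appr_congr m (sfun_δ K s i)]
  have hΦJ : Φ m n (J (σ z)) = Psi m (σ z) := by
    refine eq_on_Sup (f := Φ m n ∘ₗ J) (fun l hl => ?_) hz'
    obtain ⟨t, rfl, ht⟩ := exists_ofFn hl.2
    rw [LinearMap.comp_apply, hJ t (ht ▸ hl.1), hΦ, appr_congr m (sfun_aff hK t _), appr_pm]
  obtain ⟨h, hh⟩ := exists_homotopy (W := W) m (n + 2)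
  have h1 : bd (h (σ z)) = Psi m (σ z) + kapL (σ z) + h (lbd (σ z)) := by
    have := eq_on_Sup (f := bd ∘ₗ h) (g := Psi m + kapL + h ∘ₗ lbd) (fun l hl => by
      simpa only [LinearMap.comp_apply, LinearMap.add_apply, kapL_single, lbd_single] using
        (hh l (by rw [hl.2]; omega)).1) hz'
    simpa only [LinearMap.comp_apply, LinearMap.add_apply] using this
  have h2 : h (σ z) ∈ Sup {A | A ∈ K ∧ A.card = n + 1 + 1} :=
    map_Sup (fun l hl => Sup_mono (fun A hA => And.intro (hK hA.1 hl.1) (hA.2.trans (by rw [hl.2])))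
      (hh l (by rw [hl.2]; omega)).2) hz'
  refine ⟨Φ m (n + 1) c + h (σ z), add_mem hm h2, ?_⟩
  rw [map_add, hchain, hc, hΦJ, h1, hbz', map_zero, add_zero, ← add_assoc, add_self_F2, zero_add,
    hσ2]

theorem acyc_of_isZero (hK : IsLowerSet K) (n : ℕ)
    (h : IsZero (((singularHomologyFunctor (ModuleCat.{0} (ZMod 2)) (n + 1)).obj RR).obj
      (TopCat.of (Rz K)))) : Acyc K (n + 2) := by
  refine acyc_core hK (n + 1) (fun J hJ z hz hbz => ?_)
  have h1 : (CX K).ExactAt (n + 1) := (HomologicalComplex.exactAt_iff_isZero_homology _ _).2 h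
  rw [HomologicalComplex.exactAt_iff' _ (n + 2) (n + 1) n (by simp) (by simp),
    ShortComplex.moduleCat_exact_iff] at h1
  refine h1 (J z) ?_
  obtain ⟨J', hJ'⟩ := exists_J hK n
  have : ((CX K).d (n + 1) n).hom (J z) = J' (lbd z) := by
    refine eq_on_Sup (f := ((CX K).d (n + 1) n).hom ∘ₗ J) (g := J' ∘ₗ lbd) (fun l hl => ?_) hz
    obtain ⟨t, rfl, ht⟩ := exists_ofFn hl.2
    have ht' : Finset.univ.image t ∈ K := ht ▸ hl.1
    rw [LinearMap.comp_apply, LinearMap.comp_apply, hJ t ht', d_bas, lbd_single, bdL_ofFn, map_sum]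
    refine Finset.sum_congr rfl (fun i _ => ?_)
    have ht'' : Finset.univ.image (t ∘ i.succAbove) ∈ K := by
      refine hK ?_ ht'
      rw [← Finset.image_image]
      exact Finset.image_subset_image (Finset.subset_univ _)
    rw [hJ' _ ht'', δ_aff hK t ht' i ht'']
  change ((CX K).d (n + 1) n).hom (J z) = 0
  rw [this, hbz, map_zero]

theorem acyc_of_isZero_kernel (hK : IsLowerSet K)
    (h : IsZero (kernel ((TopCat.of (Rz K)).singularHomology₀ε RR))) : Acyc K 1 := by
  refine acyc_core hK 0 (fun J hJ z hz hbz => ?_)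
  have hmono : Mono ((SS K).homology₀ε RR) := Preadditive.mono_of_isZero_kernel _ h
  have hmono' : Mono (Sigma.desc (fun _ : SSet.π₀ (SS K) => 𝟙 RR)) := by
    have : Sigma.desc (fun _ : SSet.π₀ (SS K) => 𝟙 RR) =
        ((SS K).homology₀Iso RR).inv ≫ (SS K).homology₀ε RR := by
      simp [SSet.homology₀ε]
    rw [this]
    exact mono_comp _ _
  have hex := ShortComplex.exact_of_g_is_cokernel
    (ShortComplex.mk _ _ (SSet.π₀.d_fromChainComplexXZero (SS K) RR 1))
    (SSet.isColimitCokernelCoforkChainComplexDOneZero (SS K) RR)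
  rw [ShortComplex.moduleCat_exact_iff] at hex
  refine hex (J z) ?_
  apply (ModuleCat.mono_iff_injective _).1 hmono'
  have : (SSet.π₀.fromChainComplexXZero (SS K) RR ≫
      Sigma.desc (fun _ : SSet.π₀ (SS K) => 𝟙 RR)).hom (J z) =
      Finsupp.lapply (R := F2) [] (lbd z) := by
    refine eq_on_Sup (f := (SSet.π₀.fromChainComplexXZero (SS K) RR ≫
      Sigma.desc (fun _ : SSet.π₀ (SS K) => 𝟙 RR)).hom ∘ₗ J) 
      (g := Finsupp.lapply (R := F2) [] ∘ₗ lbd)
      (fun l hl => ?_) hz
    obtain ⟨t, rfl, ht⟩ := exists_ofFn hl.2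
    rw [LinearMap.comp_apply, LinearMap.comp_apply, hJ t (ht ▸ hl.1), lbd_single]
    have h2 : (SS K).ιChainComplex (R := RR) (aff hK t (ht ▸ hl.1)) ≫
        SSet.π₀.fromChainComplexXZero (SS K) RR ≫
        Sigma.desc (fun _ : SSet.π₀ (SS K) => 𝟙 RR) = 𝟙 _ := by simp
    have h3 := congrArg (fun φ => φ.hom (1 : ZMod 2)) h2
    refine h3.trans ?_
    simp [bdL]
  rw [hbz, map_zero] at this
  rw [map_zero]
  exact this

end Pool.Agent.Work.MP_653b6e_gt
end

-- merged part: Pool.Agent.Work.MP_653b6e_gt.Main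
section
/-! Assembly. -/

namespace Pool.Agent.Work.MP_653b6e_gt

open Set

lemma realization_box {V : Type} [Fintype V] (G : SimpleGraph V) :
    realization (boxFaces G) = Rz (boxK G) := by
  classical
  ext x
  refine and_congr_right (fun _ => ⟨?_, fun h => ?_⟩)
  · rintro ⟨σ, ⟨A, B, -, hadj, rfl⟩, hσ⟩ a b ha hb
    refine hadj a ?_ b ?_
    · by_contra h; exact mem_supp.1 ha (hσ _ (by simpa using h))
    · by_contra h; exact mem_supp.1 hb (hσ _ (by simpa using h))
  · refine ⟨supp x, ⟨(supp x).toLeft, (supp x).toRight, ?_, ?_,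
      Finset.toLeft_disjSum_toRight.symm⟩, fun w hw => ?_⟩
    · rw [Finset.disjoint_left]
      intro a ha hb
      exact (h a a (Finset.mem_toLeft.1 ha) (Finset.mem_toRight.1 hb)).ne rfl
    · exact fun a ha b hb => h a b (Finset.mem_toLeft.1 ha) (Finset.mem_toRight.1 hb)
    · by_contra h'
      exact hw (mem_supp.2 h')

lemma main_aux {V : Type} [Fintype V] (G : SimpleGraph V) (S : Set (V ⊕ V → ℝ))
    (hS : S = Rz (boxK G)) (τ : S → S) (hτ : ∀ y s, (τ y).1 s = y.1 s.swap) (n : ℕ)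
    (h : ∀ i : ℤ, i < n → ReducedHomologyVanishes (TopCat.of S) i) :
    ∃ f : C(Metric.sphere (0 : EuclideanSpace ℝ (Fin (n + 1))) 1, S), ∀ x, f (-x) = τ (f x) := by
  classical
  subst hS
  have h0 : Nonempty (Rz (boxK G)) := h (Int.negSucc 0) (by omega)
  obtain ⟨y⟩ := h0
  have : Nonempty V := by
    obtain ⟨s, -⟩ := supp_nonempty y.2.1
    exact ⟨s.elim id id⟩
  have hτ' : τ = tau G := by
    ext y s
    exact hτ y s
  obtain ⟨F, hF, hFe⟩ := exists_equivariant G n (by
    intro m h1 h2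
    obtain ⟨m, rfl⟩ : ∃ k, m = k + 1 := ⟨m - 1, by omega⟩
    cases m with
    | zero => exact acyc_of_isZero_kernel (boxK_lower G) (h 0 (by omega))
    | succ m => exact acyc_of_isZero (boxK_lower G) m (h (m + 1 : ℕ) (by omega)))
  rw [hτ']
  exact to_round_sphere hF hFe

theorem main {V : Type} [Fintype V] (G : SimpleGraph V) :
    connZ2 (boxSpace G) + 1 ≤ coind (boxSpace G) (boxSwap G) := by
  have key : ∀ k : ℤ, (∀ i ≤ k, ReducedHomologyVanishes (boxSpace G) i) →
      (((k : ℝ) + 1 : ℝ) : EReal) ≤ coind (boxSpace G) (boxSwap G) := by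
    intro k hk
    rcases le_or_gt k (-2) with h | h
    · refine le_sSup_of_le (b := ((((0 : ℕ) : ℝ) - 1 : ℝ) : EReal)) ⟨0, rfl, ?_⟩ ?_
      · have : IsEmpty (Metric.sphere (0 : EuclideanSpace ℝ (Fin 0)) 1) := by
          refine ⟨fun x => ?_⟩
          have h1 := mem_sphere_zero_iff_norm.1 x.2
          rw [Subsingleton.elim x.1 0] at h1
          simp at h1
        exact ⟨⟨isEmptyElim, continuous_of_discreteTopology⟩, fun x => isEmptyElim x⟩
      · rw [EReal.coe_le_coe_iff]
        have : (k : ℝ) ≤ -2 := by exact_mod_cast h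
        simp; linarith
    · obtain ⟨n, hn⟩ : ∃ n : ℕ, (n : ℤ) = k + 1 := ⟨(k + 1).toNat, by omega⟩
      refine le_sSup ⟨n + 1, ?_, main_aux G _ (realization_box G) (boxSwap G) (fun _ _ => rfl) n
        (fun i hi => hk i (by omega))⟩
      have : (n : ℝ) = k + 1 := by exact_mod_cast hn
      congr 1
      push_cast
      linarith
  have h1 : connZ2 (boxSpace G) ≤ coind (boxSpace G) (boxSwap G) - 1 := by
    refine sSup_le ?_
    rintro r ⟨k, rfl, hk⟩
    have := key k hk
    rw [EReal.coe_add] at this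
    exact (EReal.le_sub_iff_add_le (Or.inl (EReal.coe_ne_bot 1))
      (Or.inl (EReal.coe_ne_top 1))).2 this
  exact EReal.add_le_of_le_sub h1

end Pool.Agent.Work.MP_653b6e_gt
end
end
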